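import Pool.Agent.K3h54.PS.Win

/-!
# From the coefficients to the exponential generating function
-/

set_option autoImplicit false
set_option linter.unusedVariables false

namespace Pool.Agent.K3h54.PS

open Filter Topology MeasureTheory ProbabilityTheory

/-- the powers -/
noncomputable def pw (a : ℝ) (n : ℕ) : ℝ := (n : ℝ) ^ a

/-- `(n / X) ^ a` is close to `1` -/
lemma pow_near {a : ℝ} (ha : 0 ≤ a) : ∃ C : ℝ, 0 ≤ C ∧ ∀ X : ℝ, 1 ≤ X → ∀ n : ℕ,
    |(n : ℝ) ^ a - X ^ a| ≤ X ^ a * (C / √X * Real.exp |tt X n|) := by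
  obtain ⟨k, hk⟩ : ∃ k : ℕ, k = ⌈a⌉₊ + 1 := ⟨_, rfl⟩
  have hk1 : 1 ≤ k := by omega
  have hak : a ≤ k := by
    rw [hk]
    push_cast
    have := Nat.le_ceil a
    linarith
  refine ⟨k * ((k + 1).factorial * Real.exp 1), by positivity, fun X hX n => ?_⟩
  have hX0 : 0 < X := by linarith
  have hs : 0 < √X := Real.sqrt_pos.2 hX0
  have hs1 : 1 ≤ √X := Real.one_le_sqrt.2 hX
  have hXX : √X * √X = X := Real.mul_self_sqrt hX0.le
  have hXa : 0 < X ^ a := Real.rpow_pos_of_pos hX0 a
  obtain ⟨u, hu⟩ : ∃ u : ℝ, u = n / X := ⟨_, rfl⟩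
  have hu0 : 0 ≤ u := by rw [hu]; positivity
  have e1 : (n : ℝ) ^ a - X ^ a = X ^ a * (u ^ a - 1) := by
    rw [hu, Real.div_rpow (Nat.cast_nonneg n) hX0.le]
    field_simp
  rw [e1, abs_mul, abs_of_pos hXa]
  apply mul_le_mul_of_nonneg_left _ hXa.le
  -- comparison with an integer power
  have h1 : |u ^ a - 1| ≤ |u ^ k - 1| := by
    rcases le_total 1 u with h | h
    · have h2 : 1 ≤ u ^ a := Real.one_le_rpow h ha
      have h3 : u ^ a ≤ u ^ k := by
        rw [← Real.rpow_natCast]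
        exact Real.rpow_le_rpow_of_exponent_le h hak
      rw [abs_of_nonneg (by linarith), abs_of_nonneg (by linarith)]
      linarith
    · rcases hu0.eq_or_lt with h0 | h0
      · rw [← h0]
        have h4 : (0 : ℝ) ^ k = 0 := zero_pow (by omega)
        rw [h4]
        have h5 : 0 ≤ (0 : ℝ) ^ a := Real.rpow_nonneg le_rfl a
        have h6 : (0 : ℝ) ^ a ≤ 1 := Real.zero_rpow_le_one a
        rw [abs_of_nonpos (by linarith), abs_of_nonpos (by linarith)]
        linarith
      · have h2 : u ^ a ≤ 1 := Real.rpow_le_one hu0 h ha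
        have h3 : u ^ k ≤ u ^ a := by
          rw [← Real.rpow_natCast]
          exact Real.rpow_le_rpow_of_exponent_ge h0 h hak
        rw [abs_of_nonpos (by linarith), abs_of_nonpos (by linarith)]
        linarith
  obtain ⟨T, hT⟩ : ∃ T : ℝ, T = |tt X n| := ⟨_, rfl⟩
  have hT0 : 0 ≤ T := by rw [hT]; exact abs_nonneg _
  have h2 : |u - 1| = T / √X := by
    rw [hT, hu]
    unfold tt
    rw [← abs_of_pos hs, ← abs_div, abs_of_pos hs, div_div, hXX]
    congr 1
    field_simp
  have h2' : |u - 1| ≤ T := by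
    rw [h2, div_le_iff₀ hs]
    nlinarith
  have h3 : |u ^ k - 1| ≤ T / √X * (k * (1 + T) ^ k) := by
    rw [← mul_geom_sum u k, abs_mul, h2]
    apply mul_le_mul_of_nonneg_left _ (by positivity)
    refine (Finset.abs_sum_le_sum_abs _ _).trans ?_
    calc ∑ i ∈ Finset.range k, |u ^ i| ≤ ∑ i ∈ Finset.range k, (1 + T) ^ k := by
          refine Finset.sum_le_sum fun i hi => ?_
          rw [Finset.mem_range] at hi
          rw [abs_pow, abs_of_nonneg hu0]
          have h5 : u ≤ 1 + T := by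
            have := le_abs_self (u - 1)
            linarith
          calc u ^ i ≤ (1 + T) ^ i := by gcongr
            _ ≤ (1 + T) ^ k := pow_le_pow_right₀ (by linarith) hi.le
      _ = _ := by rw [Finset.sum_const, Finset.card_range, nsmul_eq_mul]
  refine h1.trans (h3.trans ?_)
  have h4 : (1 + T) ^ (k + 1) ≤ (k + 1).factorial * Real.exp (1 + T) := by
    have := Real.pow_div_factorial_le_exp (1 + T) (by linarith) (k + 1)
    rw [div_le_iff₀ (by positivity)] at this
    linarith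
  rw [Real.exp_add] at h4
  have h5 : T * (1 + T) ^ k ≤ (1 + T) ^ (k + 1) := by
    rw [pow_succ]
    have : 0 ≤ (1 + T) ^ k := by positivity
    nlinarith
  calc T / √X * (k * (1 + T) ^ k) = k * (T * (1 + T) ^ k) / √X := by ring
    _ ≤ k * ((k + 1).factorial * (Real.exp 1 * Real.exp T)) / √X := by
      apply div_le_div_of_nonneg_right _ hs.le
      have := h5.trans h4
      gcongr
    _ = _ := by rw [← hT]; ring

lemma exp_abs_le (t : ℝ) : Real.exp |t| ≤ Real.exp (1 * t) + Real.exp ((-1) * t) := by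
  have h1 := Real.exp_pos (1 * t)
  have h2 := Real.exp_pos ((-1) * t)
  rcases abs_cases t with ⟨h, _⟩ | ⟨h, _⟩
  · rw [h]
    have : Real.exp t = Real.exp (1 * t) := by rw [one_mul]
    linarith
  · rw [h]
    have : Real.exp (-t) = Real.exp ((-1) * t) := by rw [neg_one_mul]
    linarith

lemma one_lim : Tendsto (fun X : ℝ => egf (fun _ => 1) X / (Real.exp X * X ^ (0 : ℝ))) atTop (𝓝 1) := by
  refine tendsto_const_nhds.congr' ?_
  filter_upwards with X
  rw [egf_one, Real.rpow_zero, mul_one, div_self (Real.exp_pos X).ne']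

/-- the exponential absolute moments are bounded -/
lemma bdd_abs : ∀ᶠ X : ℝ in atTop, Summable (fun n => tm (fun _ => 1) X n * Real.exp |tt X n|) ∧
    ∑' n, tm (fun _ => 1) X n * Real.exp |tt X n| ≤ 4 * Real.exp X := by
  have h1 := adm_one.mgf_lim one_pos one_lim 1
  have h2 := adm_one.mgf_lim one_pos one_lim (-1)
  have e1 : Real.exp ((1 : ℝ) ^ 2 / 2) < 2 := by
    have := Real.exp_one_lt_d9
    have h3 : Real.exp ((1 : ℝ) ^ 2 / 2) ^ 2 = Real.exp 1 := by
      rw [← Real.exp_nat_mul]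
      norm_num
    nlinarith [Real.exp_pos ((1 : ℝ) ^ 2 / 2)]
  have e2 : Real.exp ((-1 : ℝ) ^ 2 / 2) < 2 := by
    rw [show ((-1 : ℝ)) ^ 2 = 1 ^ 2 by norm_num]
    exact e1
  filter_upwards [h1.eventually_lt_const e1, h2.eventually_lt_const e2, eventually_gt_atTop 0]
    with X g1 g2 hX
  rw [egf_one] at g1 g2
  have he := Real.exp_pos X
  rw [div_lt_iff₀ he] at g1 g2
  have s1 := adm_one.summ_exp hX 1
  have s2 := adm_one.summ_exp hX (-1)
  have s3 := s1.add s2
  have hb : ∀ n, tm (fun _ => 1) X n * Real.exp |tt X n| ≤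
      tm (fun _ => 1) X n * Real.exp (1 * tt X n) + tm (fun _ => 1) X n * Real.exp ((-1) * tt X n) := by
    intro n
    rw [← mul_add]
    exact mul_le_mul_of_nonneg_left (exp_abs_le _) (tm_nonneg adm_one.nonneg hX.le n)
  have s4 : Summable (fun n => tm (fun _ => 1) X n * Real.exp |tt X n|) :=
    s3.of_nonneg_of_le (fun n => mul_nonneg (tm_nonneg adm_one.nonneg hX.le n) (Real.exp_pos _).le) hb
  refine ⟨s4, (s4.tsum_le_tsum hb s3).trans ?_⟩
  rw [s1.tsum_add s2]
  linarith

lemma adm_pw {a : ℝ} (ha : 0 ≤ a) : Adm (pw a) := by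
  refine ⟨fun n => Real.rpow_nonneg (Nat.cast_nonneg n) a, fun X => ?_⟩
  -- `n ^ a ≤ C 2 ^ n`
  obtain ⟨k, hk⟩ : ∃ k : ℕ, a ≤ k := exists_nat_ge a
  have h1 : Summable (fun n => (k.factorial * Real.exp 1 : ℝ) * tm (fun _ => 1) (Real.exp 1 * |X|) n) :=
    (adm_one.summ _).mul_left _
  refine Summable.of_norm_bounded h1 (fun n => ?_)
  unfold tm pw
  rw [Real.norm_eq_abs, abs_div, abs_mul, abs_pow, abs_of_nonneg (Real.rpow_nonneg (Nat.cast_nonneg n) a),
    abs_of_pos (show (0 : ℝ) < n.factorial by positivity), mul_pow]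
  have h2 : (n : ℝ) ^ a ≤ k.factorial * Real.exp 1 * Real.exp 1 ^ n := by
    have h3 : (n : ℝ) ^ a ≤ (1 + n) ^ k := by
      rw [← Real.rpow_natCast (1 + (n : ℝ)) k]
      calc (n : ℝ) ^ a ≤ (1 + n) ^ a := by
            apply Real.rpow_le_rpow (Nat.cast_nonneg n) (by linarith) ha
        _ ≤ _ := by
            apply Real.rpow_le_rpow_of_exponent_le _ hk
            have : (0 : ℝ) ≤ n := Nat.cast_nonneg n
            linarith
    have h4 := Real.pow_div_factorial_le_exp (1 + (n : ℝ)) (by positivity) k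
    rw [div_le_iff₀ (by positivity), Real.exp_add] at h4
    have h5 : Real.exp (n : ℝ) = Real.exp 1 ^ n := by
      rw [← Real.exp_nat_mul, mul_one]
    rw [h5] at h4
    linarith
  rw [div_le_iff₀ (by positivity)]
  calc (n : ℝ) ^ a * |X| ^ n ≤ k.factorial * Real.exp 1 * Real.exp 1 ^ n * |X| ^ n := by gcongr
    _ = _ := by field_simp

/-- the deviation of `n ^ a` from `X ^ a` is negligible -/
lemma dev_lim {a : ℝ} (ha : 0 ≤ a) : ∃ C : ℝ, 0 ≤ C ∧ ∀ᶠ X : ℝ in atTop, ∀ q : ℕ,
    |egf (rs q (pw a)) X - X ^ a * egf (ind q) X| ≤ C / √X * (Real.exp X * X ^ a) ∧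
    |egf (pw a) X - X ^ a * egf (fun _ => 1) X| ≤ C / √X * (Real.exp X * X ^ a) := by
  obtain ⟨C, hC, h⟩ := pow_near ha
  refine ⟨4 * C, by positivity, ?_⟩
  filter_upwards [bdd_abs, eventually_ge_atTop 1] with X hX1 hX
  obtain ⟨hs, hb⟩ := hX1
  have hX0 : 0 < X := by linarith
  have hXa : 0 < X ^ a := Real.rpow_pos_of_pos hX0 a
  have hsq : 0 < √X := Real.sqrt_pos.2 hX0
  have key : ∀ e : ℕ → ℝ, (∀ n, 0 ≤ e n) → (∀ n, e n ≤ 1) → Adm (fun n => e n * pw a n) → Adm e →
      |egf (fun n => e n * pw a n) X - X ^ a * egf e X| ≤ 4 * C / √X * (Real.exp X * X ^ a) := by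
    intro e he0 he1 ha1 ha2
    unfold egf
    rw [← tsum_mul_left, ← (ha1.summ X).tsum_sub ((ha2.summ X).mul_left _)]
    have s1 : Summable (fun n => X ^ a * (C / √X) * (tm (fun _ => 1) X n * Real.exp |tt X n|)) :=
      hs.mul_left _
    have hb1 : ∀ n, ‖tm (fun n => e n * pw a n) X n - X ^ a * tm e X n‖ ≤
        X ^ a * (C / √X) * (tm (fun _ => 1) X n * Real.exp |tt X n|) := by
      intro n
      have e1 : tm (fun n => e n * pw a n) X n - X ^ a * tm e X n =
          e n * (tm (fun _ => 1) X n * ((n : ℝ) ^ a - X ^ a)) := by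
        unfold tm pw
        ring
      have t0 := tm_nonneg adm_one.nonneg hX0.le n
      rw [e1, Real.norm_eq_abs, abs_mul, abs_mul, abs_of_nonneg (he0 n), abs_of_nonneg t0]
      have h1 := mul_le_mul_of_nonneg_left (h X hX n) t0
      have h2 : 0 ≤ tm (fun _ => 1) X n * |(n : ℝ) ^ a - X ^ a| := by positivity
      have h3 := mul_le_mul_of_nonneg_right (he1 n) h2
      linarith
    refine (norm_tsum_le_tsum_norm (s1.of_nonneg_of_le (fun n => norm_nonneg _) hb1)).trans ?_
    refine ((s1.of_nonneg_of_le (fun n => norm_nonneg _) hb1).tsum_le_tsum hb1 s1).trans ?_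
    rw [tsum_mul_left]
    calc X ^ a * (C / √X) * ∑' n, tm (fun _ => 1) X n * Real.exp |tt X n| ≤
          X ^ a * (C / √X) * (4 * Real.exp X) := by gcongr
      _ = _ := by ring
  intro q
  constructor
  · exact key (ind q) (ind_nonneg q) (ind_le q) ((adm_pw ha).rs q) (adm_ind q)
  · have := key (fun _ => 1) (fun _ => zero_le_one) (fun _ => le_rfl)
      (by simpa only [one_mul] using adm_pw ha) adm_one
    simpa only [one_mul] using this

/-- the powers on a parity class -/
theorem egf_rs_pw_lim {a : ℝ} (ha : 0 ≤ a) {q : ℕ} (hq : q ≤ 1) :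
    Tendsto (fun X : ℝ => egf (rs q (pw a)) X / (Real.exp X * X ^ a)) atTop (𝓝 (1 / 2)) := by
  obtain ⟨C, hC, h⟩ := dev_lim ha
  have h1 : Tendsto (fun X : ℝ => C / √X) atTop (𝓝 0) :=
    tendsto_const_nhds.div_atTop Real.tendsto_sqrt_atTop
  have h2 : Tendsto (fun X : ℝ => egf (rs q (pw a)) X / (Real.exp X * X ^ a) -
      egf (ind q) X / (Real.exp X * X ^ (0 : ℝ))) atTop (𝓝 0) := by
    rw [tendsto_zero_iff_norm_tendsto_zero]
    refine squeeze_zero' (Eventually.of_forall fun _ => norm_nonneg _) ?_ h1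
    filter_upwards [h, eventually_gt_atTop 0] with X g hX
    have hXa : 0 < X ^ a := Real.rpow_pos_of_pos hX a
    have he := Real.exp_pos X
    have e1 : egf (rs q (pw a)) X / (Real.exp X * X ^ a) -
      egf (ind q) X / (Real.exp X * X ^ (0 : ℝ)) =
      (egf (rs q (pw a)) X - X ^ a * egf (ind q) X) / (Real.exp X * X ^ a) := by
      rw [Real.rpow_zero, mul_one]
      field_simp
    rw [e1, Real.norm_eq_abs, abs_div, abs_of_pos (by positivity : 0 < Real.exp X * X ^ a),
      div_le_iff₀ (by positivity)]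
    exact (g q).1
  have h3 := h2.add (egf_ind_lim hq)
  rw [zero_add] at h3
  refine h3.congr fun X => ?_
  ring

/-- the powers -/
theorem egf_pw_lim {a : ℝ} (ha : 0 ≤ a) :
    Tendsto (fun X : ℝ => egf (pw a) X / (Real.exp X * X ^ a)) atTop (𝓝 1) := by
  obtain ⟨C, hC, h⟩ := dev_lim ha
  have h1 : Tendsto (fun X : ℝ => C / √X) atTop (𝓝 0) :=
    tendsto_const_nhds.div_atTop Real.tendsto_sqrt_atTop
  have h2 : Tendsto (fun X : ℝ => egf (pw a) X / (Real.exp X * X ^ a) -
      egf (fun _ => 1) X / (Real.exp X * X ^ (0 : ℝ))) atTop (𝓝 0) := by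
    rw [tendsto_zero_iff_norm_tendsto_zero]
    refine squeeze_zero' (Eventually.of_forall fun _ => norm_nonneg _) ?_ h1
    filter_upwards [h, eventually_gt_atTop 0] with X g hX
    have hXa : 0 < X ^ a := Real.rpow_pos_of_pos hX a
    have he := Real.exp_pos X
    have e1 : egf (pw a) X / (Real.exp X * X ^ a) -
      egf (fun _ => 1) X / (Real.exp X * X ^ (0 : ℝ)) =
      (egf (pw a) X - X ^ a * egf (fun _ => 1) X) / (Real.exp X * X ^ a) := by
      rw [Real.rpow_zero, mul_one]
      field_simp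
    rw [e1, Real.norm_eq_abs, abs_div, abs_of_pos (by positivity : 0 < Real.exp X * X ^ a),
      div_le_iff₀ (by positivity)]
    exact (g 0).2
  have h3 := h2.add one_lim
  rw [zero_add] at h3
  refine h3.congr fun X => ?_
  ring

/-- finitely many coefficients are negligible -/
lemma fin_small {a : ℝ} (ha : 0 ≤ a) (v : ℕ → ℝ) (N : ℕ) :
    Tendsto (fun X : ℝ => (∑ n ∈ Finset.range N, |tm v X n|) / (Real.exp X * X ^ a)) atTop (𝓝 0) := by
  have h1 : ∀ n ∈ Finset.range N, Tendsto (fun X : ℝ => |v n| / n.factorial * (X ^ n * Real.exp (-X)))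
      atTop (𝓝 0) := by
    intro n _
    have := (Real.tendsto_pow_mul_exp_neg_atTop_nhds_zero n).const_mul (|v n| / n.factorial)
    rwa [mul_zero] at this
  have h2 := tendsto_finsetSum _ h1
  rw [Finset.sum_const_zero] at h2
  refine squeeze_zero' ?_ ?_ h2
  · filter_upwards [eventually_gt_atTop 0] with X hX
    positivity
  · filter_upwards [eventually_ge_atTop 1] with X hX
    have hX0 : 0 < X := by linarith
    have hXa : 1 ≤ X ^ a := Real.one_le_rpow hX ha
    rw [div_le_iff₀ (by positivity), Finset.sum_mul]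
    refine Finset.sum_le_sum fun n _ => ?_
    unfold tm
    rw [abs_div, abs_mul, abs_pow, abs_of_pos hX0, abs_of_pos (show (0 : ℝ) < n.factorial by positivity),
      Real.exp_neg]
    have he := Real.exp_pos X
    have e : |v n| / (n.factorial : ℝ) * (X ^ n * (Real.exp X)⁻¹) * (Real.exp X * X ^ a) =
      |v n| * X ^ n / (n.factorial : ℝ) * X ^ a := by field_simp
    rw [e]
    have : 0 ≤ |v n| * X ^ n / (n.factorial : ℝ) := by positivity
    nlinarith

/-- comparison from above -/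
theorem dom_le {v p : ℕ → ℝ} (hv : Adm v) (hp : Adm p) {a κ K : ℝ} (ha : 0 ≤ a) (hK : 0 ≤ K)
    (H : Tendsto (fun X : ℝ => egf p X / (Real.exp X * X ^ a)) atTop (𝓝 κ))
    (hvp : ∀ᶠ n : ℕ in atTop, v n ≤ K * p n) {η : ℝ} (hη : 0 < η) :
    ∀ᶠ X : ℝ in atTop, egf v X / (Real.exp X * X ^ a) ≤ K * κ + η := by
  obtain ⟨N, hN⟩ := eventually_atTop.1 hvp
  have h1 := (H.const_mul K).add (fin_small ha v N)
  rw [add_zero] at h1
  filter_upwards [h1.eventually_le_const (show K * κ < K * κ + η by linarith),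
    eventually_gt_atTop 0] with X g1 hX
  refine le_trans ?_ g1
  have hXa : 0 < X ^ a := Real.rpow_pos_of_pos hX a
  have he := Real.exp_pos X
  rw [mul_div_assoc', ← add_div]
  apply div_le_div_of_nonneg_right _ (by positivity)
  have s1 := hv.summ X
  have s2 := (hp.summ X).mul_left K
  unfold egf
  rw [← s1.sum_add_tsum_nat_add N, ← tsum_mul_left, add_comm]
  have h2 : ∑' i, tm v X (i + N) ≤ ∑' i, K * tm p X i := by
    rw [← s2.sum_add_tsum_nat_add N]
    have h3 : 0 ≤ ∑ i ∈ Finset.range N, K * tm p X i :=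
      Finset.sum_nonneg fun i _ => mul_nonneg hK (tm_nonneg hp.nonneg hX.le i)
    have h4 : ∑' i, tm v X (i + N) ≤ ∑' i, K * tm p X (i + N) := by
      refine ((summable_nat_add_iff N).2 s1).tsum_le_tsum (fun i => ?_) ((summable_nat_add_iff N).2 s2)
      unfold tm
      have h5 := hN (i + N) (by omega)
      have h6 : 0 ≤ X ^ (i + N) / ((i + N).factorial : ℝ) := by positivity
      calc v (i + N) * X ^ (i + N) / ((i + N).factorial : ℝ) =
          v (i + N) * (X ^ (i + N) / ((i + N).factorial : ℝ)) := by ring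
        _ ≤ K * p (i + N) * (X ^ (i + N) / ((i + N).factorial : ℝ)) := by gcongr
        _ = _ := by ring
    linarith
  have h3 : ∑ i ∈ Finset.range N, tm v X i ≤ ∑ i ∈ Finset.range N, |tm v X i| :=
    Finset.sum_le_sum fun i _ => le_abs_self _
  linarith

/-- comparison from below -/
theorem dom_ge {v p : ℕ → ℝ} (hv : Adm v) (hp : Adm p) {a κ K : ℝ} (ha : 0 ≤ a) (hK : 0 ≤ K)
    (H : Tendsto (fun X : ℝ => egf p X / (Real.exp X * X ^ a)) atTop (𝓝 κ))
    (hvp : ∀ᶠ n : ℕ in atTop, K * p n ≤ v n) {η : ℝ} (hη : 0 < η) :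
    ∀ᶠ X : ℝ in atTop, K * κ - η ≤ egf v X / (Real.exp X * X ^ a) := by
  obtain ⟨N, hN⟩ := eventually_atTop.1 hvp
  have h1 := (H.const_mul K).sub ((fin_small ha p N).const_mul K)
  rw [mul_zero, sub_zero] at h1
  filter_upwards [h1.eventually_const_le (show K * κ - η < K * κ by linarith),
    eventually_gt_atTop 0] with X g1 hX
  refine g1.trans ?_
  have hXa : 0 < X ^ a := Real.rpow_pos_of_pos hX a
  have he := Real.exp_pos X
  rw [mul_div_assoc', mul_div_assoc', ← sub_div]
  apply div_le_div_of_nonneg_right _ (by positivity)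
  have s1 := hv.summ X
  have s2 := (hp.summ X).mul_left K
  unfold egf
  rw [← tsum_mul_left, ← s2.sum_add_tsum_nat_add N, ← s1.sum_add_tsum_nat_add N]
  have h4 : ∑' i, K * tm p X (i + N) ≤ ∑' i, tm v X (i + N) := by
    refine ((summable_nat_add_iff N).2 s2).tsum_le_tsum (fun i => ?_) ((summable_nat_add_iff N).2 s1)
    unfold tm
    have h5 := hN (i + N) (by omega)
    have h6 : 0 ≤ X ^ (i + N) / ((i + N).factorial : ℝ) := by positivity
    calc K * (p (i + N) * X ^ (i + N) / ((i + N).factorial : ℝ)) =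
        K * p (i + N) * (X ^ (i + N) / ((i + N).factorial : ℝ)) := by ring
      _ ≤ v (i + N) * (X ^ (i + N) / ((i + N).factorial : ℝ)) := by gcongr
      _ = _ := by ring
  have h3 : ∑ i ∈ Finset.range N, K * tm p X i ≤ K * ∑ i ∈ Finset.range N, |tm p X i| := by
    rw [Finset.mul_sum]
    exact Finset.sum_le_sum fun i _ => mul_le_mul_of_nonneg_left (le_abs_self _) hK
  have h7 : 0 ≤ ∑ i ∈ Finset.range N, tm v X i :=
    Finset.sum_nonneg fun i _ => tm_nonneg hv.nonneg hX.le i
  linarith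

end Pool.Agent.K3h54.PS
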