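import Pool.Agent.K3h54.PS.Core

/-!
# Parity classes
-/

set_option autoImplicit false
set_option linter.unusedVariables false

namespace Pool.Agent.K3h54.PS

open Filter Topology
open Pool.Agent.R956.K1

variable {l : ℕ → ℝ} {D : ℝ} {E : ℕ → ℝ} {q : ℕ}

lemma log_two_k (a : ℝ) (hq : q ≤ 1) {τ : ℝ} (hτ : 0 < τ) : ∀ᶠ k : ℕ in atTop,
    |a * Real.log ((2 * k + q : ℕ) : ℝ) - (a * Real.log k + a * Real.log 2)| ≤ τ := by
  have h1 : ∀ᶠ k : ℕ in atTop, (|a| + 1) / τ ≤ (k : ℝ) :=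
    tendsto_natCast_atTop_atTop.eventually_ge_atTop _
  filter_upwards [h1, eventually_ge_atTop 1] with k h1 hk
  have hk0 : (0 : ℝ) < k := by exact_mod_cast hk
  have e : a * Real.log ((2 * k + q : ℕ) : ℝ) - (a * Real.log k + a * Real.log 2) =
      a * Real.log (((2 * k + q : ℕ) : ℝ) / (2 * k)) := by
    rw [Real.log_div (by positivity) (by positivity), Real.log_mul (by norm_num) hk0.ne']
    ring
  rw [e, abs_mul]
  have h2 : 1 ≤ ((2 * k + q : ℕ) : ℝ) / (2 * k) := by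
    rw [le_div_iff₀ (by positivity)]
    push_cast
    have : (0 : ℝ) ≤ q := Nat.cast_nonneg q
    linarith
  have h3 : |Real.log (((2 * k + q : ℕ) : ℝ) / (2 * k))| ≤ 1 / k := by
    rw [abs_of_nonneg (Real.log_nonneg h2)]
    refine (Real.log_le_sub_one_of_pos (by linarith)).trans ?_
    have hq' : (q : ℝ) ≤ 1 := by exact_mod_cast hq
    have e2 : ((2 * k + q : ℕ) : ℝ) / (2 * k) - 1 = q / (2 * k) := by
      push_cast
      field_simp
      ring
    rw [e2, div_le_div_iff₀ (by positivity) hk0]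
    nlinarith
  have h4 : |a| * (1 / k) ≤ τ := by
    rw [mul_one_div, div_le_iff₀ hk0]
    rw [div_le_iff₀ hτ] at h1
    linarith
  exact (mul_le_mul_of_nonneg_left h3 (abs_nonneg a)).trans h4

/-- windows inside a parity class -/
lemma win (hq : q ≤ 1) (hE : Sc E) {δ : ℝ} (hδ : 0 < δ) {P : ℕ → Prop}
    (h : ∀ᶠ n : ℕ in atTop, ∃ m : ℕ, n ≤ m ∧ (m : ℝ) ≤ n + δ * √(n * E n) ∧ m % 2 = q ∧ P m) :
    ∀ᶠ k : ℕ in atTop, ∃ k' : ℕ, k ≤ k' ∧ (k' : ℝ) ≤ k + 2 * δ * √(k * E k) ∧ P (2 * k' + q) := by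
  have ht : Tendsto (fun k : ℕ => 2 * k + q) atTop atTop :=
    tendsto_atTop_mono (fun k => by simp only [id]; omega) tendsto_id
  filter_upwards [ht.eventually h, eventually_ge_atTop 1] with k hk hk1
  obtain ⟨m, h1, h2, h3, h4⟩ := hk
  obtain ⟨j, hj⟩ : ∃ j, m = 2 * j + q := ⟨m / 2, by omega⟩
  subst hj
  refine ⟨j, by omega, ?_, h4⟩
  have hE4 : E (2 * k + q) ≤ 4 * E k := by
    have a1 : E (2 * k + q) ≤ E (2 * (2 * k)) := hE.mono (by omega)
    have a2 := hE.two (2 * k) (by omega)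
    have a3 := hE.two k hk1
    linarith
  have hE0 : 0 ≤ E (2 * k + q) := zero_le_one.trans (hE.one_le _ (by omega))
  have h5 : √(((2 * k + q : ℕ) : ℝ) * E (2 * k + q)) ≤ 4 * √(k * E k) := by
    have e16 : √(16 * ((k : ℝ) * E k)) = 4 * √(k * E k) := by
      rw [Real.sqrt_mul (show (0 : ℝ) ≤ 16 by norm_num)]
      congr 1
      rw [show (16 : ℝ) = 4 ^ 2 by norm_num]
      exact Real.sqrt_sq (by norm_num)
    rw [← e16]
    refine Real.sqrt_le_sqrt ?_
    have h6 : ((2 * k + q : ℕ) : ℝ) ≤ 4 * k := by exact_mod_cast (show 2 * k + q ≤ 4 * k by omega)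
    calc ((2 * k + q : ℕ) : ℝ) * E (2 * k + q) ≤ (4 * k) * (4 * E k) := by gcongr
      _ = _ := by ring
  have h6 := mul_le_mul_of_nonneg_left h5 hδ.le
  push_cast at h2 h6 ⊢
  linarith

lemma E_cls (hq : q ≤ 1) (hE : Sc E) {k : ℕ} (hk : 1 ≤ k) : E (2 * k + q) ≤ 4 * E k := by
  have a1 : E (2 * k + q) ≤ E (2 * (2 * k)) := hE.mono (by omega)
  have a2 := hE.two (2 * k) (by omega)
  have a3 := hE.two k hk
  linarith

/-- from an index to the lengths of a parity class -/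
lemma to_cls {P : ℕ → Prop} (h : ∀ᶠ k : ℕ in atTop, P (2 * k + q)) :
    ∀ᶠ n : ℕ in atTop, n % 2 = q → P n := by
  obtain ⟨N, hN⟩ := eventually_atTop.1 h
  filter_upwards [eventually_ge_atTop (2 * N + q)] with n hn hnq
  have := hN (n / 2) (by omega)
  rwa [show 2 * (n / 2) + q = n by omega] at this

/-- **upper bounds in a parity class**, quantitative form -/
theorem cls_upper1 (hl : Nc (fun k => l (2 * k + q)) D) (hq : q ≤ 1) (hE : Sc E) (a b : ℝ)
    {δ τ η : ℝ} (hδ : 0 < δ) (hτ : 0 < τ) (hη : 0 < η)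
    (hup : ∀ᶠ n : ℕ in atTop, ∃ m : ℕ, n ≤ m ∧ (m : ℝ) ≤ n + δ * √(n * E n) ∧ m % 2 = q ∧
      l m ≤ a * Real.log m + b + τ * E m) :
    ∀ᶠ n : ℕ in atTop, n % 2 = q →
      l n ≤ a * Real.log n + b + (10 * τ + 12 * D * δ ^ 2 + η) * E n := by
  have hw := win hq hE hδ (P := fun m => l m ≤ a * Real.log m + b + τ * E m) hup
  obtain ⟨N1, hN1⟩ := eventually_atTop.1 (log_two_k (q := q) a hq hτ)
  have h1 := hl.upper1 hE a (b + a * Real.log 2) (δ := 2 * δ) (τ := 5 * τ) (η := η / 2)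
    (by positivity) (by positivity) (by positivity) (by
      filter_upwards [hw, eventually_ge_atTop (N1 + 1)] with k hk hk1
      obtain ⟨j, g1, g2, g3⟩ := hk
      refine ⟨j, g1, g2, ?_⟩
      have g4 := (abs_le.1 (hN1 j (by omega))).2
      have g5 := E_cls (q := q) hq hE (show 1 ≤ j by omega)
      have g6 : τ * E (2 * j + q) ≤ τ * (4 * E j) := by gcongr
      have g7 := hE.one_le j (by omega)
      have g8 : τ ≤ τ * E j := by nlinarith
      linarith)
  refine to_cls (P := fun n => l n ≤ a * Real.log n + b + (10 * τ + 12 * D * δ ^ 2 + η) * E n) ?_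
  filter_upwards [h1, log_two_k (q := q) a hq (show 0 < η / 2 by positivity),
    eventually_ge_atTop 1] with k hk hk2 hk1
  have g1 := (abs_le.1 hk2).1
  have g2 := hE.one_le k hk1
  have g3 : E k ≤ E (2 * k + q) := hE.mono (by omega)
  have hD := hl.1
  have e : (2 * (5 * τ) + 3 * D * (2 * δ) ^ 2 + η / 2) * E k =
    (10 * τ + 12 * D * δ ^ 2 + η / 2) * E k := by ring
  rw [e] at hk
  have g4 : (10 * τ + 12 * D * δ ^ 2 + η / 2) * E k ≤
    (10 * τ + 12 * D * δ ^ 2 + η / 2) * E (2 * k + q) := by gcongr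
  have g5 : η / 2 ≤ η / 2 * E (2 * k + q) := by
    have : 1 ≤ E (2 * k + q) := g2.trans g3
    nlinarith
  have e2 : (10 * τ + 12 * D * δ ^ 2 + η) * E (2 * k + q) =
    (10 * τ + 12 * D * δ ^ 2 + η / 2) * E (2 * k + q) + η / 2 * E (2 * k + q) := by ring
  rw [e2]
  linarith

/-- **upper bounds in a parity class** -/
theorem cls_upper (hl : Nc (fun k => l (2 * k + q)) D) (hq : q ≤ 1) (hE : Sc E) (a b : ℝ)
    (hup : ∀ δ : ℝ, 0 < δ → ∀ τ : ℝ, 0 < τ → ∀ᶠ n : ℕ in atTop, ∃ m : ℕ, n ≤ m ∧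
      (m : ℝ) ≤ n + δ * √(n * E n) ∧ m % 2 = q ∧ l m ≤ a * Real.log m + b + τ * E m)
    {ε : ℝ} (hε : 0 < ε) :
    ∀ᶠ n : ℕ in atTop, n % 2 = q → l n ≤ a * Real.log n + b + ε * E n := by
  have hD := hl.1
  obtain ⟨δ, hδ⟩ : ∃ δ : ℝ, δ = √(ε / (36 * (D + 1))) := ⟨_, rfl⟩
  have hδ0 : 0 < δ := by rw [hδ]; exact Real.sqrt_pos.2 (by positivity)
  have hδ2 : δ ^ 2 = ε / (36 * (D + 1)) := by rw [hδ, Real.sq_sqrt (by positivity)]
  filter_upwards [cls_upper1 hl hq hE a b hδ0 (show 0 < ε / 30 by positivity)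
    (show 0 < ε / 3 by positivity) (hup δ hδ0 _ (by positivity)), eventually_ge_atTop 1]
    with n hn hn1 hnq
  refine (hn hnq).trans ?_
  have hE1 := hE.one_le n hn1
  have h1 : 12 * D * δ ^ 2 ≤ ε / 3 := by
    rw [hδ2, mul_div_assoc', div_le_div_iff₀ (by positivity) (by norm_num)]
    nlinarith
  have h2 : 10 * (ε / 30) + 12 * D * δ ^ 2 + ε / 3 ≤ ε := by linarith
  have h3 := mul_le_mul_of_nonneg_right h2 (show 0 ≤ E n by linarith)
  linarith

/-- **lower bounds in a parity class** -/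
theorem cls_lower (hl : Nc (fun k => l (2 * k + q)) D) (hq : q ≤ 1) (hE : Sc E) (a b : ℝ)
    (hup : ∀ τ : ℝ, 0 < τ → ∀ᶠ n : ℕ in atTop, n % 2 = q → l n ≤ a * Real.log n + b + τ * E n)
    (hlo : ∀ δ : ℝ, 0 < δ → ∀ τ : ℝ, 0 < τ → ∀ᶠ n : ℕ in atTop, ∃ m : ℕ, n ≤ m ∧
      (m : ℝ) ≤ n + δ * √(n * E n) ∧ m % 2 = q ∧ a * Real.log m + b - τ * E m ≤ l m)
    {ε : ℝ} (hε : 0 < ε) :
    ∀ᶠ n : ℕ in atTop, n % 2 = q → a * Real.log n + b - ε * E n ≤ l n := by
  have ht : Tendsto (fun k : ℕ => 2 * k + q) atTop atTop :=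
    tendsto_atTop_mono (fun k => by simp only [id]; omega) tendsto_id
  have h1 := hl.lower hE a (b + a * Real.log 2) (fun τ hτ => by
      filter_upwards [ht.eventually (hup (τ / 8) (by positivity)),
        log_two_k (q := q) a hq (show 0 < τ / 8 by positivity), eventually_ge_atTop 1]
        with k g1 g2 hk1
      have g3 := g1 (by omega)
      have g4 := (abs_le.1 g2).2
      have g5 := E_cls (q := q) hq hE hk1
      have g6 : τ / 8 * E (2 * k + q) ≤ τ / 8 * (4 * E k) := by gcongr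
      have g7 := hE.one_le k hk1
      have g8 : τ / 8 ≤ τ / 8 * E k := by
        have : 0 < τ / 8 := by positivity
        nlinarith
      have g9 : 0 < τ * E k := by positivity
      linarith) (fun δ hδ τ hτ => by
      have hw := win hq hE (δ := δ / 2) (by positivity)
        (P := fun m => a * Real.log m + b - τ / 8 * E m ≤ l m)
        (hlo (δ / 2) (by positivity) (τ / 8) (by positivity))
      obtain ⟨N1, hN1⟩ := eventually_atTop.1 (log_two_k (q := q) a hq (show 0 < τ / 8 by positivity))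
      filter_upwards [hw, eventually_ge_atTop (N1 + 1)] with k hk hk1
      obtain ⟨j, g1, g2, g3⟩ := hk
      refine ⟨j, g1, ?_, ?_⟩
      · rw [show 2 * (δ / 2) = δ by ring] at g2
        exact g2
      have g4 := (abs_le.1 (hN1 j (by omega))).1
      have g5 := E_cls (q := q) hq hE (show 1 ≤ j by omega)
      have g6 : τ / 8 * E (2 * j + q) ≤ τ / 8 * (4 * E j) := by gcongr
      have g7 := hE.one_le j (by omega)
      have g8 : τ / 8 ≤ τ / 8 * E j := by
        have : 0 < τ / 8 := by positivity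
        nlinarith
      have g9 : 0 < τ * E j := by positivity
      linarith) (ε / 2) (by positivity)
  refine to_cls (P := fun n => a * Real.log n + b - ε * E n ≤ l n) ?_
  filter_upwards [h1, log_two_k (q := q) a hq (show 0 < ε / 2 by positivity),
    eventually_ge_atTop 1] with k hk hk2 hk1
  have g1 := (abs_le.1 hk2).2
  have g2 := hE.one_le k hk1
  have g3 : E k ≤ E (2 * k + q) := hE.mono (by omega)
  have g4 : ε / 2 * E k ≤ ε / 2 * E (2 * k + q) := by gcongr
  have g5 : ε / 2 ≤ ε / 2 * E (2 * k + q) := by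
    have : 1 ≤ E (2 * k + q) := g2.trans g3
    have : 0 < ε / 2 := by positivity
    nlinarith
  have e2 : ε * E (2 * k + q) = ε / 2 * E (2 * k + q) + ε / 2 * E (2 * k + q) := by ring
  rw [e2]
  linarith

end Pool.Agent.K3h54.PS
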