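import Pool.Agent.R956.K2

/-!
# Nearly convex sequences: upper and lower bounds at single points of short windows

If `l` is nearly convex, `2 l (k+1) ≤ l k + l (k+2) + D / k`, and every window `[n, n + δ √(n E n)]`
contains a point where `l ≤ ψ + o(E)` and a point where `l ≥ ψ - o(E)`, then `l = ψ + o(E)`.
-/

set_option autoImplicit false
set_option linter.unusedVariables false

namespace Pool.Agent.K3h54.PS

open Filter Topology
open Pool.Agent.R956.K1

/-- the three point inequality of nearly convex sequences -/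
lemma three {l : ℕ → ℝ} {q : ℝ} {N M : ℕ}
    (hl : ∀ k, N ≤ k → k + 2 ≤ M → 2 * l (k + 1) ≤ l k + l (k + 2) + q)
    {p m r : ℕ} (hp : N ≤ p) (hpm : p ≤ m) (hmr : m ≤ r) (hr : r + 1 ≤ M) :
    ((r : ℝ) - p) * l m ≤ ((r : ℝ) - m) * l p + ((m : ℝ) - p) * l r +
      q / 2 * (((r : ℝ) - p) * ((m - p) * (r - m))) := by
  obtain ⟨g, hg⟩ : ∃ g : ℕ → ℝ, g = fun k => l k + q / 2 * (k : ℝ) ^ 2 := ⟨_, rfl⟩
  have hcv : ∀ k, N ≤ k → k + 2 ≤ M → g (k + 1) - g k ≤ g (k + 2) - g (k + 1) := by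
    intro k h1 h2
    have := hl k h1 h2
    rw [hg]
    push_cast
    nlinarith
  -- increments are monotone
  have hinc : ∀ i j : ℕ, N ≤ i → i + j + 1 ≤ M → g (i + 1) - g i ≤ g (i + j + 1) - g (i + j) := by
    intro i j h1
    induction j with
    | zero => intro _; simp
    | succ j ih =>
      intro h2
      have h3 := ih (by omega)
      have h4 := hcv (i + j) (by omega) (by omega)
      rw [show i + (j + 1) + 1 = i + j + 2 by ring, show i + (j + 1) = i + j + 1 by ring]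
      linarith
  have hlow : ∀ j : ℕ, p + j ≤ m → g (p + j) - g p ≤ j * (g (m + 1) - g m) := by
    intro j
    induction j with
    | zero => intro _; simp
    | succ j ih =>
      intro h2
      have h3 := ih (by omega)
      have h4 := hinc (p + j) (m - (p + j)) (by omega) (by omega)
      rw [show p + j + (m - (p + j)) = m by omega] at h4
      rw [show p + (j + 1) = p + j + 1 by ring]
      push_cast
      linarith
  have hupp : ∀ j : ℕ, m + j ≤ r → j * (g (m + 1) - g m) ≤ g (m + j) - g m := by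
    intro j
    induction j with
    | zero => intro _; simp
    | succ j ih =>
      intro h2
      have h3 := ih (by omega)
      have h4 := hinc m j (by omega) (by omega)
      rw [show m + (j + 1) = m + j + 1 by ring]
      push_cast
      linarith
  have h1 := hlow (m - p) (by omega)
  have h2 := hupp (r - m) (by omega)
  rw [show p + (m - p) = m by omega, Nat.cast_sub hpm] at h1
  rw [show m + (r - m) = r by omega, Nat.cast_sub hmr] at h2
  have c1 : (p : ℝ) ≤ m := by exact_mod_cast hpm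
  have c2 : (m : ℝ) ≤ r := by exact_mod_cast hmr
  have h3 := mul_le_mul_of_nonneg_left h1 (sub_nonneg.2 c2)
  have h4 := mul_le_mul_of_nonneg_left h2 (sub_nonneg.2 c1)
  have h5 : ((r : ℝ) - m) * (g m - g p) ≤ (m - p) * (g r - g m) := by
    have e : ((r : ℝ) - m) * ((m - p) * (g (m + 1) - g m)) =
      (m - p) * ((r - m) * (g (m + 1) - g m)) := by ring
    linarith
  rw [hg] at h5
  simp only at h5
  nlinarith [h5]

/-- nearly convex sequences -/
def Nc (l : ℕ → ℝ) (D : ℝ) : Prop :=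
  0 ≤ D ∧ ∀ᶠ k : ℕ in atTop, 2 * l (k + 1) ≤ l k + l (k + 2) + D / k

variable {l : ℕ → ℝ} {D : ℝ} {E : ℕ → ℝ}

/-- three points above `n / 2` -/
lemma Nc.three (h : Nc l D) : ∃ N0 : ℕ, ∀ n : ℕ, N0 ≤ n → ∀ p m r : ℕ, n ≤ 2 * p → p ≤ m → m ≤ r →
    ((r : ℝ) - p) * l m ≤ ((r : ℝ) - m) * l p + ((m : ℝ) - p) * l r +
      D / n * (((r : ℝ) - p) * ((m - p) * (r - m))) := by
  obtain ⟨hD, h⟩ := h
  obtain ⟨N1, hN1⟩ := eventually_atTop.1 h
  refine ⟨2 * N1 + 2, fun n hn p m r h1 h2 h3 => ?_⟩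
  have hn0 : (0 : ℝ) < n := by exact_mod_cast (show 0 < n by omega)
  have h4 := Pool.Agent.K3h54.PS.three (l := l) (q := 2 * D / n) (N := p) (M := r + 1) (p := p)
    (m := m) (r := r) (fun k hk hk2 => by
      have h5 := hN1 k (by omega)
      have h6 : D / (k : ℝ) ≤ 2 * D / n := by
        have hk0 : (0 : ℝ) < k := by exact_mod_cast (show 0 < k by omega)
        rw [div_le_div_iff₀ hk0 hn0]
        have : (n : ℝ) ≤ 2 * k := by exact_mod_cast (show n ≤ 2 * k by omega)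
        nlinarith
      linarith) le_rfl h2 h3 le_rfl
  rw [show 2 * D / (n : ℝ) / 2 = D / n by ring] at h4
  exact h4

/-- **upper bounds**, quantitative form -/
theorem Nc.upper1 (hl : Nc l D) (hE : Sc E) (a b : ℝ) {δ τ η : ℝ} (hδ0 : 0 < δ) (hτ : 0 < τ)
    (hη : 0 < η)
    (hup : ∀ᶠ n : ℕ in atTop, ∃ k : ℕ, n ≤ k ∧
      (k : ℝ) ≤ n + δ * √(n * E n) ∧ l k ≤ a * Real.log k + b + τ * E k) :
    ∀ᶠ n : ℕ in atTop, l n ≤ a * Real.log n + b + (2 * τ + 3 * D * δ ^ 2 + η) * E n := by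
  have hD := hl.1
  obtain ⟨N0, hN0⟩ := hl.three
  obtain ⟨N1, hN1⟩ := eventually_atTop.1 hup
  have ev : ∀ᶠ n : ℕ in atTop, E n / n < (min (1 / (12 * δ + 1)) (η / (24 * (|a| + 1) * (δ + 1)))) ^ 2 :=
    hE.small.eventually_lt_const (by positivity)
  have ev2 : ∀ᶠ n : ℕ in atTop, 1 / δ ^ 2 + 1 ≤ (n : ℝ) :=
    tendsto_natCast_atTop_atTop.eventually_ge_atTop _
  filter_upwards [ev, ev2, eventually_ge_atTop (N0 + 2 * N1 + 2)] with n g1 g2 hn
  have hn0 : (0 : ℝ) < n := by exact_mod_cast (show 0 < n by omega)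
  have hE1 := hE.one_le n (by omega)
  have hE0 : 0 < E n := by linarith
  obtain ⟨m0, hm0⟩ : ∃ m0 : ℝ, m0 = min (1 / (12 * δ + 1)) (η / (24 * (|a| + 1) * (δ + 1))) := ⟨_, rfl⟩
  have hm00 : 0 < m0 := by rw [hm0]; positivity
  rw [← hm0] at g1
  have hma : m0 ≤ 1 / (12 * δ + 1) := by rw [hm0]; exact min_le_left _ _
  have hmb : m0 ≤ η / (24 * (|a| + 1) * (δ + 1)) := by rw [hm0]; exact min_le_right _ _
  obtain ⟨h, hh⟩ : ∃ h : ℝ, h = δ * √(n * E n) := ⟨_, rfl⟩
  have hh2 : h ^ 2 = δ ^ 2 * (n * E n) := by rw [hh, mul_pow, Real.sq_sqrt (by positivity)]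
  have hh0 : 0 < h := by rw [hh]; positivity
  have hh1 : 1 ≤ h := by
    have h3 : 1 / δ ^ 2 ≤ n := by linarith
    rw [div_le_iff₀ (by positivity)] at h3
    have h4 : (n : ℝ) ≤ n * E n := by nlinarith
    have h5 : 1 ≤ h ^ 2 := by
      rw [hh2]
      nlinarith [mul_le_mul_of_nonneg_left h4 (sq_nonneg δ)]
    nlinarith
  have hhm : h ≤ δ * m0 * n := by
    have h1 : h ^ 2 ≤ (δ * m0 * n) ^ 2 := by
      have e : h ^ 2 = δ ^ 2 * (E n / n) * (n : ℝ) ^ 2 := by rw [hh2]; field_simp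
      rw [e, mul_pow, mul_pow]
      gcongr
    exact le_of_sq_le_sq h1 (by positivity)
  have h12 : 12 * h ≤ n := by
    have h1 : δ * m0 ≤ δ * (1 / (12 * δ + 1)) := by gcongr
    have h2 : 12 * (δ * (1 / (12 * δ + 1))) ≤ 1 := by
      rw [mul_one_div, mul_div_assoc', div_le_one (by positivity)]
      linarith
    have h3 : 12 * (δ * m0) * n ≤ 1 * n := by
      have : 12 * (δ * m0) ≤ 1 := by linarith
      gcongr
    nlinarith
  have hah : |a| * h / n ≤ η / 24 * E n := by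
    rw [div_le_iff₀ hn0]
    have h1 : |a| * (δ * m0) ≤ |a| * (δ * (η / (24 * (|a| + 1) * (δ + 1)))) := by gcongr
    have h2 : |a| * (δ * (η / (24 * (|a| + 1) * (δ + 1)))) ≤ η / 24 := by
      have e : |a| * (δ * (η / (24 * (|a| + 1) * (δ + 1)))) =
        η / 24 * ((|a| / (|a| + 1)) * (δ / (δ + 1))) := by field_simp
      rw [e]
      have a1 : |a| / (|a| + 1) ≤ 1 := by rw [div_le_one (by positivity)]; linarith
      have a2 : δ / (δ + 1) ≤ 1 := by rw [div_le_one (by positivity)]; linarith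
      have a3 : (|a| / (|a| + 1)) * (δ / (δ + 1)) ≤ 1 := mul_le_one₀ a1 (by positivity) a2
      have : 0 < η / 24 := by positivity
      nlinarith
    calc |a| * h ≤ |a| * (δ * m0 * n) := by gcongr
      _ = |a| * (δ * m0) * n := by ring
      _ ≤ η / 24 * n := by
        have := h1.trans h2
        gcongr
      _ ≤ η / 24 * E n * n := by
        have : 0 < η / 24 * n := by positivity
        nlinarith
  -- the point on the left
  obtain ⟨n1, hn1⟩ : ∃ n1 : ℕ, n1 = n - ⌈2 * h⌉₊ := ⟨_, rfl⟩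
  have hc1 := Nat.le_ceil (2 * h)
  have hc2 := (Nat.ceil_lt_add_one (show 0 ≤ 2 * h by positivity)).le
  have hcn : ⌈2 * h⌉₊ ≤ n := by
    have : ((⌈2 * h⌉₊ : ℕ) : ℝ) ≤ n := by linarith
    exact_mod_cast this
  have hn1r : (n1 : ℝ) = n - (⌈2 * h⌉₊ : ℕ) := by rw [hn1, Nat.cast_sub hcn]
  have hn1a : (n : ℝ) - 3 * h ≤ n1 := by rw [hn1r]; linarith
  have hn1b : (n1 : ℝ) + 2 * h ≤ n := by rw [hn1r]; linarith
  have hn1c : n ≤ 2 * n1 := by
    have : (n : ℝ) ≤ 2 * n1 := by linarith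
    exact_mod_cast this
  have hn1d : n1 ≤ n := by omega
  obtain ⟨p, hp1, hp2, hp3⟩ := hN1 n1 (by omega)
  obtain ⟨r, hr1, hr2, hr3⟩ := hN1 n (by omega)
  rw [← hh] at hr2
  have hsq : δ * √(n1 * E n1) ≤ h := by
    rw [hh]
    have h1 : E n1 ≤ E n := hE.mono hn1d
    have h2 : (n1 : ℝ) ≤ n := by exact_mod_cast hn1d
    have h3 : 0 ≤ E n1 := zero_le_one.trans (hE.one_le n1 (by omega))
    gcongr
  have hpn' : (p : ℝ) ≤ n := by linarith
  have hpn : p ≤ n := by exact_mod_cast hpn'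
  have hnr' : (n : ℝ) ≤ r := by exact_mod_cast hr1
  have hpa : (n : ℝ) - 3 * h ≤ p := by
    have : (n1 : ℝ) ≤ p := by exact_mod_cast hp1
    linarith
  have hr2n : r ≤ 2 * n := by
    have : (r : ℝ) ≤ 2 * n := by linarith
    exact_mod_cast this
  have hEp : E p ≤ E n := hE.mono hpn
  have hEr : E r ≤ 2 * E n := (hE.mono hr2n).trans (hE.two n (by omega))
  have hp0 : (0 : ℝ) < p := by linarith
  have hψp : a * Real.log p + b ≤ a * Real.log n + b + η / 4 * E n := by
    have h1 := psi_diff a b (show 1 ≤ p by omega) hpn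
    have h2 : |a| * ((n : ℝ) - p) / p ≤ 6 * (|a| * h / n) := by
      rw [div_le_iff₀ hp0]
      have h3 : (n : ℝ) ≤ 2 * p := by linarith
      have h4 : |a| * ((n : ℝ) - p) ≤ |a| * (3 * h) := by
        apply mul_le_mul_of_nonneg_left _ (abs_nonneg a)
        linarith
      have h5 : |a| * (3 * h) ≤ 6 * (|a| * h / n) * p := by
        have e : 6 * (|a| * h / n) * p = |a| * (3 * h) * (2 * p / n) := by field_simp; ring
        rw [e]
        have h6 : 1 ≤ 2 * (p : ℝ) / n := by rw [le_div_iff₀ hn0]; linarith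
        have h7 : 0 ≤ |a| * (3 * h) := by positivity
        nlinarith
      linarith
    have h3 := (abs_le.1 h1).1
    linarith
  have hψr : a * Real.log r + b ≤ a * Real.log n + b + η / 24 * E n := by
    have h1 := psi_diff a b (show 1 ≤ n by omega) hr1
    have h2 : |a| * ((r : ℝ) - n) / n ≤ |a| * h / n := by
      apply div_le_div_of_nonneg_right _ hn0.le
      apply mul_le_mul_of_nonneg_left _ (abs_nonneg a)
      linarith
    have h3 := (abs_le.1 h1).2
    linarith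
  obtain ⟨T, hT⟩ : ∃ T : ℝ, T = a * Real.log n + b + (2 * τ + η / 2) * E n := ⟨_, rfl⟩
  have hηE : 0 < η * E n := by positivity
  have hτE : 0 < τ * E n := by positivity
  have hlp : l p ≤ T := by
    have : τ * E p ≤ τ * E n := by gcongr
    rw [hT]
    linarith
  have hlr : l r ≤ T := by
    have : τ * E r ≤ τ * (2 * E n) := by gcongr
    rw [hT]
    linarith
  have hDδ : 0 ≤ 3 * D * δ ^ 2 * E n := by positivity
  rcases Nat.eq_or_lt_of_le hpn with hpe | hplt
  · have h1 : l n ≤ T := by rw [← hpe]; exact hlp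
    rw [hT] at h1
    linarith
  have hplt' : (p : ℝ) < n := by exact_mod_cast hplt
  have h3 := hN0 n (by omega) p n r (by omega) hpn hr1
  have h4 : ((r : ℝ) - p) * l n ≤ ((r : ℝ) - p) * (T + 3 * D * δ ^ 2 * E n) := by
    have e1 : ((r : ℝ) - n) * l p ≤ (r - n) * T := by
      apply mul_le_mul_of_nonneg_left hlp
      linarith
    have e2 : ((n : ℝ) - p) * l r ≤ (n - p) * T := by
      apply mul_le_mul_of_nonneg_left hlr
      linarith
    have e3 : D / n * (((r : ℝ) - p) * ((n - p) * (r - n))) ≤ (r - p) * (3 * D * δ ^ 2 * E n) := by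
      have e4 : D / n * (((n : ℝ) - p) * (r - n)) ≤ 3 * D * δ ^ 2 * E n := by
        have e5 : ((n : ℝ) - p) * (r - n) ≤ 3 * h * h := by
          apply mul_le_mul _ _ (by linarith) (by positivity)
          · linarith
          · linarith
        calc D / n * (((n : ℝ) - p) * (r - n)) ≤ D / n * (3 * h * h) := by gcongr
          _ = 3 * (D / n) * h ^ 2 := by ring
          _ = 3 * D * δ ^ 2 * E n := by rw [hh2]; field_simp
      have e6 : 0 ≤ (r : ℝ) - p := by linarith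
      calc D / n * (((r : ℝ) - p) * ((n - p) * (r - n))) =
          (r - p) * (D / n * ((n - p) * (r - n))) := by ring
        _ ≤ _ := by gcongr
    linarith
  have h5 := le_of_mul_le_mul_left h4 (by linarith)
  rw [hT] at h5
  linarith

/-- **upper bounds** -/
theorem Nc.upper (hl : Nc l D) (hE : Sc E) (a b : ℝ)
    (hup : ∀ δ : ℝ, 0 < δ → ∀ τ : ℝ, 0 < τ → ∀ᶠ n : ℕ in atTop, ∃ k : ℕ, n ≤ k ∧
      (k : ℝ) ≤ n + δ * √(n * E n) ∧ l k ≤ a * Real.log k + b + τ * E k) :
    ∀ ε : ℝ, 0 < ε → ∀ᶠ n : ℕ in atTop, l n ≤ a * Real.log n + b + ε * E n := by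
  intro ε hε
  have hD := hl.1
  obtain ⟨δ, hδ⟩ : ∃ δ : ℝ, δ = √(ε / (12 * (D + 1))) := ⟨_, rfl⟩
  have hδ0 : 0 < δ := by rw [hδ]; exact Real.sqrt_pos.2 (by positivity)
  have hδ2 : δ ^ 2 = ε / (12 * (D + 1)) := by rw [hδ, Real.sq_sqrt (by positivity)]
  filter_upwards [hl.upper1 hE a b hδ0 (show 0 < ε / 8 by positivity) (show 0 < ε / 4 by positivity)
    (hup δ hδ0 _ (by positivity)), eventually_ge_atTop 1] with n hn hn1
  refine hn.trans ?_
  have hE1 := hE.one_le n hn1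
  have h1 : 3 * D * δ ^ 2 ≤ ε / 4 := by
    rw [hδ2, mul_div_assoc', div_le_div_iff₀ (by positivity) (by norm_num)]
    nlinarith
  have h2 : 2 * (ε / 8) + 3 * D * δ ^ 2 + ε / 4 ≤ ε := by linarith
  have h3 := mul_le_mul_of_nonneg_right h2 (show 0 ≤ E n by linarith)
  linarith

/-- **lower bounds** -/
theorem Nc.lower (hl : Nc l D) (hE : Sc E) (a b : ℝ)
    (hup : ∀ τ : ℝ, 0 < τ → ∀ᶠ n : ℕ in atTop, l n ≤ a * Real.log n + b + τ * E n)
    (hlo : ∀ δ : ℝ, 0 < δ → ∀ τ : ℝ, 0 < τ → ∀ᶠ n : ℕ in atTop, ∃ k : ℕ, n ≤ k ∧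
      (k : ℝ) ≤ n + δ * √(n * E n) ∧ a * Real.log k + b - τ * E k ≤ l k) :
    ∀ ε : ℝ, 0 < ε → ∀ᶠ n : ℕ in atTop, a * Real.log n + b - ε * E n ≤ l n := by
  intro ε hε
  have hD := hl.1
  obtain ⟨δ, hδ⟩ : ∃ δ : ℝ, δ = min (1 / 4) (ε / (4 * (D + 3))) := ⟨_, rfl⟩
  have hδ0 : 0 < δ := by rw [hδ]; positivity
  have hδ1 : δ ≤ 1 / 4 := by rw [hδ]; exact min_le_left _ _
  have hδ2 : (D + 3) * δ ≤ ε / 4 := by
    have h1 : δ ≤ ε / (4 * (D + 3)) := by rw [hδ]; exact min_le_right _ _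
    have h2 : (D + 3) * δ ≤ (D + 3) * (ε / (4 * (D + 3))) := by gcongr
    have h3 : (D + 3) * (ε / (4 * (D + 3))) = ε / 4 := by field_simp
    linarith
  obtain ⟨N0, hN0⟩ := hl.three
  obtain ⟨N1, hN1⟩ := eventually_atTop.1 (hlo δ hδ0 (ε / 16) (by positivity))
  obtain ⟨N2, hN2⟩ := eventually_atTop.1 (hup 1 one_pos)
  have ev : ∀ᶠ n : ℕ in atTop, E n / n < (min (1 / 4) (min 1 (ε / 8) / (2 * (|a| + 1)))) ^ 2 :=
    hE.small.eventually_lt_const (by positivity)
  filter_upwards [ev, eventually_ge_atTop (N0 + N1 + N2 + 2)] with n g1 hn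
  have hn0 : (0 : ℝ) < n := by exact_mod_cast (show 0 < n by omega)
  have hE1 := hE.one_le n (by omega)
  have hE0 : 0 < E n := by linarith
  obtain ⟨m0, hm0⟩ : ∃ m0 : ℝ, m0 = min (1 / 4) (min 1 (ε / 8) / (2 * (|a| + 1))) := ⟨_, rfl⟩
  have hm00 : 0 < m0 := by rw [hm0]; positivity
  rw [← hm0] at g1
  have hma : m0 ≤ 1 / 4 := by rw [hm0]; exact min_le_left _ _
  have hmb : m0 ≤ min 1 (ε / 8) / (2 * (|a| + 1)) := by rw [hm0]; exact min_le_right _ _
  obtain ⟨s, hs⟩ : ∃ s : ℝ, s = √(n * E n) := ⟨_, rfl⟩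
  have hs2 : s ^ 2 = n * E n := by rw [hs, Real.sq_sqrt (by positivity)]
  have hs0 : 0 < s := by rw [hs]; positivity
  have hs1 : 1 ≤ s := by
    have h4 : (1 : ℝ) ≤ n := by exact_mod_cast (show 1 ≤ n by omega)
    have h5 : 1 ≤ s ^ 2 := by
      rw [hs2]
      nlinarith
    nlinarith
  have hsm : s ≤ m0 * n := by
    have h1 : s ^ 2 ≤ (m0 * n) ^ 2 := by
      have e : s ^ 2 = (E n / n) * (n : ℝ) ^ 2 := by rw [hs2]; field_simp
      rw [e, mul_pow]
      gcongr
    exact le_of_sq_le_sq h1 (by positivity)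
  have h4s : 4 * s ≤ n := by nlinarith
  have has : |a| * (2 * s) / n ≤ min 1 (ε / 8) := by
    rw [div_le_iff₀ hn0]
    have h2 : |a| * (2 * m0) ≤ min 1 (ε / 8) := by
      have h3 : |a| * (2 * m0) ≤ |a| * (2 * (min 1 (ε / 8) / (2 * (|a| + 1)))) := by gcongr
      have e : |a| * (2 * (min 1 (ε / 8) / (2 * (|a| + 1)))) =
        min 1 (ε / 8) * (|a| / (|a| + 1)) := by field_simp
      rw [e] at h3
      have a1 : |a| / (|a| + 1) ≤ 1 := by rw [div_le_one (by positivity)]; linarith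
      have : (0 : ℝ) < min 1 (ε / 8) := by positivity
      nlinarith
    calc |a| * (2 * s) ≤ |a| * (2 * (m0 * n)) := by gcongr
      _ = |a| * (2 * m0) * n := by ring
      _ ≤ _ := by gcongr
  by_contra hcon
  push Not at hcon
  obtain ⟨m, hm1, hm2, hm3⟩ := hN1 n (by omega)
  rw [← hs] at hm2
  obtain ⟨r, hr⟩ : ∃ r : ℕ, r = n + ⌈s⌉₊ := ⟨_, rfl⟩
  have hra : (n : ℝ) + s ≤ r := by
    rw [hr]
    push_cast
    have := Nat.le_ceil s
    linarith
  have hrb : (r : ℝ) ≤ n + 2 * s := by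
    rw [hr]
    push_cast
    have := (Nat.ceil_lt_add_one hs0.le).le
    linarith
  have hmn : (n : ℝ) ≤ m := by exact_mod_cast hm1
  have hmr' : (m : ℝ) ≤ r := by nlinarith
  have hmr : m ≤ r := by exact_mod_cast hmr'
  have hr2n : r ≤ 2 * n := by
    have : (r : ℝ) ≤ 2 * n := by linarith
    exact_mod_cast this
  have hEr : E r ≤ 2 * E n := (hE.mono hr2n).trans (hE.two n (by omega))
  have hEm : E m ≤ 2 * E n := (hE.mono (hmr.trans hr2n)).trans (hE.two n (by omega))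
  have hlr : l r ≤ a * Real.log n + b + 3 * E n := by
    have h1 := hN2 r (by omega)
    have h2 := (abs_le.1 (psi_diff a b (show 1 ≤ n by omega) (show n ≤ r by omega))).2
    have h3 : |a| * ((r : ℝ) - n) / n ≤ |a| * (2 * s) / n := by
      apply div_le_div_of_nonneg_right _ hn0.le
      apply mul_le_mul_of_nonneg_left _ (abs_nonneg a)
      linarith
    have h4 := has.trans (min_le_left _ _)
    linarith
  have hlm : a * Real.log n + b - ε / 4 * E n ≤ l m := by
    have h2 := (abs_le.1 (psi_diff a b (show 1 ≤ n by omega) hm1)).1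
    have h3 : |a| * ((m : ℝ) - n) / n ≤ |a| * (2 * s) / n := by
      apply div_le_div_of_nonneg_right _ hn0.le
      apply mul_le_mul_of_nonneg_left _ (abs_nonneg a)
      nlinarith
    have h4 := has.trans (min_le_right _ _)
    have h5 : ε / 16 * E m ≤ ε / 16 * (2 * E n) := by gcongr
    have h6 : ε / 8 ≤ ε / 8 * E n := by
      have : 0 < ε / 8 := by positivity
      nlinarith
    linarith
  have h3 := hN0 n (by omega) n m r (by omega) hm1 hmr
  -- contradiction
  obtain ⟨T, hT⟩ : ∃ T : ℝ, T = a * Real.log n + b := ⟨_, rfl⟩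
  rw [← hT] at hlr hlm hcon
  have k1 : ((r : ℝ) - m) * l n ≤ (r - m) * (T - ε * E n) := by
    apply mul_le_mul_of_nonneg_left hcon.le
    linarith
  have k2 : ((m : ℝ) - n) * l r ≤ (m - n) * (T + 3 * E n) := by
    apply mul_le_mul_of_nonneg_left hlr
    linarith
  have k3 : D / n * (((r : ℝ) - n) * ((m - n) * (r - m))) ≤ (r - n) * (2 * (D * δ) * E n) := by
    have e4 : D / n * (((m : ℝ) - n) * (r - m)) ≤ 2 * (D * δ) * E n := by
      have e5 : ((m : ℝ) - n) * (r - m) ≤ δ * s * (2 * s) := by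
        apply mul_le_mul _ _ (by linarith) (by positivity)
        · linarith
        · linarith
      calc D / n * (((m : ℝ) - n) * (r - m)) ≤ D / n * (δ * s * (2 * s)) := by gcongr
        _ = 2 * (D / n) * δ * s ^ 2 := by ring
        _ = 2 * (D * δ) * E n := by rw [hs2]; field_simp
    have e6 : 0 ≤ (r : ℝ) - n := by linarith
    calc D / n * (((r : ℝ) - n) * ((m - n) * (r - m))) =
        (r - n) * (D / n * ((m - n) * (r - m))) := by ring
      _ ≤ _ := by gcongr
  have k4 : ((r : ℝ) - n) * (T - ε / 4 * E n) ≤ (r - n) * l m := by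
    apply mul_le_mul_of_nonneg_left hlm
    linarith
  have k5 : ((r : ℝ) - m) * (ε * E n) ≥ (r - n) * (3 / 4 * (ε * E n)) := by
    have h1 : ((m : ℝ) - n) ≤ 1 / 4 * (r - n) := by
      have : δ * s ≤ 1 / 4 * s := by gcongr
      linarith
    have h2 : 0 < ε * E n := by positivity
    nlinarith
  have k6 : ((m : ℝ) - n) * (3 * E n) ≤ (r - n) * (3 * δ * E n) := by
    have h1 : ((m : ℝ) - n) ≤ δ * (r - n) := by
      have : δ * s ≤ δ * (r - n) := by
        apply mul_le_mul_of_nonneg_left _ hδ0.le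
        linarith
      linarith
    nlinarith
  have k7 : ((r : ℝ) - n) * (3 / 4 * (ε * E n)) ≤ (r - n) * ((ε / 4 + 3 * δ + 2 * (D * δ)) * E n) := by
    nlinarith
  have hrn : 0 < (r : ℝ) - n := by linarith
  have k8 := le_of_mul_le_mul_left k7 hrn
  have k9 : 3 / 4 * ε ≤ ε / 4 + 3 * δ + 2 * (D * δ) := by
    have : 3 / 4 * ε * E n ≤ (ε / 4 + 3 * δ + 2 * (D * δ)) * E n := by linarith
    exact le_of_mul_le_mul_right this hE0
  nlinarith

end Pool.Agent.K3h54.PS
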