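import Mathlib
import Pool.Agent.Y753.NL.Cur

/-!
# Exponential generating functions with nonnegative coefficients: concentration at the scale `√X`

If `∑ z n X ^ n / n! ~ A e ^ X X ^ a` then the measures with weights `z n X ^ n / n!`, normalised and
rescaled by `n = X + t √X`, converge to the standard normal law.
-/

set_option autoImplicit false
set_option linter.unusedVariables false

namespace Pool.Agent.K3h54.PS

open Filter Topology MeasureTheory ProbabilityTheory

/-- a term of the exponential generating function -/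
noncomputable def tm (z : ℕ → ℝ) (X : ℝ) (n : ℕ) : ℝ := z n * X ^ n / (n.factorial : ℝ)

/-- the exponential generating function -/
noncomputable def egf (z : ℕ → ℝ) (X : ℝ) : ℝ := ∑' n, tm z X n

/-- nonnegative coefficients, infinite radius of convergence -/
structure Adm (z : ℕ → ℝ) : Prop where
  nonneg : ∀ n, 0 ≤ z n
  summ : ∀ X : ℝ, Summable (tm z X)

/-- the rescaled variable -/
noncomputable def tt (X : ℝ) (n : ℕ) : ℝ := ((n : ℝ) - X) / √X

lemma tm_nonneg {z : ℕ → ℝ} (hz : ∀ n, 0 ≤ z n) {X : ℝ} (hX : 0 ≤ X) (n : ℕ) : 0 ≤ tm z X n := by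
  unfold tm
  have := hz n
  positivity

lemma tilt (z : ℕ → ℝ) {X : ℝ} (hX : 0 < X) (s : ℝ) (n : ℕ) :
    tm z X n * Real.exp (s * tt X n) = Real.exp (-(s * √X)) * tm z (X * Real.exp (s / √X)) n := by
  unfold tm tt
  have h0 : 0 < √X := Real.sqrt_pos.2 hX
  have e : s * (((n : ℝ) - X) / √X) = -(s * √X) + n * (s / √X) := by
    have h1 : X = √X * √X := (Real.mul_self_sqrt hX.le).symm
    have h2 : X / √X = √X := by rw [div_eq_iff h0.ne']; exact h1
    rw [sub_div, h2]
    ring
  rw [e, Real.exp_add, mul_pow, ← Real.exp_nat_mul]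
  ring

lemma Adm.summ_exp {z : ℕ → ℝ} (h : Adm z) {X : ℝ} (hX : 0 < X) (s : ℝ) :
    Summable (fun n => tm z X n * Real.exp (s * tt X n)) := by
  simp_rw [tilt z hX s]
  exact (h.summ _).mul_left _

lemma Adm.tsum_exp {z : ℕ → ℝ} (h : Adm z) {X : ℝ} (hX : 0 < X) (s : ℝ) :
    ∑' n, tm z X n * Real.exp (s * tt X n) =
      Real.exp (-(s * √X)) * egf z (X * Real.exp (s / √X)) := by
  simp_rw [tilt z hX s]
  rw [tsum_mul_left]
  rfl

lemma expo_lim (s : ℝ) : Tendsto (fun X : ℝ => X * Real.exp (s / √X) - X - s * √X) atTop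
    (𝓝 (s ^ 2 / 2)) := by
  have h1 : Tendsto (fun X : ℝ => |s| ^ 3 / √X) atTop (𝓝 0) :=
    tendsto_const_nhds.div_atTop Real.tendsto_sqrt_atTop
  have h2 : ∀ᶠ X : ℝ in atTop, |s| / √X ≤ 1 := by
    have : Tendsto (fun X : ℝ => |s| / √X) atTop (𝓝 0) :=
      tendsto_const_nhds.div_atTop Real.tendsto_sqrt_atTop
    exact this.eventually_le_const one_pos
  rw [tendsto_iff_norm_sub_tendsto_zero]
  refine squeeze_zero' (Eventually.of_forall fun _ => norm_nonneg _) ?_ h1
  filter_upwards [h2, eventually_gt_atTop 0] with X h2 hX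
  have h0 : 0 < √X := Real.sqrt_pos.2 hX
  have hXX : √X * √X = X := Real.mul_self_sqrt hX.le
  obtain ⟨h, hh⟩ : ∃ h : ℝ, h = s / √X := ⟨_, rfl⟩
  have hh1 : |h| ≤ 1 := by rw [hh, abs_div, abs_of_pos h0]; exact h2
  have h3 := Real.exp_bound hh1 (show 0 < 3 by norm_num)
  simp only [Finset.sum_range_succ, Finset.sum_range_zero, Nat.factorial] at h3
  norm_num at h3
  rw [Real.norm_eq_abs, ← hh]
  have e1 : s = h * √X := by rw [hh]; field_simp
  have e2 : X * Real.exp h - X - s * √X - s ^ 2 / 2 =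
      X * (Real.exp h - (1 + h + h ^ 2 / 2)) := by
    have : s ^ 2 = h ^ 2 * X := by rw [e1]; nlinarith
    have h4 : s * √X = h * X := by rw [e1, mul_assoc, hXX]
    rw [this, h4]
    ring
  rw [e2, abs_mul, abs_of_pos hX]
  have e3 : |s| ^ 3 / √X = X * |h| ^ 3 := by
    rw [hh, abs_div, abs_of_pos h0, div_pow]
    rw [show √X ^ 3 = √X * X by rw [pow_succ, pow_two, hXX]; ring]
    field_simp
  rw [e3]
  have h5 : 0 ≤ |h| ^ 3 := by positivity
  have h6 : |Real.exp h - (1 + h + h ^ 2 / 2)| ≤ |h| ^ 3 := by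
    refine h3.trans ?_
    nlinarith
  gcongr

/-- convergence of the exponential moments -/
lemma Adm.mgf_lim {z : ℕ → ℝ} (h : Adm z) {a A : ℝ} (hA : 0 < A)
    (H : Tendsto (fun X : ℝ => egf z X / (Real.exp X * X ^ a)) atTop (𝓝 A)) (s : ℝ) :
    Tendsto (fun X : ℝ => (∑' n, tm z X n * Real.exp (s * tt X n)) / egf z X) atTop
      (𝓝 (Real.exp (s ^ 2 / 2))) := by
  have hq : Tendsto (fun X : ℝ => Real.exp (s / √X)) atTop (𝓝 1) := by
    have : Tendsto (fun X : ℝ => s / √X) atTop (𝓝 0) :=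
      tendsto_const_nhds.div_atTop Real.tendsto_sqrt_atTop
    have h2 := (Real.continuous_exp.tendsto 0).comp this
    rw [Real.exp_zero] at h2
    exact h2
  have hφ : Tendsto (fun X : ℝ => X * Real.exp (s / √X)) atTop atTop :=
    tendsto_id.atTop_mul_pos one_pos hq
  have h1 := H.comp hφ
  have h2 := h1.div H hA.ne'
  rw [div_self hA.ne'] at h2
  have h3 := (Real.continuous_exp.tendsto _).comp (expo_lim s)
  have h4 := hq.rpow_const (p := a) (Or.inl one_ne_zero)
  rw [Real.one_rpow] at h4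
  have h5 := (h2.mul h3).mul h4
  rw [one_mul, mul_one] at h5
  refine h5.congr' ?_
  have hpos : ∀ᶠ X : ℝ in atTop, 0 < egf z X / (Real.exp X * X ^ a) := H.eventually_const_lt hA
  filter_upwards [eventually_gt_atTop 0, hpos] with X hX hp
  rw [h.tsum_exp hX]
  simp only [Function.comp_apply, Pi.div_apply]
  have hXa : 0 < X ^ a := Real.rpow_pos_of_pos hX a
  have he := Real.exp_pos X
  have hz : 0 < egf z X := by
    have := mul_pos hp (show 0 < Real.exp X * X ^ a by positivity)
    rwa [div_mul_cancel₀ _ (by positivity)] at this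
  obtain ⟨u, hu⟩ : ∃ u : ℝ, u = Real.exp (s / √X) := ⟨_, rfl⟩
  have hu0 : 0 < u := by rw [hu]; exact Real.exp_pos _
  rw [← hu]
  have e1 : (X * u) ^ a = X ^ a * u ^ a := Real.mul_rpow hX.le hu0.le
  have e2 : Real.exp (X * u - X - s * √X) = Real.exp (X * u) / Real.exp X * Real.exp (-(s * √X)) := by
    rw [← Real.exp_sub, ← Real.exp_add]
    ring_nf
  have hua : 0 < u ^ a := Real.rpow_pos_of_pos hu0 a
  have he2 := Real.exp_pos (X * u)
  rw [e1, e2]
  field_simp

/-- a discrete law on the line -/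
lemma exists_law (w : ℕ → ℝ) (hw : ∀ n, 0 ≤ w n) (hs : HasSum w 1) (T : ℕ → ℝ) :
    ∃ μ : ProbabilityMeasure ℝ, ∀ f : ℝ → ℝ, Continuous f →
      Summable (fun n => w n * |f (T n)|) →
      Integrable f (μ : Measure ℝ) ∧ ∫ x, f x ∂(μ : Measure ℝ) = ∑' n, w n * f (T n) := by
  have h1 : ∑' n, ENNReal.ofReal (w n) = 1 := by
    rw [← ENNReal.ofReal_tsum_of_nonneg hw hs.summable, hs.tsum_eq, ENNReal.ofReal_one]
  obtain ⟨p, hp⟩ : ∃ p : PMF ℕ, ∀ n, p n = ENNReal.ofReal (w n) :=
    ⟨⟨fun n => ENNReal.ofReal (w n), ENNReal.summable.hasSum_iff.2 h1⟩, fun n => rfl⟩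
  have hT : Measurable T := measurable_of_countable T
  have hprob : IsProbabilityMeasure (p.toMeasure.map T) :=
    Measure.isProbabilityMeasure_map hT.aemeasurable
  refine ⟨⟨p.toMeasure.map T, hprob⟩, fun f hf hsum => ?_⟩
  have hint : Integrable (fun n => f (T n)) p.toMeasure := by
    refine ⟨(measurable_of_countable _).aestronglyMeasurable, ?_⟩
    rw [hasFiniteIntegral_iff_norm, lintegral_countable']
    have e : ∀ n, ENNReal.ofReal ‖f (T n)‖ * p.toMeasure {n} = ENNReal.ofReal (w n * |f (T n)|) := by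
      intro n
      rw [PMF.toMeasure_apply_singleton _ _ (measurableSet_singleton n), hp,
        ENNReal.ofReal_mul (hw n), mul_comm, Real.norm_eq_abs]
    simp_rw [e]
    rw [← ENNReal.ofReal_tsum_of_nonneg (fun n => mul_nonneg (hw n) (abs_nonneg _)) hsum]
    exact ENNReal.ofReal_lt_top
  constructor
  · show Integrable f (p.toMeasure.map T)
    rw [integrable_map_measure hf.aestronglyMeasurable hT.aemeasurable]
    exact hint
  · show ∫ x, f x ∂(p.toMeasure.map T) = _
    rw [integral_map hT.aemeasurable hf.aestronglyMeasurable, PMF.integral_eq_tsum _ _ hint]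
    refine tsum_congr fun n => ?_
    rw [hp, ENNReal.toReal_ofReal (hw n), smul_eq_mul]

/-- **weak convergence to the normal law** -/
theorem Adm.weak {z : ℕ → ℝ} (h : Adm z) {a A : ℝ} (hA : 0 < A)
    (H : Tendsto (fun X : ℝ => egf z X / (Real.exp X * X ^ a)) atTop (𝓝 A))
    (g : BoundedContinuousFunction ℝ ℝ) :
    Tendsto (fun X : ℝ => (∑' n, tm z X n * g (tt X n)) / egf z X) atTop
      (𝓝 (∫ x, g x ∂(gaussianReal 0 1))) := by
  have hpos : ∀ᶠ X : ℝ in atTop, 0 < egf z X := by
    filter_upwards [eventually_gt_atTop 0, H.eventually_const_lt hA] with X hX hp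
    have hXa : 0 < X ^ a := Real.rpow_pos_of_pos hX a
    have := mul_pos hp (show 0 < Real.exp X * X ^ a by positivity)
    rwa [div_mul_cancel₀ _ (by positivity)] at this
  have hex : ∀ X : ℝ, ∃ μ : ProbabilityMeasure ℝ, 0 < X → 0 < egf z X → ∀ f : ℝ → ℝ, Continuous f →
      Summable (fun n => tm z X n / egf z X * |f (tt X n)|) →
      Integrable f (μ : Measure ℝ) ∧
        ∫ x, f x ∂(μ : Measure ℝ) = ∑' n, tm z X n / egf z X * f (tt X n) := by
    intro X
    by_cases hX : 0 < X ∧ 0 < egf z X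
    · obtain ⟨μ, hμ⟩ := exists_law (fun n => tm z X n / egf z X)
        (fun n => div_nonneg (tm_nonneg h.nonneg hX.1.le n) hX.2.le)
        (by
          have := (h.summ X).hasSum.div_const (egf z X)
          unfold egf at this ⊢
          rwa [div_self (by have := hX.2; unfold egf at this; exact this.ne')] at this) (tt X)
      exact ⟨μ, fun _ _ => hμ⟩
    · exact ⟨⟨Measure.dirac 0, inferInstance⟩, fun h1 h2 => absurd ⟨h1, h2⟩ hX⟩
  choose μ hμ using hex
  have hexp : ∀ s : ℝ, ∀ X : ℝ, 0 < X → 0 < egf z X →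
      Integrable (fun x => Real.exp (s * x)) (μ X : Measure ℝ) ∧
        ∫ x, Real.exp (s * x) ∂(μ X : Measure ℝ) =
          (∑' n, tm z X n * Real.exp (s * tt X n)) / egf z X := by
    intro s X hX hZ
    obtain ⟨h1, h2⟩ := hμ X hX hZ (fun x => Real.exp (s * x)) (by fun_prop) (by
      have := (h.summ_exp hX s).div_const (egf z X)
      refine this.congr fun n => ?_
      rw [abs_of_pos (Real.exp_pos _)]
      ring)
    refine ⟨h1, ?_⟩
    rw [h2, ← tsum_div_const]
    refine tsum_congr fun n => ?_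
    ring
  have hcv : Tendsto μ atTop (𝓝 (⟨gaussianReal 0 1, inferInstance⟩ : ProbabilityMeasure ℝ)) := by
    refine Pool.Agent.Y753.NL.curtiss (fun s => ?_) (fun s => ?_)
    · filter_upwards [eventually_gt_atTop 0, hpos] with X hX hZ
      exact (hexp s X hX hZ).1
    · have e : ∫ x, Real.exp (s * x) ∂(gaussianReal 0 1) = Real.exp (s ^ 2 / 2) := by
        have := congrFun (mgf_id_gaussianReal (μ := 0) (v := 1)) s
        unfold mgf at this
        simpa using this
      show Tendsto _ _ (𝓝 (∫ x, Real.exp (s * x) ∂(gaussianReal 0 1)))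
      rw [e]
      refine (h.mgf_lim hA H s).congr' ?_
      filter_upwards [eventually_gt_atTop 0, hpos] with X hX hZ
      exact ((hexp s X hX hZ).2).symm
  rw [ProbabilityMeasure.tendsto_iff_forall_integral_tendsto] at hcv
  refine (hcv g).congr' ?_
  filter_upwards [eventually_gt_atTop 0, hpos] with X hX hZ
  have hb : ∀ x, |g x| ≤ ‖g‖ := fun x => g.norm_coe_le_norm x
  obtain ⟨h1, h2⟩ := hμ X hX hZ g g.continuous (by
    refine Summable.of_nonneg_of_le (fun n => ?_) (fun n => ?_) (((h.summ X).div_const (egf z X)).mul_right ‖g‖)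
    · exact mul_nonneg (div_nonneg (tm_nonneg h.nonneg hX.le n) hZ.le) (abs_nonneg _)
    · exact mul_le_mul_of_nonneg_left (hb _) (div_nonneg (tm_nonneg h.nonneg hX.le n) hZ.le))
  rw [h2, ← tsum_div_const]
  refine tsum_congr fun n => ?_
  ring

end Pool.Agent.K3h54.PS
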