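import Pool.Agent.K3h54.PS.Tau

/-!
# Upper bounds and exponents from the exponential generating function
-/

set_option autoImplicit false
set_option linter.unusedVariables false

namespace Pool.Agent.K3h54.PS

open Filter Topology MeasureTheory ProbabilityTheory
open Pool.Agent.R956.K1

variable {u : ℕ → ℝ} {D : ℝ}

lemma egf_nonneg (h : Adm u) {X : ℝ} (hX : 0 ≤ X) : 0 ≤ egf u X :=
  tsum_nonneg fun n => tm_nonneg h.nonneg hX n

lemma egf_rs_le (h : Adm u) (q : ℕ) {X : ℝ} (hX : 0 ≤ X) : egf (rs q u) X ≤ egf u X := by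
  refine ((h.rs q).summ X).tsum_le_tsum (fun n => ?_) (h.summ X)
  unfold rs tm
  have h1 := ind_le q n
  have h2 := ind_nonneg q n
  have h3 : 0 ≤ u n * X ^ n / (n.factorial : ℝ) := tm_nonneg h.nonneg hX n
  calc ind q n * u n * X ^ n / (n.factorial : ℝ) = ind q n * (u n * X ^ n / (n.factorial : ℝ)) := by ring
    _ ≤ 1 * (u n * X ^ n / (n.factorial : ℝ)) := by gcongr
    _ = _ := one_mul _

/-- points with small coefficients in short windows of a parity class -/
theorem pts_le (h : Adm u) {q : ℕ} (hq : q ≤ 1) {g K : ℝ} (hK : 0 ≤ K)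
    (H : ∀ᶠ X : ℝ in atTop, egf u X ≤ K * (Real.exp X * X ^ g)) {δ : ℝ} (hδ : 0 < δ) :
    ∃ C : ℝ, 1 ≤ C ∧ ∀ᶠ n : ℕ in atTop, ∃ m : ℕ, (n : ℝ) < m ∧ (m : ℝ) < n + δ * √(n : ℝ) ∧
      m % 2 = q ∧ u m ≤ C * (n : ℝ) ^ g := by
  have hg := gi_pos hδ
  refine ⟨4 * δ * K / gi δ + 1, by
    have : 0 ≤ 4 * δ * K / gi δ := by positivity
    linarith, ?_⟩
  have h1 := (ws_ind_lim hq hδ).eventually_const_lt (show 1 / 4 * gi δ < 1 / 2 * gi δ by linarith)
  have h2 : ∀ᶠ X : ℝ in atTop, ∃ m : ℕ, X < m ∧ (m : ℝ) < X + δ * √X ∧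
      m % 2 = q ∧ u m ≤ (4 * δ * K / gi δ + 1) * X ^ g := by
    filter_upwards [h1, H, eventually_gt_atTop 0] with X g1 g2 hX
    have he := Real.exp_pos X
    have hXg : 0 < X ^ g := Real.rpow_pos_of_pos hX g
    rw [lt_div_iff₀ he] at g1
    have g3 : ws (rs q u) δ X ≤ δ * (K * (Real.exp X * X ^ g)) := by
      have g4 : ws (rs q u) δ X ≤ egf (rs q u) X * δ := by
        unfold ws egf
        rw [← tsum_mul_right]
        refine ((h.rs q).summ_bump hδ hX.le).tsum_le_tsum (fun n => ?_) (((h.rs q).summ X).mul_right δ)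
        exact mul_le_mul_of_nonneg_left (bump_le hδ _) (tm_nonneg (h.rs q).nonneg hX.le n)
      have g5 := egf_rs_le h q hX.le
      have g6 : egf (rs q u) X * δ ≤ K * (Real.exp X * X ^ g) * δ := by
        have := g5.trans g2
        gcongr
      linarith
    have g7 : ws (rs q u) δ X < (4 * δ * K / gi δ + 1) * X ^ g * ws (ind q) δ X := by
      have g8 : (4 * δ * K / gi δ + 1) * X ^ g * (1 / 4 * gi δ * Real.exp X) ≤
          (4 * δ * K / gi δ + 1) * X ^ g * ws (ind q) δ X := by gcongr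
      have g9 : (4 * δ * K / gi δ + 1) * X ^ g * (1 / 4 * gi δ * Real.exp X) =
          δ * (K * (Real.exp X * X ^ g)) + 1 / 4 * gi δ * (Real.exp X * X ^ g) := by
        field_simp
      have : 0 < 1 / 4 * gi δ * (Real.exp X * X ^ g) := by positivity
      linarith
    obtain ⟨m, m1, m2, m3⟩ := point_lt (h.rs q) (adm_ind q) hδ hX g7
    have hm : m % 2 = q := by
      by_contra hc
      have e : ind q m = 0 := by unfold ind; rw [if_neg hc]
      unfold rs at m3
      rw [e, mul_zero, zero_mul] at m3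
      exact lt_irrefl _ m3
    refine ⟨m, m1, m2, hm, ?_⟩
    have e : ind q m = 1 := by unfold ind; rw [if_pos hm]
    unfold rs at m3
    rw [e, mul_one, one_mul] at m3
    exact m3.le
  exact tendsto_natCast_atTop_atTop.eventually h2

/-- **upper bounds**: equivalence -/
theorem Rg.bigO_iff (R : Rg u D) {g : ℝ} (hg : 0 ≤ g) :
    (∃ K : ℝ, ∀ᶠ n : ℕ in atTop, u n ≤ K * (n : ℝ) ^ g) ↔
    (∃ K : ℝ, ∀ᶠ X : ℝ in atTop, egf u X ≤ K * (Real.exp X * X ^ g)) := by
  constructor
  · rintro ⟨K, hK⟩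
    refine ⟨max K 0 * 1 + 1, ?_⟩
    have h1 : ∀ᶠ n : ℕ in atTop, u n ≤ max K 0 * pw g n := by
      filter_upwards [hK] with n hn
      refine hn.trans ?_
      have : 0 ≤ (n : ℝ) ^ g := Real.rpow_nonneg (Nat.cast_nonneg n) g
      unfold pw
      gcongr
      exact le_max_left _ _
    filter_upwards [dom_le R.adm (adm_pw hg) hg (le_max_right K 0) (egf_pw_lim hg) h1 one_pos,
      eventually_gt_atTop 0] with X g1 hX
    have hXg : 0 < X ^ g := Real.rpow_pos_of_pos hX g
    rwa [div_le_iff₀ (by positivity)] at g1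
  · rintro ⟨K, hK⟩
    have hK' : ∀ᶠ X : ℝ in atTop, egf u X ≤ max K 0 * (Real.exp X * X ^ g) := by
      filter_upwards [hK, eventually_gt_atTop 0] with X hX hX0
      refine hX.trans ?_
      have hXg : 0 < X ^ g := Real.rpow_pos_of_pos hX0 g
      gcongr
      exact le_max_left _ _
    have key : ∀ q : ℕ, q ≤ 1 → ∃ C : ℝ, ∀ᶠ n : ℕ in atTop, n % 2 = q →
        Real.log (u n) ≤ g * Real.log n + 0 + C * 1 := by
      intro q hq
      obtain ⟨C, hC, h⟩ := pts_le R.adm hq (le_max_right K 0) hK' one_pos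
      have hlC := Real.log_nonneg hC
      refine ⟨_, cls_upper1 (l := fun n => Real.log (u n)) (E := fun _ => 1)
        (Nc.of_kc (R.kc q hq)) hq sc_one g 0 one_pos
        (show 0 < Real.log C + 1 by linarith) one_pos ?_⟩
      filter_upwards [h, log_shift g one_pos one_pos, eventually_ge_atTop 1] with n hn hsh hn1
      obtain ⟨m, m1, m2, m3, m4⟩ := hn
      have hn0 : (0 : ℝ) < n := by exact_mod_cast hn1
      have hna : 0 < (n : ℝ) ^ g := Real.rpow_pos_of_pos hn0 g
      refine ⟨m, by exact_mod_cast m1.le, by rw [mul_one]; exact m2.le, m3, ?_⟩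
      have h2 := Real.log_le_log (R.pos m) m4
      rw [Real.log_mul (by positivity) hna.ne', Real.log_rpow hn0] at h2
      have h4 := (abs_le.1 (hsh m m1 m2)).1
      linarith
    obtain ⟨C0, h0⟩ := key 0 (by norm_num)
    obtain ⟨C1, h1⟩ := key 1 le_rfl
    refine ⟨Real.exp (max C0 C1), ?_⟩
    filter_upwards [h0, h1, eventually_ge_atTop 1] with n g0 g1 hn
    have hn0 : (0 : ℝ) < n := by exact_mod_cast hn
    have h3 : Real.log (u n) ≤ g * Real.log n + max C0 C1 := by
      rcases Nat.mod_two_eq_zero_or_one n with h | h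
      · have := g0 h
        have := le_max_left C0 C1
        linarith
      · have := g1 h
        have := le_max_right C0 C1
        linarith
    rw [Real.log_le_iff_le_exp (R.pos n), Real.exp_add, mul_comm g, ← Real.rpow_def_of_pos hn0] at h3
    linarith

/-- the tail of the exponential generating function -/
noncomputable def tail (u : ℕ → ℝ) (X θ : ℝ) : ℝ :=
  ∑' n, if θ ≤ |tt X n| then tm u X n else 0

/-- **Chernoff bound** -/
theorem chern (h : Adm u) {g K : ℝ} (hg : 0 ≤ g) (hK : 0 ≤ K)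
    (H : ∀ᶠ X : ℝ in atTop, egf u X ≤ K * (Real.exp X * X ^ g)) :
    ∀ᶠ X : ℝ in atTop, ∀ θ : ℝ, 0 ≤ θ → θ ≤ √X → tail u X θ ≤
      2 * K * 2 ^ g * (Real.exp X * X ^ g) * Real.exp (-(θ ^ 2 / 4)) := by
  obtain ⟨X0, hX0⟩ := eventually_atTop.1 H
  filter_upwards [eventually_ge_atTop (2 * |X0| + 1)] with X hX θ hθ hθX
  have hX1 : 0 < X := by
    have := abs_nonneg X0
    linarith
  have hs : 0 < √X := Real.sqrt_pos.2 hX1
  have hXX : √X * √X = X := Real.mul_self_sqrt hX1.le
  have hXg : 0 < X ^ g := Real.rpow_pos_of_pos hX1 g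
  have he := Real.exp_pos X
  -- one exponential moment
  have key : ∀ s : ℝ, |s| ≤ √X / 2 → ∑' n, tm u X n * Real.exp (s * tt X n) ≤
      K * 2 ^ g * (Real.exp X * X ^ g) * Real.exp (s ^ 2) := by
    intro s hs2
    rw [h.tsum_exp hX1]
    obtain ⟨y, hy⟩ : ∃ y : ℝ, y = s / √X := ⟨_, rfl⟩
    have hy1 : |y| ≤ 1 / 2 := by
      rw [hy, abs_div, abs_of_pos hs, div_le_iff₀ hs]
      linarith
    have hy2 : |y| ≤ 1 := by linarith
    have hsy : s = y * √X := by rw [hy]; field_simp
    rw [← hy]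
    have hexp := Real.abs_exp_sub_one_sub_id_le hy2
    have e1 := (abs_le.1 hexp).2
    have hy4 : y ^ 2 ≤ 1 / 4 := by
      rw [← sq_abs]
      nlinarith [abs_nonneg y]
    have hye := abs_le.1 hy1
    have hup : Real.exp y ≤ 2 := by linarith [hye.2]
    have hlo : 1 / 2 ≤ Real.exp y := by
      have := Real.add_one_le_exp y
      linarith [hye.1]
    have hφ : |X0| ≤ X * Real.exp y := by nlinarith
    have h1 := hX0 (X * Real.exp y) ((le_abs_self X0).trans hφ)
    have h2 : (X * Real.exp y) ^ g ≤ X ^ g * 2 ^ g := by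
      rw [← Real.mul_rpow hX1.le (show (0 : ℝ) ≤ 2 by norm_num)]
      apply Real.rpow_le_rpow (by positivity) _ hg
      exact mul_le_mul_of_nonneg_left hup hX1.le
    have h3 : Real.exp (-(s * √X)) * Real.exp (X * Real.exp y) ≤ Real.exp X * Real.exp (s ^ 2) := by
      rw [← Real.exp_add, ← Real.exp_add]
      apply Real.exp_le_exp.2
      have e2 : s * √X = y * X := by rw [hsy, mul_assoc, hXX]
      have e3 : s ^ 2 = y ^ 2 * X := by rw [hsy]; nlinarith
      rw [e2, e3]
      nlinarith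
    calc Real.exp (-(s * √X)) * egf u (X * Real.exp y) ≤
        Real.exp (-(s * √X)) * (K * (Real.exp (X * Real.exp y) * (X * Real.exp y) ^ g)) := by gcongr
      _ ≤ Real.exp (-(s * √X)) * (K * (Real.exp (X * Real.exp y) * (X ^ g * 2 ^ g))) := by gcongr
      _ = K * (X ^ g * 2 ^ g) * (Real.exp (-(s * √X)) * Real.exp (X * Real.exp y)) := by ring
      _ ≤ K * (X ^ g * 2 ^ g) * (Real.exp X * Real.exp (s ^ 2)) := by gcongr
      _ = _ := by ring
  have k1 := key (θ / 2) (by rw [abs_of_nonneg (by positivity)]; linarith)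
  have k2 := key (-(θ / 2)) (by rw [abs_neg, abs_of_nonneg (by positivity)]; linarith)
  rw [neg_sq] at k2
  have s1 := h.summ_exp hX1 (θ / 2)
  have s2 := h.summ_exp hX1 (-(θ / 2))
  have s3 : Summable (fun n => Real.exp (-(θ ^ 2 / 2)) * (tm u X n * Real.exp (θ / 2 * tt X n) +
      tm u X n * Real.exp (-(θ / 2) * tt X n))) := (s1.add s2).mul_left _
  have hb : ∀ n, (if θ ≤ |tt X n| then tm u X n else 0) ≤
      Real.exp (-(θ ^ 2 / 2)) * (tm u X n * Real.exp (θ / 2 * tt X n) +
      tm u X n * Real.exp (-(θ / 2) * tt X n)) := by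
    intro n
    have t0 := tm_nonneg h.nonneg hX1.le n
    split_ifs with hθn
    · have e1 : 1 ≤ Real.exp (-(θ ^ 2 / 2)) * (Real.exp (θ / 2 * tt X n) +
          Real.exp (-(θ / 2) * tt X n)) := by
        rw [mul_add, ← Real.exp_add, ← Real.exp_add]
        rcases abs_cases (tt X n) with ⟨hc, _⟩ | ⟨hc, _⟩
        · rw [hc] at hθn
          have : 0 ≤ -(θ ^ 2 / 2) + θ / 2 * tt X n := by nlinarith
          have h5 := Real.one_le_exp this
          have h6 := Real.exp_pos (-(θ ^ 2 / 2) + -(θ / 2) * tt X n)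
          linarith
        · rw [hc] at hθn
          have : 0 ≤ -(θ ^ 2 / 2) + -(θ / 2) * tt X n := by nlinarith
          have h5 := Real.one_le_exp this
          have h6 := Real.exp_pos (-(θ ^ 2 / 2) + θ / 2 * tt X n)
          linarith
      calc tm u X n = tm u X n * 1 := (mul_one _).symm
        _ ≤ tm u X n * (Real.exp (-(θ ^ 2 / 2)) * (Real.exp (θ / 2 * tt X n) +
          Real.exp (-(θ / 2) * tt X n))) := by gcongr
        _ = _ := by ring
    · positivity
  have s4 : Summable (fun n => if θ ≤ |tt X n| then tm u X n else 0) :=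
    s3.of_nonneg_of_le (fun n => by
      have := tm_nonneg h.nonneg hX1.le n
      split_ifs
      · exact this
      · exact le_rfl) hb
  unfold tail
  refine (s4.tsum_le_tsum hb s3).trans ?_
  rw [tsum_mul_left, s1.tsum_add s2]
  have e5 : Real.exp (-(θ ^ 2 / 2)) * Real.exp ((θ / 2) ^ 2) = Real.exp (-(θ ^ 2 / 4)) := by
    rw [← Real.exp_add]
    congr 1
    ring
  calc Real.exp (-(θ ^ 2 / 2)) * (∑' n, tm u X n * Real.exp (θ / 2 * tt X n) +
        ∑' n, tm u X n * Real.exp (-(θ / 2) * tt X n)) ≤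
      Real.exp (-(θ ^ 2 / 2)) * (K * 2 ^ g * (Real.exp X * X ^ g) * Real.exp ((θ / 2) ^ 2) +
        K * 2 ^ g * (Real.exp X * X ^ g) * Real.exp ((θ / 2) ^ 2)) := by gcongr
    _ = 2 * K * 2 ^ g * (Real.exp X * X ^ g) * (Real.exp (-(θ ^ 2 / 2)) * Real.exp ((θ / 2) ^ 2)) := by
      ring
    _ = _ := by rw [e5]

/-- a point with a large coefficient outside the tail -/
lemma pt_ge (h : Adm u) {X θ c : ℝ} (hX : 0 < X)
    (H : c * Real.exp X + tail u X θ < egf u X) (hc : 0 ≤ c) :
    ∃ m : ℕ, |tt X m| < θ ∧ c < u m := by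
  by_contra hcon
  push Not at hcon
  have s1 := h.summ X
  have s2 := (adm_one.summ X).mul_left c
  have s3 : Summable (fun n => if θ ≤ |tt X n| then tm u X n else 0) :=
    s1.of_nonneg_of_le (fun n => by
      have := tm_nonneg h.nonneg hX.le n
      split_ifs
      · exact this
      · exact le_rfl) (fun n => by
      have := tm_nonneg h.nonneg hX.le n
      split_ifs
      · exact le_rfl
      · exact this)
  have h1 : egf u X ≤ ∑' n, (c * tm (fun _ => 1) X n + if θ ≤ |tt X n| then tm u X n else 0) := by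
    refine s1.tsum_le_tsum (fun n => ?_) (s2.add s3)
    have t0 := tm_nonneg h.nonneg hX.le n
    have t1 := tm_nonneg adm_one.nonneg hX.le n
    split_ifs with hn
    · have : 0 ≤ c * tm (fun _ => 1) X n := by positivity
      linarith
    · push Not at hn
      have h2 := hcon n hn
      rw [add_zero]
      unfold tm
      have h3 : 0 ≤ X ^ n / (n.factorial : ℝ) := by positivity
      calc u n * X ^ n / (n.factorial : ℝ) = u n * (X ^ n / (n.factorial : ℝ)) := by ring
        _ ≤ c * (X ^ n / (n.factorial : ℝ)) := by gcongr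
        _ = _ := by ring
  rw [s2.tsum_add s3, tsum_mul_left] at h1
  have h2 : ∑' n, tm (fun _ => 1) X n = Real.exp X := egf_one X
  rw [h2] at h1
  unfold tail at H
  linarith

end Pool.Agent.K3h54.PS
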