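import Pool.Agent.K3h54.PS.Exp

/-!
# The exponent of the coefficients and of the exponential generating function
-/

set_option autoImplicit false
set_option linter.unusedVariables false

namespace Pool.Agent.K3h54.PS

open Filter Topology MeasureTheory ProbabilityTheory
open Pool.Agent.R956.K1

variable {u : ℕ → ℝ} {D : ℝ}

lemma log_atTop : Tendsto (fun n : ℕ => Real.log (n : ℝ)) atTop atTop :=
  Real.tendsto_log_atTop.comp tendsto_natCast_atTop_atTop

lemma exp_le_egf (R : Rg u D) {X : ℝ} (hX : 0 ≤ X) : Real.exp X ≤ egf u X := by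
  rw [← egf_one]
  refine (adm_one.summ X).tsum_le_tsum (fun n => ?_) (R.adm.summ X)
  unfold tm
  have := R.one n
  gcongr

lemma egf_pos (R : Rg u D) {X : ℝ} (hX : 0 ≤ X) : 0 < egf u X :=
  lt_of_lt_of_le (Real.exp_pos X) (exp_le_egf R hX)

/-- from the coefficients to the exponential generating function -/
theorem Rg.expo_mp (R : Rg u D) {a : ℝ}
    (h : Tendsto (fun n : ℕ => Real.log (u n) / Real.log n) atTop (𝓝 a)) :
    Tendsto (fun X : ℝ => Real.log (egf u X / Real.exp X) / Real.log X) atTop (𝓝 a) := by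
  have ha : 0 ≤ a := by
    refine ge_of_tendsto h ?_
    filter_upwards with n
    exact div_nonneg (Real.log_nonneg (R.one n)) (Real.log_natCast_nonneg n)
  rw [Metric.tendsto_nhds] at h ⊢
  intro ε hε
  have h1 : ∀ᶠ n : ℕ in atTop, u n ≤ 1 * pw (a + ε / 4) n := by
    filter_upwards [h (ε / 4) (by positivity), eventually_ge_atTop 3] with n g1 g3
    have hl := log_scale g3
    have hn0 : (0 : ℝ) < n := by exact_mod_cast (show 0 < n by omega)
    rw [Real.dist_eq, abs_lt] at g1
    have g4 : Real.log (u n) / Real.log n < a + ε / 4 := by linarith [g1.2]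
    rw [div_lt_iff₀ (by linarith)] at g4
    unfold pw
    rw [one_mul, Real.rpow_def_of_pos hn0, ← Real.log_le_iff_le_exp (R.pos n)]
    linarith
  have h2 : ∀ᶠ n : ℕ in atTop, 1 * pw (max 0 (a - ε / 4)) n ≤ u n := by
    filter_upwards [h (ε / 4) (by positivity), eventually_ge_atTop 3] with n g1 g3
    have hl := log_scale g3
    have hn0 : (0 : ℝ) < n := by exact_mod_cast (show 0 < n by omega)
    rw [Real.dist_eq, abs_lt] at g1
    have g4 : a - ε / 4 < Real.log (u n) / Real.log n := by linarith [g1.1]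
    rw [lt_div_iff₀ (by linarith)] at g4
    unfold pw
    rw [one_mul, Real.rpow_def_of_pos hn0, ← Real.le_log_iff_exp_le (R.pos n)]
    rcases le_total 0 (a - ε / 4) with hc | hc
    · rw [max_eq_right hc]
      linarith
    · rw [max_eq_left hc, mul_zero]
      exact Real.log_nonneg (R.one n)
  have k1 := dom_le R.adm (adm_pw (show 0 ≤ a + ε / 4 by positivity)) (by positivity) zero_le_one
    (egf_pw_lim (by positivity)) h1 one_pos
  have k2 := dom_ge R.adm (adm_pw (le_max_left 0 (a - ε / 4))) (le_max_left _ _) zero_le_one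
    (egf_pw_lim (le_max_left _ _)) h2 (show (0 : ℝ) < 1 / 2 by norm_num)
  have k3 : ∀ᶠ X : ℝ in atTop, 4 * Real.log 2 / ε ≤ Real.log X :=
    Real.tendsto_log_atTop.eventually_ge_atTop _
  filter_upwards [k1, k2, k3, eventually_ge_atTop 3] with X g1 g2 g3 hX
  have hX0 : 0 < X := by linarith
  have hlX : 0 < Real.log X := Real.log_pos (by linarith)
  have he := Real.exp_pos X
  have hZ := egf_pos R hX0.le
  rw [div_le_iff₀ hε] at g3
  obtain ⟨b, hb⟩ : ∃ b : ℝ, b = egf u X / Real.exp X := ⟨_, rfl⟩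
  have hb0 : 0 < b := by rw [hb]; positivity
  have p1 : 0 < X ^ (a + ε / 4) := Real.rpow_pos_of_pos hX0 _
  have p2 : 0 < X ^ (max 0 (a - ε / 4)) := Real.rpow_pos_of_pos hX0 _
  rw [← div_div, ← hb] at g1 g2
  have l1 : Real.log b ≤ Real.log 2 + (a + ε / 4) * Real.log X := by
    rw [div_le_iff₀ p1] at g1
    have := Real.log_le_log hb0 g1
    rw [Real.log_mul (by norm_num) p1.ne', Real.log_rpow hX0] at this
    norm_num at this ⊢
    linarith
  have l2 : (a - ε / 4) * Real.log X - Real.log 2 ≤ Real.log b := by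
    rw [le_div_iff₀ p2] at g2
    have := Real.log_le_log (by positivity) g2
    rw [Real.log_mul (by norm_num) p2.ne', Real.log_rpow hX0] at this
    have e : Real.log (1 * 1 - 1 / 2) = -Real.log 2 := by
      rw [show (1 * 1 - 1 / 2 : ℝ) = 2⁻¹ by norm_num, Real.log_inv]
    rw [e] at this
    have h5 : (a - ε / 4) * Real.log X ≤ max 0 (a - ε / 4) * Real.log X := by
      apply mul_le_mul_of_nonneg_right (le_max_right _ _) hlX.le
    linarith
  rw [← hb, Real.dist_eq, abs_lt]
  constructor
  · rw [lt_sub_iff_add_lt, lt_div_iff₀ hlX]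
    nlinarith
  · rw [sub_lt_iff_lt_add, div_lt_iff₀ hlX]
    nlinarith

/-- from the exponential generating function to the coefficients -/
theorem Rg.expo_mpr (R : Rg u D) {B : ℝ}
    (hpar : ∀ n : ℕ, 1 ≤ n → |Real.log (u (n + 1)) - Real.log (u n)| ≤ B) {a : ℝ}
    (h : Tendsto (fun X : ℝ => Real.log (egf u X / Real.exp X) / Real.log X) atTop (𝓝 a)) :
    Tendsto (fun n : ℕ => Real.log (u n) / Real.log n) atTop (𝓝 a) := by
  have hB : 0 ≤ B := (abs_nonneg _).trans (hpar 1 le_rfl)
  have ha : 0 ≤ a := by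
    refine ge_of_tendsto h ?_
    filter_upwards [eventually_ge_atTop 1] with X hX
    refine div_nonneg (Real.log_nonneg ?_) (Real.log_nonneg hX)
    rw [one_le_div (Real.exp_pos X)]
    exact exp_le_egf R (by linarith)
  -- bounds of the generating function
  have hU : ∀ τ : ℝ, 0 < τ → ∀ᶠ X : ℝ in atTop, egf u X ≤ 1 * (Real.exp X * X ^ (a + τ)) := by
    intro τ hτ
    rw [Metric.tendsto_nhds] at h
    filter_upwards [h τ hτ, eventually_ge_atTop 3] with X g1 hX
    have hX0 : 0 < X := by linarith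
    have hlX : 0 < Real.log X := Real.log_pos (by linarith)
    have he := Real.exp_pos X
    have hZ := egf_pos R hX0.le
    rw [Real.dist_eq, abs_lt] at g1
    have g2 : Real.log (egf u X / Real.exp X) / Real.log X < a + τ := by linarith [g1.2]
    rw [div_lt_iff₀ hlX, Real.log_lt_iff_lt_exp (by positivity), mul_comm,
      ← Real.rpow_def_of_pos hX0, div_lt_iff₀ he] at g2
    rw [one_mul]
    linarith
  have hL : ∀ τ : ℝ, 0 < τ → ∀ᶠ X : ℝ in atTop, Real.exp X * X ^ (a - τ) ≤ egf u X := by
    intro τ hτ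
    rw [Metric.tendsto_nhds] at h
    filter_upwards [h τ hτ, eventually_ge_atTop 3] with X g1 hX
    have hX0 : 0 < X := by linarith
    have hlX : 0 < Real.log X := Real.log_pos (by linarith)
    have he := Real.exp_pos X
    have hZ := egf_pos R hX0.le
    rw [Real.dist_eq, abs_lt] at g1
    have g2 : a - τ < Real.log (egf u X / Real.exp X) / Real.log X := by linarith [g1.1]
    rw [lt_div_iff₀ hlX, Real.lt_log_iff_exp_lt (by positivity), mul_comm,
      ← Real.rpow_def_of_pos hX0, lt_div_iff₀ he] at g2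
    linarith
  -- upper bounds
  have hup : ∀ q : ℕ, q ≤ 1 → ∀ τ : ℝ, 0 < τ → ∀ᶠ n : ℕ in atTop, n % 2 = q →
      Real.log (u n) ≤ a * Real.log n + 0 + τ * (1 + Real.log n) := by
    intro q hq τ hτ
    refine cls_upper (l := fun n => Real.log (u n)) (Nc.of_kc (R.kc q hq)) hq sc_log a 0 ?_ hτ
    intro δ hδ τ' hτ'
    obtain ⟨C, hC, hp⟩ := pts_le R.adm hq zero_le_one (hU (τ' / 2) (by positivity)) hδ
    have hlC := Real.log_nonneg hC
    filter_upwards [hp, eventually_ge_atTop 3,
      log_atTop.eventually_ge_atTop (Real.log C / (τ' / 2))] with n hn hn3 hnC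
    obtain ⟨m, m1, m2, m3, m4⟩ := hn
    have hn0 : (0 : ℝ) < n := by exact_mod_cast (show 0 < n by omega)
    have hln := log_scale hn3
    have hna : 0 < (n : ℝ) ^ (a + τ' / 2) := Real.rpow_pos_of_pos hn0 _
    refine ⟨m, by exact_mod_cast m1.le, m2.le.trans ?_, m3, ?_⟩
    · have : √(n : ℝ) ≤ √((n : ℝ) * (1 + Real.log n)) := by
        apply Real.sqrt_le_sqrt
        nlinarith
      have := mul_le_mul_of_nonneg_left this hδ.le
      linarith
    · have h2 := Real.log_le_log (R.pos m) m4
      rw [Real.log_mul (by positivity) hna.ne', Real.log_rpow hn0] at h2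
      have h3 : Real.log n ≤ Real.log m := Real.log_le_log hn0 m1.le
      rw [div_le_iff₀ (by positivity)] at hnC
      have h4 : (a + τ' / 2) * Real.log n ≤ (a + τ' / 2) * Real.log m := by gcongr
      have h5 : Real.log n * (τ' / 2) ≤ Real.log m * (τ' / 2) := by gcongr
      linarith
  -- lower bounds
  have hlo : ∀ q : ℕ, q ≤ 1 → ∀ τ : ℝ, 0 < τ → ∀ᶠ n : ℕ in atTop, n % 2 = q →
      a * Real.log n + 0 - τ * (1 + Real.log n) ≤ Real.log (u n) := by
    intro q hq τ hτ
    refine cls_lower (l := fun n => Real.log (u n)) (Nc.of_kc (R.kc q hq)) hq sc_log a 0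
      (hup q hq) ?_ hτ
    clear hτ τ
    intro δ hδ τ hτ
    obtain ⟨ρ, hρ⟩ : ∃ ρ : ℝ, ρ = δ / 8 := ⟨_, rfl⟩
    have hρ0 : 0 < ρ := by rw [hρ]; positivity
    obtain ⟨t, ht⟩ : ∃ t : ℝ, t = min (τ / 2) (ρ ^ 2 / 16) := ⟨_, rfl⟩
    have ht0 : 0 < t := by rw [ht]; positivity
    have ht1 : t ≤ τ / 2 := by rw [ht]; exact min_le_left _ _
    have ht2 : t ≤ ρ ^ 2 / 16 := by rw [ht]; exact min_le_right _ _
    have hch := chern R.adm (g := a + t) (K := 1) (by positivity) zero_le_one (hU t ht0)
    -- points with large coefficients, `X` real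
    have hX : ∀ᶠ X : ℝ in atTop, ∃ m : ℕ, |tt X m| < ρ * √(Real.log X) ∧
        1 / 2 * X ^ (a - t) < u m := by
      have e1 : ∀ᶠ X : ℝ in atTop, 2 * 1 * 2 ^ (a + t) * X ^ (-(ρ ^ 2 / 8)) < 1 / 3 := by
        have := (tendsto_rpow_neg_atTop (show 0 < ρ ^ 2 / 8 by positivity)).const_mul
          (2 * 1 * (2 : ℝ) ^ (a + t))
        rw [mul_zero] at this
        exact this.eventually_lt_const (by norm_num)
      have e2 : ∀ᶠ X : ℝ in atTop, Real.log X / X < (1 / (ρ + 1)) ^ 2 :=
        (Real.isLittleO_log_id_atTop.tendsto_div_nhds_zero).eventually_lt_const (by positivity)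
      filter_upwards [hch, hL t ht0, e1, e2, eventually_ge_atTop 3] with X g1 g2 g3 g4 hX3
      have hX0 : 0 < X := by linarith
      have hlX : 0 < Real.log X := Real.log_pos (by linarith)
      have he := Real.exp_pos X
      have hθ : ρ * √(Real.log X) ≤ √X := by
        have h5 : √(Real.log X) ≤ 1 / (ρ + 1) * √X := by
          rw [div_lt_iff₀ hX0] at g4
          have h6 : √(Real.log X) ≤ √((1 / (ρ + 1)) ^ 2 * X) := Real.sqrt_le_sqrt g4.le
          rwa [Real.sqrt_mul (by positivity), Real.sqrt_sq (by positivity)] at h6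
        calc ρ * √(Real.log X) ≤ ρ * (1 / (ρ + 1) * √X) := by gcongr
          _ = ρ / (ρ + 1) * √X := by ring
          _ ≤ 1 * √X := by
            have : ρ / (ρ + 1) ≤ 1 := by rw [div_le_one (by positivity)]; linarith
            gcongr
          _ = √X := one_mul _
      have g5 := g1 (ρ * √(Real.log X)) (by positivity) hθ
      have e3 : Real.exp (-((ρ * √(Real.log X)) ^ 2 / 4)) = X ^ (-(ρ ^ 2 / 4)) := by
        rw [Real.rpow_def_of_pos hX0, mul_pow, Real.sq_sqrt hlX.le]
        congr 1
        ring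
      rw [e3] at g5
      have p1 : 0 < X ^ (a - t) := Real.rpow_pos_of_pos hX0 _
      have e4 : X ^ (a + t) * X ^ (-(ρ ^ 2 / 4)) ≤ X ^ (a - t) * X ^ (-(ρ ^ 2 / 8)) := by
        rw [← Real.rpow_add hX0, ← Real.rpow_add hX0]
        apply Real.rpow_le_rpow_of_exponent_le (by linarith)
        linarith
      have g6 : tail u X (ρ * √(Real.log X)) ≤ 1 / 3 * (Real.exp X * X ^ (a - t)) := by
        refine g5.trans ?_
        calc 2 * 1 * 2 ^ (a + t) * (Real.exp X * X ^ (a + t)) * X ^ (-(ρ ^ 2 / 4)) =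
            2 * 1 * 2 ^ (a + t) * Real.exp X * (X ^ (a + t) * X ^ (-(ρ ^ 2 / 4))) := by ring
          _ ≤ 2 * 1 * 2 ^ (a + t) * Real.exp X * (X ^ (a - t) * X ^ (-(ρ ^ 2 / 8))) := by gcongr
          _ = (2 * 1 * 2 ^ (a + t) * X ^ (-(ρ ^ 2 / 8))) * (Real.exp X * X ^ (a - t)) := by ring
          _ ≤ 1 / 3 * (Real.exp X * X ^ (a - t)) := by gcongr
      refine pt_ge R.adm hX0 ?_ (by positivity)
      have : 0 < Real.exp X * X ^ (a - t) := by positivity
      nlinarith
    -- transfer to lengths
    have hS : Tendsto (fun n : ℕ => (n : ℝ) + δ / 4 * √((n : ℝ) * (1 + Real.log n))) atTop atTop :=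
      tendsto_atTop_mono (fun n => by
        have : 0 ≤ δ / 4 * √((n : ℝ) * (1 + Real.log n)) := by positivity
        linarith) tendsto_natCast_atTop_atTop
    have e5 : ∀ᶠ n : ℕ in atTop, (1 + Real.log (n : ℝ)) / n < (1 / (δ + 1)) ^ 2 :=
      sc_log.small.eventually_lt_const (by positivity)
    filter_upwards [hS.eventually hX, e5, eventually_ge_atTop 3,
      tendsto_natCast_atTop_atTop.eventually_ge_atTop ((2 / δ) ^ 2),
      log_atTop.eventually_ge_atTop ((a * Real.log 2 + B + Real.log 2) / (τ / 2))] with n hn g1 hn3 gδ gτ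
    have hn0 : (0 : ℝ) < n := by exact_mod_cast (show 0 < n by omega)
    have hln := log_scale hn3
    obtain ⟨S, hSd⟩ : ∃ S : ℝ, S = √((n : ℝ) * (1 + Real.log n)) := ⟨_, rfl⟩
    obtain ⟨X, hXd⟩ : ∃ X : ℝ, X = (n : ℝ) + δ / 4 * S := ⟨_, rfl⟩
    have hS2 : S ^ 2 = n * (1 + Real.log n) := by rw [hSd, Real.sq_sqrt (by positivity)]
    have hS0 : 0 < S := by rw [hSd]; positivity
    rw [← hSd, ← hXd] at hn
    obtain ⟨m, m1, m2⟩ := hn
    have hSn : S ≤ 1 / (δ + 1) * n := by
      have h1 : S ^ 2 ≤ (1 / (δ + 1) * n) ^ 2 := by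
        have e : S ^ 2 = ((1 + Real.log n) / n) * (n : ℝ) ^ 2 := by rw [hS2]; field_simp
        rw [e, mul_pow]
        gcongr
      exact le_of_sq_le_sq h1 (by positivity)
    have hδS : δ * S ≤ n := by
      calc δ * S ≤ δ * (1 / (δ + 1) * n) := by gcongr
        _ = δ / (δ + 1) * n := by ring
        _ ≤ 1 * n := by
          have : δ / (δ + 1) ≤ 1 := by rw [div_le_one (by positivity)]; linarith
          gcongr
        _ = n := one_mul _
    have hX0 : 0 < X := by rw [hXd]; positivity
    have hXn : (n : ℝ) ≤ X := by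
      have : 0 < δ / 4 * S := by positivity
      linarith
    have hX2 : X ≤ 2 * n := by linarith
    have hl2 : Real.log (2 * (n : ℝ)) ≤ 1 + Real.log n := by
      rw [Real.log_mul (by norm_num) hn0.ne']
      have := Real.log_two_lt_d9
      linarith
    have hlX : Real.log X ≤ 1 + Real.log n := (Real.log_le_log hX0 hX2).trans hl2
    have hlX0 : 0 < Real.log X := by
      have := Real.log_le_log hn0 hXn
      linarith
    have hmX : |(m : ℝ) - X| < δ / 4 * S := by
      have hsX := Real.sqrt_pos.2 hX0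
      unfold tt at m1
      rw [abs_div, abs_of_pos hsX, div_lt_iff₀ hsX] at m1
      have h5 : √(Real.log X) * √X ≤ 2 * S := by
        rw [← Real.sqrt_mul hlX0.le]
        have h6 : Real.log X * X ≤ 4 * S ^ 2 := by
          rw [hS2]
          calc Real.log X * X ≤ (1 + Real.log n) * (2 * n) := by gcongr
            _ ≤ 4 * (n * (1 + Real.log n)) := by nlinarith
        calc √(Real.log X * X) ≤ √((2 * S) ^ 2) := by
              apply Real.sqrt_le_sqrt
              rw [mul_pow]
              norm_num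
              linarith
          _ = 2 * S := Real.sqrt_sq (by positivity)
      calc |(m : ℝ) - X| < ρ * √(Real.log X) * √X := m1
        _ = ρ * (√(Real.log X) * √X) := by ring
        _ ≤ ρ * (2 * S) := by gcongr
        _ = δ / 4 * S := by rw [hρ]; ring
    rw [abs_lt] at hmX
    have hm1 : (n : ℝ) < m := by linarith [hmX.1]
    have hm2 : (m : ℝ) < n + δ / 2 * S := by linarith [hmX.2]
    have hSδ : 2 ≤ δ * S := by
      have h1 : (n : ℝ) ≤ S ^ 2 := by rw [hS2]; nlinarith
      have h2 : (2 / δ) ^ 2 ≤ S ^ 2 := gδ.trans h1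
      have h3 := le_of_sq_le_sq h2 hS0.le
      rw [div_le_iff₀ hδ] at h3
      linarith
    have hlu : a * Real.log n - t * Real.log (2 * (n : ℝ)) - Real.log 2 ≤ Real.log (u m) := by
      have h2 := Real.log_le_log (by
        have : 0 < X ^ (a - t) := Real.rpow_pos_of_pos hX0 _
        positivity) m2.le
      rw [Real.log_mul (by norm_num) (Real.rpow_pos_of_pos hX0 _).ne', Real.log_rpow hX0] at h2
      have e6 : Real.log (1 / 2) = -Real.log 2 := by rw [one_div, Real.log_inv]
      rw [e6] at h2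
      have h3 : a * Real.log n ≤ a * Real.log X := by
        have := Real.log_le_log hn0 hXn
        gcongr
      have h4 : t * Real.log X ≤ t * Real.log (2 * (n : ℝ)) := by
        have := Real.log_le_log hX0 hX2
        gcongr
      linarith
    have htl : t * Real.log (2 * (n : ℝ)) ≤ τ / 2 * (1 + Real.log n) := by
      have : 0 ≤ Real.log (2 * (n : ℝ)) := Real.log_nonneg (by linarith [show (3 : ℝ) ≤ n by exact_mod_cast hn3])
      calc t * Real.log (2 * (n : ℝ)) ≤ τ / 2 * Real.log (2 * (n : ℝ)) := by gcongr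
        _ ≤ _ := by gcongr
    rw [div_le_iff₀ (by positivity)] at gτ
    have fin : ∀ m' : ℕ, (n : ℝ) ≤ m' → (m' : ℝ) ≤ 2 * n → Real.log (u m) - B ≤ Real.log (u m') →
        a * Real.log m' + 0 - τ * (1 + Real.log m') ≤ Real.log (u m') := by
      intro m' k1 k2 k3
      have k0 : (0 : ℝ) < m' := by linarith
      have k4 : Real.log m' ≤ Real.log 2 + Real.log n := by
        have := Real.log_le_log k0 k2
        rwa [Real.log_mul (by norm_num) hn0.ne'] at this
      have k5 : Real.log n ≤ Real.log m' := Real.log_le_log hn0 k1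
      have k6 : a * Real.log m' ≤ a * (Real.log 2 + Real.log n) := by gcongr
      have k7 : τ * (1 + Real.log n) ≤ τ * (1 + Real.log m') := by gcongr
      nlinarith
    rcases Nat.lt_or_ge 0 0 with h0 | _
    · omega
    by_cases hmq : m % 2 = q
    · refine ⟨m, by exact_mod_cast hm1.le, ?_, hmq, fin m hm1.le (by linarith) (by linarith)⟩
      rw [← hSd]
      have : 0 < δ * S := by positivity
      linarith
    · refine ⟨m + 1, by
        have : n ≤ m := by exact_mod_cast hm1.le
        omega, ?_, by omega, fin (m + 1) (by push_cast; linarith) (by push_cast; linarith) ?_⟩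
      · rw [← hSd]
        push_cast
        linarith
      · have hm0 : 1 ≤ m := by
          have : (0 : ℝ) < m := by linarith
          exact_mod_cast this
        have := (abs_le.1 (hpar m hm0)).1
        linarith
  rw [Metric.tendsto_nhds]
  intro ε hε
  filter_upwards [hup 0 (by norm_num) (ε / 4) (by positivity), hup 1 le_rfl (ε / 4) (by positivity),
    hlo 0 (by norm_num) (ε / 4) (by positivity), hlo 1 le_rfl (ε / 4) (by positivity),
    eventually_ge_atTop 3] with n g1 g2 g3 g4 hn
  have hl := log_scale hn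
  have hl0 : 0 < Real.log (n : ℝ) := by linarith
  have h1 : Real.log (u n) ≤ a * Real.log n + 0 + ε / 4 * (1 + Real.log n) := by
    rcases Nat.mod_two_eq_zero_or_one n with h | h
    · exact g1 h
    · exact g2 h
  have h2 : a * Real.log n + 0 - ε / 4 * (1 + Real.log n) ≤ Real.log (u n) := by
    rcases Nat.mod_two_eq_zero_or_one n with h | h
    · exact g3 h
    · exact g4 h
  rw [Real.dist_eq, abs_lt]
  constructor
  · rw [lt_sub_iff_add_lt, lt_div_iff₀ hl0]
    nlinarith
  · rw [sub_lt_iff_lt_add, div_lt_iff₀ hl0]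
    nlinarith

end Pool.Agent.K3h54.PS
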