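import Pool.Agent.K3h54.PS.Cls

/-!
# Lower bounds from points with large values, when some upper bound is known
-/

set_option autoImplicit false
set_option linter.unusedVariables false

namespace Pool.Agent.K3h54.PS

open Filter Topology
open Pool.Agent.R956.K1

variable {l : ℕ → ℝ} {D : ℝ} {E : ℕ → ℝ}

/-- **lower bounds**, with any upper bound of the same order -/
theorem Nc.lowerK (hl : Nc l D) (hE : Sc E) (a b : ℝ)
    {K : ℝ} (hK : 0 ≤ K) (hup : ∀ᶠ n : ℕ in atTop, l n ≤ a * Real.log n + b + K * E n)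
    (hlo : ∀ δ : ℝ, 0 < δ → ∀ τ : ℝ, 0 < τ → ∀ᶠ n : ℕ in atTop, ∃ k : ℕ, n ≤ k ∧
      (k : ℝ) ≤ n + δ * √(n * E n) ∧ a * Real.log k + b - τ * E k ≤ l k) :
    ∀ ε : ℝ, 0 < ε → ∀ᶠ n : ℕ in atTop, a * Real.log n + b - ε * E n ≤ l n := by
  intro ε hε
  have hD := hl.1
  obtain ⟨δ, hδ⟩ : ∃ δ : ℝ, δ = min (1 / 4) (ε / (4 * (2 * D + (2 * K + 1)))) := ⟨_, rfl⟩
  have hδ0 : 0 < δ := by rw [hδ]; positivity
  have hδ1 : δ ≤ 1 / 4 := by rw [hδ]; exact min_le_left _ _
  have hδ2 : (2 * D + (2 * K + 1)) * δ ≤ ε / 4 := by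
    have h1 : δ ≤ ε / (4 * (2 * D + (2 * K + 1))) := by rw [hδ]; exact min_le_right _ _
    have h2 : (2 * D + (2 * K + 1)) * δ ≤
      (2 * D + (2 * K + 1)) * (ε / (4 * (2 * D + (2 * K + 1)))) := by gcongr
    have h3 : (2 * D + (2 * K + 1)) * (ε / (4 * (2 * D + (2 * K + 1)))) = ε / 4 := by field_simp
    linarith
  obtain ⟨N0, hN0⟩ := hl.three
  obtain ⟨N1, hN1⟩ := eventually_atTop.1 (hlo δ hδ0 (ε / 16) (by positivity))
  obtain ⟨N2, hN2⟩ := eventually_atTop.1 hup
  have ev : ∀ᶠ n : ℕ in atTop, E n / n < (min (1 / 4) (min 1 (ε / 8) / (2 * (|a| + 1)))) ^ 2 :=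
    hE.small.eventually_lt_const (by positivity)
  filter_upwards [ev, eventually_ge_atTop (N0 + N1 + N2 + 2)] with n g1 hn
  have hn0 : (0 : ℝ) < n := by exact_mod_cast (show 0 < n by omega)
  have hE1 := hE.one_le n (by omega)
  have hE0 : 0 < E n := by linarith
  obtain ⟨m0, hm0⟩ : ∃ m0 : ℝ, m0 = min (1 / 4) (min 1 (ε / 8) / (2 * (|a| + 1))) := ⟨_, rfl⟩
  have hm00 : 0 < m0 := by rw [hm0]; positivity
  rw [← hm0] at g1
  have hma : m0 ≤ 1 / 4 := by rw [hm0]; exact min_le_left _ _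
  have hmb : m0 ≤ min 1 (ε / 8) / (2 * (|a| + 1)) := by rw [hm0]; exact min_le_right _ _
  obtain ⟨s, hs⟩ : ∃ s : ℝ, s = √(n * E n) := ⟨_, rfl⟩
  have hs2 : s ^ 2 = n * E n := by rw [hs, Real.sq_sqrt (by positivity)]
  have hs0 : 0 < s := by rw [hs]; positivity
  have hs1 : 1 ≤ s := by
    have h4 : (1 : ℝ) ≤ n := by exact_mod_cast (show 1 ≤ n by omega)
    have h5 : 1 ≤ s ^ 2 := by
      rw [hs2]
      nlinarith
    nlinarith
  have hsm : s ≤ m0 * n := by
    have h1 : s ^ 2 ≤ (m0 * n) ^ 2 := by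
      have e : s ^ 2 = (E n / n) * (n : ℝ) ^ 2 := by rw [hs2]; field_simp
      rw [e, mul_pow]
      gcongr
    exact le_of_sq_le_sq h1 (by positivity)
  have h4s : 4 * s ≤ n := by nlinarith
  have has : |a| * (2 * s) / n ≤ min 1 (ε / 8) := by
    rw [div_le_iff₀ hn0]
    have h2 : |a| * (2 * m0) ≤ min 1 (ε / 8) := by
      have h3 : |a| * (2 * m0) ≤ |a| * (2 * (min 1 (ε / 8) / (2 * (|a| + 1)))) := by gcongr
      have e : |a| * (2 * (min 1 (ε / 8) / (2 * (|a| + 1)))) =
        min 1 (ε / 8) * (|a| / (|a| + 1)) := by field_simp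
      rw [e] at h3
      have a1 : |a| / (|a| + 1) ≤ 1 := by rw [div_le_one (by positivity)]; linarith
      have : (0 : ℝ) < min 1 (ε / 8) := by positivity
      nlinarith
    calc |a| * (2 * s) ≤ |a| * (2 * (m0 * n)) := by gcongr
      _ = |a| * (2 * m0) * n := by ring
      _ ≤ _ := by gcongr
  by_contra hcon
  push Not at hcon
  obtain ⟨m, hm1, hm2, hm3⟩ := hN1 n (by omega)
  rw [← hs] at hm2
  obtain ⟨r, hr⟩ : ∃ r : ℕ, r = n + ⌈s⌉₊ := ⟨_, rfl⟩
  have hra : (n : ℝ) + s ≤ r := by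
    rw [hr]
    push_cast
    have := Nat.le_ceil s
    linarith
  have hrb : (r : ℝ) ≤ n + 2 * s := by
    rw [hr]
    push_cast
    have := (Nat.ceil_lt_add_one hs0.le).le
    linarith
  have hmn : (n : ℝ) ≤ m := by exact_mod_cast hm1
  have hmr' : (m : ℝ) ≤ r := by nlinarith
  have hmr : m ≤ r := by exact_mod_cast hmr'
  have hr2n : r ≤ 2 * n := by
    have : (r : ℝ) ≤ 2 * n := by linarith
    exact_mod_cast this
  have hEr : E r ≤ 2 * E n := (hE.mono hr2n).trans (hE.two n (by omega))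
  have hEm : E m ≤ 2 * E n := (hE.mono (hmr.trans hr2n)).trans (hE.two n (by omega))
  have hlr : l r ≤ a * Real.log n + b + (2 * K + 1) * E n := by
    have h1 := hN2 r (by omega)
    have h2 := (abs_le.1 (psi_diff a b (show 1 ≤ n by omega) (show n ≤ r by omega))).2
    have h3 : |a| * ((r : ℝ) - n) / n ≤ |a| * (2 * s) / n := by
      apply div_le_div_of_nonneg_right _ hn0.le
      apply mul_le_mul_of_nonneg_left _ (abs_nonneg a)
      linarith
    have h4 := has.trans (min_le_left _ _)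
    have h5 : K * E r ≤ K * (2 * E n) := by gcongr
    linarith
  have hlm : a * Real.log n + b - ε / 4 * E n ≤ l m := by
    have h2 := (abs_le.1 (psi_diff a b (show 1 ≤ n by omega) hm1)).1
    have h3 : |a| * ((m : ℝ) - n) / n ≤ |a| * (2 * s) / n := by
      apply div_le_div_of_nonneg_right _ hn0.le
      apply mul_le_mul_of_nonneg_left _ (abs_nonneg a)
      nlinarith
    have h4 := has.trans (min_le_right _ _)
    have h5 : ε / 16 * E m ≤ ε / 16 * (2 * E n) := by gcongr
    have h6 : ε / 8 ≤ ε / 8 * E n := by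
      have : 0 < ε / 8 := by positivity
      nlinarith
    linarith
  have h3 := hN0 n (by omega) n m r (by omega) hm1 hmr
  -- contradiction
  obtain ⟨T, hT⟩ : ∃ T : ℝ, T = a * Real.log n + b := ⟨_, rfl⟩
  rw [← hT] at hlr hlm hcon
  have k1 : ((r : ℝ) - m) * l n ≤ (r - m) * (T - ε * E n) := by
    apply mul_le_mul_of_nonneg_left hcon.le
    linarith
  have k2 : ((m : ℝ) - n) * l r ≤ (m - n) * (T + (2 * K + 1) * E n) := by
    apply mul_le_mul_of_nonneg_left hlr
    linarith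
  have k3 : D / n * (((r : ℝ) - n) * ((m - n) * (r - m))) ≤ (r - n) * (2 * (D * δ) * E n) := by
    have e4 : D / n * (((m : ℝ) - n) * (r - m)) ≤ 2 * (D * δ) * E n := by
      have e5 : ((m : ℝ) - n) * (r - m) ≤ δ * s * (2 * s) := by
        apply mul_le_mul _ _ (by linarith) (by positivity)
        · linarith
        · linarith
      calc D / n * (((m : ℝ) - n) * (r - m)) ≤ D / n * (δ * s * (2 * s)) := by gcongr
        _ = 2 * (D / n) * δ * s ^ 2 := by ring
        _ = 2 * (D * δ) * E n := by rw [hs2]; field_simp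
    have e6 : 0 ≤ (r : ℝ) - n := by linarith
    calc D / n * (((r : ℝ) - n) * ((m - n) * (r - m))) =
        (r - n) * (D / n * ((m - n) * (r - m))) := by ring
      _ ≤ _ := by gcongr
  have k4 : ((r : ℝ) - n) * (T - ε / 4 * E n) ≤ (r - n) * l m := by
    apply mul_le_mul_of_nonneg_left hlm
    linarith
  have k5 : ((r : ℝ) - m) * (ε * E n) ≥ (r - n) * (3 / 4 * (ε * E n)) := by
    have h1 : ((m : ℝ) - n) ≤ 1 / 4 * (r - n) := by
      have : δ * s ≤ 1 / 4 * s := by gcongr
      linarith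
    have h2 : 0 < ε * E n := by positivity
    nlinarith
  have k6 : ((m : ℝ) - n) * ((2 * K + 1) * E n) ≤ (r - n) * ((2 * K + 1) * δ * E n) := by
    have h1 : ((m : ℝ) - n) ≤ δ * (r - n) := by
      have : δ * s ≤ δ * (r - n) := by
        apply mul_le_mul_of_nonneg_left _ hδ0.le
        linarith
      linarith
    have h2 : 0 ≤ (2 * K + 1) * E n := by positivity
    nlinarith [mul_le_mul_of_nonneg_right h1 h2]
  have k7 : ((r : ℝ) - n) * (3 / 4 * (ε * E n)) ≤ (r - n) * ((ε / 4 + (2 * K + 1) * δ + 2 * (D * δ)) * E n) := by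
    nlinarith
  have hrn : 0 < (r : ℝ) - n := by linarith
  have k8 := le_of_mul_le_mul_left k7 hrn
  have k9 : 3 / 4 * ε ≤ ε / 4 + (2 * K + 1) * δ + 2 * (D * δ) := by
    have : 3 / 4 * ε * E n ≤ (ε / 4 + (2 * K + 1) * δ + 2 * (D * δ)) * E n := by linarith
    exact le_of_mul_le_mul_right this hE0
  nlinarith

/-- **lower bounds in a parity class**, with any upper bound of the same order -/
theorem cls_lowerK {q : ℕ} (hl : Nc (fun k => l (2 * k + q)) D) (hq : q ≤ 1) (hE : Sc E) (a b : ℝ)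
    {K : ℝ} (hK : 0 ≤ K)
    (hup : ∀ᶠ n : ℕ in atTop, n % 2 = q → l n ≤ a * Real.log n + b + K * E n)
    (hlo : ∀ δ : ℝ, 0 < δ → ∀ τ : ℝ, 0 < τ → ∀ᶠ n : ℕ in atTop, ∃ m : ℕ, n ≤ m ∧
      (m : ℝ) ≤ n + δ * √(n * E n) ∧ m % 2 = q ∧ a * Real.log m + b - τ * E m ≤ l m)
    {ε : ℝ} (hε : 0 < ε) :
    ∀ᶠ n : ℕ in atTop, n % 2 = q → a * Real.log n + b - ε * E n ≤ l n := by
  have ht : Tendsto (fun k : ℕ => 2 * k + q) atTop atTop :=
    tendsto_atTop_mono (fun k => by simp only [id]; omega) tendsto_id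
  have h1 := hl.lowerK hE a (b + a * Real.log 2) (K := 4 * K + 1) (by positivity) (by
      filter_upwards [ht.eventually hup,
        log_two_k (q := q) a hq one_pos, eventually_ge_atTop 1]
        with k g1 g2 hk1
      have g3 := g1 (by omega)
      have g4 := (abs_le.1 g2).2
      have g5 := E_cls (q := q) hq hE hk1
      have g6 : K * E (2 * k + q) ≤ K * (4 * E k) := by gcongr
      have g7 := hE.one_le k hk1
      linarith) (fun δ hδ τ hτ => by
      have hw := win hq hE (δ := δ / 2) (by positivity)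
        (P := fun m => a * Real.log m + b - τ / 8 * E m ≤ l m)
        (hlo (δ / 2) (by positivity) (τ / 8) (by positivity))
      obtain ⟨N1, hN1⟩ := eventually_atTop.1 (log_two_k (q := q) a hq (show 0 < τ / 8 by positivity))
      filter_upwards [hw, eventually_ge_atTop (N1 + 1)] with k hk hk1
      obtain ⟨j, g1, g2, g3⟩ := hk
      refine ⟨j, g1, ?_, ?_⟩
      · rw [show 2 * (δ / 2) = δ by ring] at g2
        exact g2
      have g4 := (abs_le.1 (hN1 j (by omega))).1
      have g5 := E_cls (q := q) hq hE (show 1 ≤ j by omega)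
      have g6 : τ / 8 * E (2 * j + q) ≤ τ / 8 * (4 * E j) := by gcongr
      have g7 := hE.one_le j (by omega)
      have g8 : τ / 8 ≤ τ / 8 * E j := by
        have : 0 < τ / 8 := by positivity
        nlinarith
      have g9 : 0 < τ * E j := by positivity
      linarith) (ε / 2) (by positivity)
  refine to_cls (P := fun n => a * Real.log n + b - ε * E n ≤ l n) ?_
  filter_upwards [h1, log_two_k (q := q) a hq (show 0 < ε / 2 by positivity),
    eventually_ge_atTop 1] with k hk hk2 hk1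
  have g1 := (abs_le.1 hk2).2
  have g2 := hE.one_le k hk1
  have g3 : E k ≤ E (2 * k + q) := hE.mono (by omega)
  have g4 : ε / 2 * E k ≤ ε / 2 * E (2 * k + q) := by gcongr
  have g5 : ε / 2 ≤ ε / 2 * E (2 * k + q) := by
    have : 1 ≤ E (2 * k + q) := g2.trans g3
    have : 0 < ε / 2 := by positivity
    nlinarith
  have e2 : ε * E (2 * k + q) = ε / 2 * E (2 * k + q) + ε / 2 * E (2 * k + q) := by ring
  rw [e2]
  linarith


end Pool.Agent.K3h54.PS
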