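import Pool.Agent.K3h54.PS.Win

/-!
# Sums of two consecutive coefficients
-/

set_option autoImplicit false
set_option linter.unusedVariables false

namespace Pool.Agent.K3h54.PS

open Filter Topology MeasureTheory ProbabilityTheory

/-- the sums of two consecutive terms, along a parity class -/
noncomputable def su (q : ℕ) (u : ℕ → ℝ) (m : ℕ) : ℝ := ind q m * (u m + u (m + 1))

lemma summ_shift {u : ℕ → ℝ} (h : Adm u) (X : ℝ) :
    Summable (fun n => u (n + 1) * X ^ n / (n.factorial : ℝ)) := by
  have h1 : Summable (fun n => tm u (2 * (|X| + 1)) (n + 1)) :=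
    (summable_nat_add_iff 1).2 (h.summ _)
  refine Summable.of_norm_bounded h1 (fun n => ?_)
  unfold tm
  have hu := h.nonneg (n + 1)
  rw [Real.norm_eq_abs, abs_div, abs_mul, abs_of_nonneg hu, abs_pow,
    abs_of_pos (show (0 : ℝ) < n.factorial by positivity), Nat.factorial_succ]
  push_cast
  have hX := abs_nonneg X
  have h2 : ((n : ℝ) + 1) ≤ 2 ^ (n + 1) := by
    have : n + 1 ≤ 2 ^ (n + 1) := (Nat.lt_two_pow_self (n := n + 1)).le
    exact_mod_cast this
  have h3 : |X| ^ n ≤ (|X| + 1) ^ (n + 1) := by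
    calc |X| ^ n ≤ (|X| + 1) ^ n := by gcongr; linarith
      _ ≤ (|X| + 1) ^ n * (|X| + 1) := by
        have : 0 ≤ (|X| + 1) ^ n := by positivity
        nlinarith
      _ = _ := by rw [pow_succ]
  rw [div_le_div_iff₀ (by positivity) (by positivity), mul_pow]
  have h4 : |X| ^ n * ((n : ℝ) + 1) ≤ 2 ^ (n + 1) * (|X| + 1) ^ (n + 1) := by
    calc |X| ^ n * ((n : ℝ) + 1) ≤ (|X| + 1) ^ (n + 1) * 2 ^ (n + 1) := by gcongr
      _ = _ := by ring
  have h5 : 0 ≤ u (n + 1) * (n.factorial : ℝ) := by positivity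
  nlinarith [mul_le_mul_of_nonneg_left h4 h5]

lemma Adm.su {u : ℕ → ℝ} (h : Adm u) (q : ℕ) : Adm (su q u) := by
  refine ⟨fun n => mul_nonneg (ind_nonneg q n) (add_nonneg (h.nonneg _) (h.nonneg _)), fun X => ?_⟩
  refine Summable.of_norm_bounded
    (g := fun n => ‖tm u X n‖ + ‖u (n + 1) * X ^ n / (n.factorial : ℝ)‖)
    ((h.summ X).norm.add (summ_shift h X).norm) (fun n => ?_)
  unfold tm PS.su
  rw [show ind q n * (u n + u (n + 1)) * X ^ n / (n.factorial : ℝ) =
    ind q n * (u n * X ^ n / (n.factorial : ℝ) + u (n + 1) * X ^ n / (n.factorial : ℝ)) by ring,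
    norm_mul]
  have h1 : ‖ind q n‖ ≤ 1 := by
    rw [Real.norm_of_nonneg (ind_nonneg q n)]
    exact ind_le q n
  have h2 := norm_add_le (u n * X ^ n / (n.factorial : ℝ)) (u (n + 1) * X ^ n / (n.factorial : ℝ))
  have h3 := norm_nonneg (u n * X ^ n / (n.factorial : ℝ) + u (n + 1) * X ^ n / (n.factorial : ℝ))
  nlinarith

lemma ind_succ {q : ℕ} (hq : q ≤ 1) (n : ℕ) : 1 - ind q (n + 1) = ind q n := by
  rw [ind_eq hq, ind_eq hq, pow_succ]
  ring

lemma near_b {δ X : ℝ} (hδ : 0 < δ) (hX : 1 ≤ X) (n : ℕ) :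
    |bump δ (tt X (n + 1)) - ((n : ℝ) + 1) / X * bump δ (tt X n)| ≤ (1 + (δ + 1) * δ) / √X := by
  have hX0 : 0 < X := by linarith
  have hs : 0 < √X := Real.sqrt_pos.2 hX0
  have hs1 : 1 ≤ √X := Real.one_le_sqrt.2 hX
  have hXX : √X * √X = X := Real.mul_self_sqrt hX0.le
  have e1 : tt X (n + 1) - tt X n = 1 / √X := by
    unfold tt
    push_cast
    field_simp
    ring
  have e2 : ((n : ℝ) + 1) / X = 1 + tt X (n + 1) / √X := by
    unfold tt
    push_cast
    rw [div_div, hXX]
    field_simp
    ring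
  rw [e2, show bump δ (tt X (n + 1)) - (1 + tt X (n + 1) / √X) * bump δ (tt X n) =
    (bump δ (tt X (n + 1)) - bump δ (tt X n)) - tt X (n + 1) / √X * bump δ (tt X n) by ring]
  have h1 := bump_lip δ (tt X (n + 1)) (tt X n)
  rw [e1, abs_of_pos (show 0 < 1 / √X by positivity)] at h1
  have h2 : |tt X (n + 1) / √X * bump δ (tt X n)| ≤ (δ + 1) * δ / √X := by
    rcases (bump_nonneg δ (tt X n)).eq_or_lt with h0 | h0
    · rw [← h0, mul_zero, abs_zero]
      positivity
    · obtain ⟨g1, g2⟩ := bump_pos h0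
      have g3 : |tt X (n + 1)| ≤ δ + 1 := by
        have : tt X (n + 1) = tt X n + 1 / √X := by linarith
        rw [this]
        have h5 : 1 / √X ≤ 1 := by rw [div_le_one hs]; exact hs1
        have h6 : 0 < 1 / √X := by positivity
        rw [abs_of_pos (by linarith)]
        linarith
      rw [abs_mul, abs_div, abs_of_pos hs, abs_of_pos h0]
      have h7 := bump_le hδ (tt X n)
      rw [div_mul_eq_mul_div]
      apply div_le_div_of_nonneg_right _ hs.le
      apply mul_le_mul g3 h7 h0.le (by linarith)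
  refine (abs_sub _ _).trans ?_
  rw [add_div]
  linarith

/-- the sums of two consecutive terms have the same weighted sums -/
theorem Adm.ws_su {u : ℕ → ℝ} (h : Adm u) {q : ℕ} (hq : q ≤ 1) {a A : ℝ} (hA : 0 < A)
    (H : Tendsto (fun X : ℝ => egf u X / (Real.exp X * X ^ a)) atTop (𝓝 A)) {δ : ℝ} (hδ : 0 < δ) :
    Tendsto (fun X : ℝ => ws (PS.su q u) δ X / (Real.exp X * X ^ a)) atTop (𝓝 (A * gi δ)) := by
  have h1 := h.ws_lim hA H hδ
  have h2 : Tendsto (fun X : ℝ => (1 + (δ + 1) * δ) / √X * (egf u X / (Real.exp X * X ^ a))) atTop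
      (𝓝 (0 * A)) := (tendsto_const_nhds.div_atTop Real.tendsto_sqrt_atTop).mul H
  rw [zero_mul] at h2
  have h3 : Tendsto (fun X : ℝ => ws u δ X / (Real.exp X * X ^ a) -
      ws (PS.su q u) δ X / (Real.exp X * X ^ a)) atTop (𝓝 0) := by
    rw [tendsto_zero_iff_norm_tendsto_zero]
    refine squeeze_zero' (Eventually.of_forall fun _ => norm_nonneg _) ?_ h2
    filter_upwards [eventually_ge_atTop 1] with X hX
    have hX0 : 0 < X := by linarith
    have hXa : 0 < X ^ a := Real.rpow_pos_of_pos hX0 a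
    have he := Real.exp_pos X
    have hs : 0 < √X := Real.sqrt_pos.2 hX0
    have hP : 0 < Real.exp X * X ^ a := by positivity
    rw [← sub_div, Real.norm_eq_abs, abs_div, abs_of_pos hP, mul_div_assoc']
    apply div_le_div_of_nonneg_right _ hP.le
    -- the sums
    have s1 := h.summ_bump hδ hX0.le
    have s2 := (h.su q).summ_bump hδ hX0.le
    have s3 : Summable (fun n => ind q n * (tm u X n * bump δ (tt X n))) := by
      refine Summable.of_nonneg_of_le (fun n => ?_) (fun n => ?_) s1
      · exact mul_nonneg (ind_nonneg _ _) (mul_nonneg (tm_nonneg h.nonneg hX0.le n) (bump_nonneg _ _))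
      · have := mul_nonneg (tm_nonneg h.nonneg hX0.le n) (bump_nonneg δ (tt X n))
        have := ind_le q n
        nlinarith
    have s4 : Summable (fun n => (1 - ind q n) * (tm u X n * bump δ (tt X n))) := by
      have := s1.sub s3
      refine this.congr fun n => ?_
      ring
    have e1 : ws u δ X = ∑' n, ind q n * (tm u X n * bump δ (tt X n)) +
        ∑' n, (1 - ind q n) * (tm u X n * bump δ (tt X n)) := by
      rw [← s3.tsum_add s4]
      unfold ws
      refine tsum_congr fun n => ?_
      ring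
    have h00 : bump δ (tt X 0) = 0 := by
      by_contra hc
      have h5 : 0 < bump δ (tt X 0) := lt_of_le_of_ne (bump_nonneg _ _) (Ne.symm hc)
      have h6 := (bump_pos h5).1
      unfold tt at h6
      rw [Nat.cast_zero, zero_sub, neg_div] at h6
      have : 0 < X / √X := by positivity
      linarith
    have e2 : ∑' n, (1 - ind q n) * (tm u X n * bump δ (tt X n)) =
        ∑' n, ind q n * (tm u X (n + 1) * bump δ (tt X (n + 1))) := by
      rw [s4.tsum_eq_zero_add, h00]
      simp only [mul_zero, zero_add]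
      refine tsum_congr fun n => ?_
      rw [ind_succ hq]
    have s5 : Summable (fun n => ind q n * (tm u X (n + 1) * bump δ (tt X (n + 1)))) := by
      have := (summable_nat_add_iff 1).2 s4
      refine this.congr fun n => ?_
      rw [ind_succ hq]
    have e3 : ∀ n, tm (PS.su q u) X n * bump δ (tt X n) =
        ind q n * (tm u X n * bump δ (tt X n)) +
        ind q n * (tm u X (n + 1) * (((n : ℝ) + 1) / X * bump δ (tt X n))) := by
      intro n
      unfold tm PS.su
      rw [Nat.factorial_succ, pow_succ]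
      push_cast
      have : (0 : ℝ) < n.factorial := by positivity
      have : (0 : ℝ) < (n : ℝ) + 1 := by positivity
      field_simp
    have s6 : Summable (fun n => ind q n * (tm u X (n + 1) * (((n : ℝ) + 1) / X * bump δ (tt X n)))) := by
      have := s2.sub s3
      refine this.congr fun n => ?_
      rw [e3]
      ring
    have e4 : ws (PS.su q u) δ X = ∑' n, ind q n * (tm u X n * bump δ (tt X n)) +
        ∑' n, ind q n * (tm u X (n + 1) * (((n : ℝ) + 1) / X * bump δ (tt X n))) := by
      rw [← s3.tsum_add s6]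
      unfold ws
      exact tsum_congr e3
    rw [e1, e2, e4, add_sub_add_left_eq_sub, ← s5.tsum_sub s6]
    have s7 : Summable (fun n => (1 + (δ + 1) * δ) / √X * tm u X (n + 1)) :=
      ((summable_nat_add_iff 1).2 (h.summ X)).mul_left _
    have hb : ∀ n, ‖ind q n * (tm u X (n + 1) * bump δ (tt X (n + 1))) -
        ind q n * (tm u X (n + 1) * (((n : ℝ) + 1) / X * bump δ (tt X n)))‖ ≤
        (1 + (δ + 1) * δ) / √X * tm u X (n + 1) := by
      intro n
      have k1 := near_b hδ hX n
      have k2 := tm_nonneg h.nonneg hX0.le (n + 1)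
      have k3 := ind_nonneg q n
      have k4 := ind_le q n
      rw [Real.norm_eq_abs, show ind q n * (tm u X (n + 1) * bump δ (tt X (n + 1))) -
        ind q n * (tm u X (n + 1) * (((n : ℝ) + 1) / X * bump δ (tt X n))) =
        ind q n * (tm u X (n + 1) * (bump δ (tt X (n + 1)) - ((n : ℝ) + 1) / X * bump δ (tt X n))) by ring,
        abs_mul, abs_mul, abs_of_nonneg k3, abs_of_nonneg k2]
      have k5 := mul_le_mul_of_nonneg_left k1 k2
      have k6 : 0 ≤ tm u X (n + 1) * |bump δ (tt X (n + 1)) - ((n : ℝ) + 1) / X * bump δ (tt X n)| := by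
        positivity
      nlinarith
    refine (norm_tsum_le_tsum_norm (s7.of_nonneg_of_le (fun n => norm_nonneg _) hb)).trans ?_
    refine ((s7.of_nonneg_of_le (fun n => norm_nonneg _) hb).tsum_le_tsum hb s7).trans ?_
    rw [tsum_mul_left]
    have k7 : ∑' n, tm u X (n + 1) ≤ egf u X := by
      unfold egf
      rw [(h.summ X).tsum_eq_zero_add]
      have := tm_nonneg h.nonneg hX0.le 0
      linarith
    gcongr
  have h4 := h1.sub h3
  rw [sub_zero] at h4
  refine h4.congr fun X => ?_
  ring

end Pool.Agent.K3h54.PS
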