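import Pool.Agent.K3h54.PS.Exp

/-!
# Sums of two consecutive coefficients and the exponential generating function: the converse
-/

set_option autoImplicit false
set_option linter.unusedVariables false

namespace Pool.Agent.K3h54.PS

open Filter Topology MeasureTheory ProbabilityTheory
open Pool.Agent.R956.K1

variable {u : ℕ → ℝ} {D : ℝ}

/-- exponential moments -/
theorem expmom (h : Adm u) {g K : ℝ} (hg : 0 ≤ g) (hK : 0 ≤ K)
    (H : ∀ᶠ X : ℝ in atTop, egf u X ≤ K * (Real.exp X * X ^ g)) :
    ∀ᶠ X : ℝ in atTop, ∀ s : ℝ, |s| ≤ √X / 2 → ∑' n, tm u X n * Real.exp (s * tt X n) ≤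
      K * 2 ^ g * (Real.exp X * X ^ g) * Real.exp (s ^ 2) := by
  obtain ⟨X0, hX0⟩ := eventually_atTop.1 H
  filter_upwards [eventually_ge_atTop (2 * |X0| + 1)] with X hX s hs2
  have hX1 : 0 < X := by
    have := abs_nonneg X0
    linarith
  have hs : 0 < √X := Real.sqrt_pos.2 hX1
  have hXX : √X * √X = X := Real.mul_self_sqrt hX1.le
  have hXg : 0 < X ^ g := Real.rpow_pos_of_pos hX1 g
  have he := Real.exp_pos X
  rw [h.tsum_exp hX1]
  obtain ⟨y, hy⟩ : ∃ y : ℝ, y = s / √X := ⟨_, rfl⟩
  have hy1 : |y| ≤ 1 / 2 := by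
    rw [hy, abs_div, abs_of_pos hs, div_le_iff₀ hs]
    linarith
  have hy2 : |y| ≤ 1 := by linarith
  have hsy : s = y * √X := by rw [hy]; field_simp
  rw [← hy]
  have hexp := Real.abs_exp_sub_one_sub_id_le hy2
  have e1 := (abs_le.1 hexp).2
  have hy4 : y ^ 2 ≤ 1 / 4 := by
    rw [← sq_abs]
    nlinarith [abs_nonneg y]
  have hye := abs_le.1 hy1
  have hup : Real.exp y ≤ 2 := by linarith [hye.2]
  have hlo : 1 / 2 ≤ Real.exp y := by
    have := Real.add_one_le_exp y
    linarith [hye.1]
  have hφ : |X0| ≤ X * Real.exp y := by nlinarith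
  have h1 := hX0 (X * Real.exp y) ((le_abs_self X0).trans hφ)
  have h2 : (X * Real.exp y) ^ g ≤ X ^ g * 2 ^ g := by
    rw [← Real.mul_rpow hX1.le (show (0 : ℝ) ≤ 2 by norm_num)]
    apply Real.rpow_le_rpow (by positivity) _ hg
    exact mul_le_mul_of_nonneg_left hup hX1.le
  have h3 : Real.exp (-(s * √X)) * Real.exp (X * Real.exp y) ≤ Real.exp X * Real.exp (s ^ 2) := by
    rw [← Real.exp_add, ← Real.exp_add]
    apply Real.exp_le_exp.2
    have e2 : s * √X = y * X := by rw [hsy, mul_assoc, hXX]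
    have e3 : s ^ 2 = y ^ 2 * X := by rw [hsy]; nlinarith
    rw [e2, e3]
    nlinarith
  calc Real.exp (-(s * √X)) * egf u (X * Real.exp y) ≤
      Real.exp (-(s * √X)) * (K * (Real.exp (X * Real.exp y) * (X * Real.exp y) ^ g)) := by gcongr
    _ ≤ Real.exp (-(s * √X)) * (K * (Real.exp (X * Real.exp y) * (X ^ g * 2 ^ g))) := by gcongr
    _ = K * (X ^ g * 2 ^ g) * (Real.exp (-(s * √X)) * Real.exp (X * Real.exp y)) := by ring
    _ ≤ K * (X ^ g * 2 ^ g) * (Real.exp X * Real.exp (s ^ 2)) := by gcongr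
    _ = _ := by ring

/-- the first absolute moment of the deviation is negligible -/
theorem dev_small (h : Adm u) {g K : ℝ} (hg : 0 ≤ g) (hK : 0 ≤ K)
    (H : ∀ᶠ X : ℝ in atTop, egf u X ≤ K * (Real.exp X * X ^ g)) :
    Tendsto (fun X : ℝ => (∑' n, tm u X n * |(n : ℝ) / X - 1|) / (Real.exp X * X ^ g)) atTop (𝓝 0) ∧
    ∀ᶠ X : ℝ in atTop, Summable (fun n => tm u X n * |(n : ℝ) / X - 1|) := by
  have hc : Tendsto (fun X : ℝ => 2 * (K * 2 ^ g * Real.exp 1) / √X) atTop (𝓝 0) :=
    tendsto_const_nhds.div_atTop Real.tendsto_sqrt_atTop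
  have key : ∀ᶠ X : ℝ in atTop, Summable (fun n => tm u X n * |(n : ℝ) / X - 1|) ∧
      (∑' n, tm u X n * |(n : ℝ) / X - 1|) / (Real.exp X * X ^ g) ≤
        2 * (K * 2 ^ g * Real.exp 1) / √X := by
    filter_upwards [expmom h hg hK H, eventually_ge_atTop 4] with X hX hX4
    have hX1 : 0 < X := by linarith
    have hs : 0 < √X := Real.sqrt_pos.2 hX1
    have hXX : √X * √X = X := Real.mul_self_sqrt hX1.le
    have hXg : 0 < X ^ g := Real.rpow_pos_of_pos hX1 g
    have he := Real.exp_pos X
    have hs2 : 2 ≤ √X := Real.le_sqrt_of_sq_le (by linarith)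
    have k1 := hX 1 (by rw [abs_one]; linarith)
    have k2 := hX (-1) (by rw [abs_neg, abs_one]; linarith)
    rw [one_pow] at k1
    rw [show ((-1 : ℝ)) ^ 2 = 1 by norm_num] at k2
    have s1 := h.summ_exp hX1 1
    have s2 := h.summ_exp hX1 (-1)
    have s3 : Summable (fun n => 1 / √X * (tm u X n * Real.exp (1 * tt X n) +
        tm u X n * Real.exp ((-1) * tt X n))) := (s1.add s2).mul_left _
    have hb : ∀ n, tm u X n * |(n : ℝ) / X - 1| ≤ 1 / √X * (tm u X n * Real.exp (1 * tt X n) +
        tm u X n * Real.exp ((-1) * tt X n)) := by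
      intro n
      have t0 := tm_nonneg h.nonneg hX1.le n
      have e1 : |(n : ℝ) / X - 1| = 1 / √X * |tt X n| := by
        unfold tt
        rw [abs_div, abs_of_pos hs, one_div_mul_eq_div, div_div, hXX]
        rw [← abs_of_pos hX1, ← abs_div, abs_of_pos hX1]
        congr 1
        field_simp
      have e2 : |tt X n| ≤ Real.exp (1 * tt X n) + Real.exp ((-1) * tt X n) := by
        have h3 : |tt X n| ≤ Real.exp |tt X n| := by
          have := Real.add_one_le_exp |tt X n|
          linarith
        have h1 := Real.exp_pos (1 * tt X n)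
        have h2 := Real.exp_pos ((-1) * tt X n)
        refine h3.trans ?_
        rcases abs_cases (tt X n) with ⟨hc, _⟩ | ⟨hc, _⟩
        · rw [hc]
          have : Real.exp (tt X n) = Real.exp (1 * tt X n) := by rw [one_mul]
          linarith
        · rw [hc]
          have : Real.exp (-(tt X n)) = Real.exp ((-1) * tt X n) := by rw [neg_one_mul]
          linarith
      rw [e1]
      calc tm u X n * (1 / √X * |tt X n|) ≤ tm u X n * (1 / √X * (Real.exp (1 * tt X n) +
            Real.exp ((-1) * tt X n))) := by gcongr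
        _ = _ := by ring
    have s4 : Summable (fun n => tm u X n * |(n : ℝ) / X - 1|) :=
      s3.of_nonneg_of_le (fun n => mul_nonneg (tm_nonneg h.nonneg hX1.le n) (abs_nonneg _)) hb
    refine ⟨s4, ?_⟩
    rw [div_le_iff₀ (by positivity)]
    refine (s4.tsum_le_tsum hb s3).trans ?_
    rw [tsum_mul_left, s1.tsum_add s2]
    calc 1 / √X * (∑' n, tm u X n * Real.exp (1 * tt X n) + ∑' n, tm u X n * Real.exp ((-1) * tt X n)) ≤
        1 / √X * (K * 2 ^ g * (Real.exp X * X ^ g) * Real.exp 1 +
          K * 2 ^ g * (Real.exp X * X ^ g) * Real.exp 1) := by gcongr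
      _ = _ := by ring
  refine ⟨?_, key.mono fun X hX => hX.1⟩
  refine squeeze_zero' ?_ (key.mono fun X hX => hX.2) hc
  filter_upwards [eventually_gt_atTop 0] with X hX
  have hXg : 0 < X ^ g := Real.rpow_pos_of_pos hX g
  refine div_nonneg (tsum_nonneg fun n => ?_) (by positivity)
  exact mul_nonneg (tm_nonneg h.nonneg hX.le n) (abs_nonneg _)

lemma Adm.shift_sum {u : ℕ → ℝ} (h : Adm u) : Adm (fun n => u n + u (n + 1)) := by
  refine ⟨fun n => add_nonneg (h.nonneg _) (h.nonneg _), fun X => ?_⟩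
  refine ((h.summ X).add (summ_shift h X)).congr fun n => ?_
  unfold tm
  ring

/-- **sums of two consecutive terms**: to the exponential generating function -/
theorem Rg.egf_of_sum (R : Rg u D) {a A : ℝ} (hA : 0 < A)
    (H : Tendsto (fun n : ℕ => (u n + u (n + 1)) / (n : ℝ) ^ a) atTop (𝓝 (2 * A))) :
    Tendsto (fun X : ℝ => egf u X / (Real.exp X * X ^ a)) atTop (𝓝 A) := by
  -- `a` is nonnegative
  have ha : 0 ≤ a := by
    by_contra hneg
    push Not at hneg
    have h2 : Tendsto (fun n : ℕ => (n : ℝ) ^ (-a)) atTop atTop :=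
      (tendsto_rpow_atTop (by linarith)).comp tendsto_natCast_atTop_atTop
    have h3 : Tendsto (fun n : ℕ => (u n + u (n + 1)) / (n : ℝ) ^ a) atTop atTop := by
      refine tendsto_atTop_mono' _ ?_ h2
      filter_upwards [eventually_ge_atTop 1] with n hn
      have hn0 : (0 : ℝ) < n := by exact_mod_cast hn
      rw [Real.rpow_neg hn0.le, inv_eq_one_div]
      have := Real.rpow_pos_of_pos hn0 a
      gcongr
      have h4 := R.one n
      have h5 := R.one (n + 1)
      linarith
    exact not_tendsto_atTop_of_tendsto_nhds H h3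
  have hs := R.adm.shift_sum
  -- the generating function of the sums
  have h1 : Tendsto (fun X : ℝ => egf (fun n => u n + u (n + 1)) X / (Real.exp X * X ^ a)) atTop
      (𝓝 (2 * A)) := by
    rw [Metric.tendsto_nhds] at H ⊢
    intro ε hε
    obtain ⟨τ, hτ⟩ : ∃ τ : ℝ, τ = min A (ε / 2) := ⟨_, rfl⟩
    have hτ0 : 0 < τ := by rw [hτ]; positivity
    have hτ1 : τ ≤ A := by rw [hτ]; exact min_le_left _ _
    have hτ2 : τ ≤ ε / 2 := by rw [hτ]; exact min_le_right _ _
    have k1 : ∀ᶠ n : ℕ in atTop, u n + u (n + 1) ≤ (2 * A + τ) * pw a n := by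
      filter_upwards [H τ hτ0, eventually_ge_atTop 1] with n hn hn1
      have hn0 : (0 : ℝ) < n := by exact_mod_cast hn1
      have hna := Real.rpow_pos_of_pos hn0 a
      rw [Real.dist_eq, abs_lt] at hn
      unfold pw
      rw [← div_le_iff₀ hna]
      linarith
    have k2 : ∀ᶠ n : ℕ in atTop, (2 * A - τ) * pw a n ≤ u n + u (n + 1) := by
      filter_upwards [H τ hτ0, eventually_ge_atTop 1] with n hn hn1
      have hn0 : (0 : ℝ) < n := by exact_mod_cast hn1
      have hna := Real.rpow_pos_of_pos hn0 a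
      rw [Real.dist_eq, abs_lt] at hn
      unfold pw
      rw [← le_div_iff₀ hna]
      linarith
    filter_upwards [dom_le hs (adm_pw ha) ha (by linarith) (egf_pw_lim ha) k1
        (show 0 < ε / 4 by positivity),
      dom_ge hs (adm_pw ha) ha (by linarith) (egf_pw_lim ha) k2 (show 0 < ε / 4 by positivity)]
      with X g1 g2
    rw [Real.dist_eq, abs_lt]
    constructor <;> linarith
  -- a bound of the generating function of `u`
  have h2 : ∀ᶠ X : ℝ in atTop, egf u X ≤ (2 * A + 1) * (Real.exp X * X ^ a) := by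
    filter_upwards [h1.eventually_lt_const (show 2 * A < 2 * A + 1 by linarith),
      eventually_gt_atTop 0] with X g hX
    have hXa : 0 < X ^ a := Real.rpow_pos_of_pos hX a
    rw [div_lt_iff₀ (by positivity)] at g
    refine le_trans ?_ g.le
    refine (R.adm.summ X).tsum_le_tsum (fun n => ?_) (hs.summ X)
    unfold tm
    have := R.adm.nonneg (n + 1)
    gcongr
    linarith
  obtain ⟨h3, h4⟩ := dev_small R.adm ha (by positivity) h2
  have h5 := fin_small ha u 1
  -- comparison
  have h6 : Tendsto (fun X : ℝ => (egf (fun n => u n + u (n + 1)) X - 2 * egf u X) /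
      (Real.exp X * X ^ a)) atTop (𝓝 0) := by
    rw [tendsto_zero_iff_norm_tendsto_zero]
    have h7 := h3.add h5
    rw [add_zero] at h7
    refine squeeze_zero' (Eventually.of_forall fun _ => norm_nonneg _) ?_ h7
    filter_upwards [h4, eventually_gt_atTop 0] with X g hX
    have hXa : 0 < X ^ a := Real.rpow_pos_of_pos hX a
    have hP : 0 < Real.exp X * X ^ a := by positivity
    rw [Real.norm_eq_abs, abs_div, abs_of_pos hP, ← add_div]
    apply div_le_div_of_nonneg_right _ hP.le
    have s1 := R.adm.summ X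
    have s2 := summ_shift R.adm X
    have s3 := (summable_nat_add_iff 1).2 s1
    have s4 := (summable_nat_add_iff 1).2 g
    have e1 : egf (fun n => u n + u (n + 1)) X = egf u X + ∑' n, u (n + 1) * X ^ n / (n.factorial : ℝ) := by
      unfold egf
      rw [← s1.tsum_add s2]
      refine tsum_congr fun n => ?_
      unfold tm
      ring
    have e2 : egf u X = tm u X 0 + ∑' n, tm u X (n + 1) := by
      unfold egf
      rw [s1.tsum_eq_zero_add]
    have e3 : egf (fun n => u n + u (n + 1)) X - 2 * egf u X =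
        (∑' n, (u (n + 1) * X ^ n / (n.factorial : ℝ) - tm u X (n + 1))) - tm u X 0 := by
      rw [s2.tsum_sub s3, e1]
      linarith
    have e4 : ∀ n, |u (n + 1) * X ^ n / (n.factorial : ℝ) - tm u X (n + 1)| =
        tm u X (n + 1) * |((n + 1 : ℕ) : ℝ) / X - 1| := by
      intro n
      have t0 := tm_nonneg R.adm.nonneg hX.le (n + 1)
      have e5 : u (n + 1) * X ^ n / (n.factorial : ℝ) - tm u X (n + 1) =
          tm u X (n + 1) * (((n + 1 : ℕ) : ℝ) / X - 1) := by
        unfold tm
        rw [Nat.factorial_succ, pow_succ]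
        push_cast
        have : (0 : ℝ) < n.factorial := by positivity
        have : (0 : ℝ) < (n : ℝ) + 1 := by positivity
        field_simp
      rw [e5, abs_mul, abs_of_nonneg t0]
    rw [e3]
    refine (abs_sub _ _).trans ?_
    have h8 : |∑' n, (u (n + 1) * X ^ n / (n.factorial : ℝ) - tm u X (n + 1))| ≤
        ∑' n, tm u X n * |(n : ℝ) / X - 1| := by
      have s5 : Summable (fun n => ‖u (n + 1) * X ^ n / (n.factorial : ℝ) - tm u X (n + 1)‖) := by
        refine s4.congr fun n => ?_
        rw [Real.norm_eq_abs, e4]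
      have h9 := norm_tsum_le_tsum_norm s5
      rw [Real.norm_eq_abs] at h9
      refine h9.trans ?_
      rw [g.tsum_eq_zero_add]
      have h10 : 0 ≤ tm u X 0 * |((0 : ℕ) : ℝ) / X - 1| :=
        mul_nonneg (tm_nonneg R.adm.nonneg hX.le 0) (abs_nonneg _)
      have h11 : ∑' n, ‖u (n + 1) * X ^ n / (n.factorial : ℝ) - tm u X (n + 1)‖ =
          ∑' n, tm u X (n + 1) * |((n + 1 : ℕ) : ℝ) / X - 1| := by
        refine tsum_congr fun n => ?_
        rw [Real.norm_eq_abs, e4]
      rw [h11]
      linarith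
    rw [Finset.sum_range_one]
    linarith
  have h12 := (h1.sub h6).div_const 2
  rw [sub_zero, mul_div_cancel_left₀ _ (two_ne_zero)] at h12
  refine h12.congr fun X => ?_
  ring

end Pool.Agent.K3h54.PS
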