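import Pool.Agent.K3h54.PS.Z3
import Pool.Agent.K3h54.PS.Low

/-!
# Short windows of lengths
-/

set_option autoImplicit false
set_option linter.unusedVariables false

namespace Pool.Agent.K3h54.PS

open Filter Topology
open Pool.Agent.R956.K1

variable {u : ℕ → ℝ} {D : ℝ}

/-- **three lengths** -/
theorem Rg.three (R : Rg u D) : ∃ N0 : ℕ, ∀ n : ℕ, N0 ≤ n → ∀ j : ℕ, 4 * j < n →
    2 * Real.log (u n) ≤ Real.log (u (n - 2 * j)) + Real.log (u (n + 2 * j)) +
      8 * D * (j : ℝ) ^ 2 / n := by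
  obtain ⟨A0, h0⟩ := (Nc.of_kc (R.kc 0 (by norm_num))).three
  obtain ⟨A1, h1⟩ := (Nc.of_kc (R.kc 1 le_rfl)).three
  have hD := (R.kc 0 (by norm_num)).D0
  refine ⟨2 * (A0 + A1) + 4, fun n hn j hj => ?_⟩
  have hn0 : (0 : ℝ) < n := by exact_mod_cast (show 0 < n by omega)
  rcases Nat.eq_zero_or_pos j with h00 | hj0
  · subst h00
    simp
    linarith
  have hj0' : (0 : ℝ) < j := by exact_mod_cast hj0
  have key : ∀ q : ℕ, q ≤ 1 → n % 2 = q → (∀ m : ℕ, (A0 + A1) ≤ m → ∀ p m' r : ℕ, m ≤ 2 * p → p ≤ m' →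
      m' ≤ r → ((r : ℝ) - p) * Real.log (u (2 * m' + q)) ≤ ((r : ℝ) - m') * Real.log (u (2 * p + q)) +
        ((m' : ℝ) - p) * Real.log (u (2 * r + q)) + D / m * (((r : ℝ) - p) * ((m' - p) * (r - m')))) →
      2 * Real.log (u n) ≤ Real.log (u (n - 2 * j)) + Real.log (u (n + 2 * j)) +
        8 * D * (j : ℝ) ^ 2 / n := by
    intro q hq hnq h
    obtain ⟨k, hk⟩ : ∃ k, n = 2 * k + q := ⟨n / 2, by omega⟩
    have hk0 : (0 : ℝ) < k := by exact_mod_cast (show 0 < k by omega)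
    have h2 := h k (by omega) (k - j) k (k + j) (by omega) (by omega) (by omega)
    rw [Nat.cast_sub (by omega)] at h2
    push_cast at h2
    rw [show n - 2 * j = 2 * (k - j) + q by omega, show n + 2 * j = 2 * (k + j) + q by omega]
    nth_rewrite 1 [hk]
    have e1 : ((k : ℝ) + j - (k - j)) = 2 * j := by ring
    have e2 : ((k : ℝ) + j - k) = j := by ring
    have e3 : ((k : ℝ) - (k - j)) = j := by ring
    rw [e1, e2, e3] at h2
    have h3 : (j : ℝ) * (2 * Real.log (u (2 * k + q))) ≤ j * (Real.log (u (2 * (k - j) + q)) +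
        Real.log (u (2 * (k + j) + q)) + D / k * (2 * (j : ℝ) ^ 2)) := by
      nlinarith
    have h4 := le_of_mul_le_mul_left h3 hj0'
    have h5 : D / k * (2 * (j : ℝ) ^ 2) ≤ 8 * D * (j : ℝ) ^ 2 / n := by
      rw [div_mul_eq_mul_div, div_le_div_iff₀ hk0 hn0]
      have h6 : (n : ℝ) ≤ 4 * k := by exact_mod_cast (show n ≤ 4 * k by omega)
      have h7 : 0 ≤ D * (2 * (j : ℝ) ^ 2) := by positivity
      nlinarith [mul_le_mul_of_nonneg_left h6 h7]
    linarith
  rcases Nat.mod_two_eq_zero_or_one n with h | h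
  · exact key 0 (by norm_num) h fun m hm p m' r => h0 m (by omega) p m' r
  · exact key 1 le_rfl h fun m hm p m' r => h1 m (by omega) p m' r

/-- three lengths, without logarithms -/
theorem Rg.three' (R : Rg u D) : ∃ N0 : ℕ, ∀ n : ℕ, N0 ≤ n → ∀ j : ℕ, 4 * j < n →
    u n ^ 2 ≤ Real.exp (8 * D * (j : ℝ) ^ 2 / n) * (u (n - 2 * j) * u (n + 2 * j)) := by
  obtain ⟨N0, h⟩ := R.three
  refine ⟨N0, fun n hn j hj => ?_⟩
  have h1 := h n hn j hj
  have p0 := R.pos n
  have p1 := R.pos (n - 2 * j)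
  have p2 := R.pos (n + 2 * j)
  have h2 : Real.log (u n ^ 2) ≤ Real.log (Real.exp (8 * D * (j : ℝ) ^ 2 / n) *
      (u (n - 2 * j) * u (n + 2 * j))) := by
    rw [Real.log_pow, Real.log_mul (Real.exp_pos _).ne' (by positivity), Real.log_exp,
      Real.log_mul p1.ne' p2.ne']
    push_cast
    linarith
  exact (Real.log_le_log_iff (by positivity) (by positivity)).1 h2

/-- **windows, upper bounds** -/
theorem Rg.win_le (R : Rg u D) {q : ℕ} (hq : q ≤ 1) {a A : ℝ} (hA : 0 < A)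
    (h : ∀ δ : ℝ, 0 < δ → ∀ᶠ n : ℕ in atTop, ∃ m : ℕ, n ≤ m ∧ (m : ℝ) ≤ n + δ * √(n : ℝ) ∧
      m % 2 = q ∧ u m / (m : ℝ) ^ a ≤ A + δ) {ε : ℝ} (hε : 0 < ε) :
    ∀ᶠ n : ℕ in atTop, n % 2 = q → u n / (n : ℝ) ^ a ≤ A + ε := by
  obtain ⟨τ, hτ⟩ : ∃ τ : ℝ, τ = Real.log ((A + ε) / A) := ⟨_, rfl⟩
  have hτ0 : 0 < τ := by
    rw [hτ]
    apply Real.log_pos
    rw [lt_div_iff₀ hA]
    linarith
  have h1 := cls_upper (l := fun n => Real.log (u n)) (E := fun _ => 1) (Nc.of_kc (R.kc q hq)) hq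
    sc_one a (Real.log A) (fun δ hδ τ' hτ' => by
      obtain ⟨δ', hδ'⟩ : ∃ δ' : ℝ, δ' = min δ (A * τ') := ⟨_, rfl⟩
      have hδ0 : 0 < δ' := by rw [hδ']; positivity
      filter_upwards [h δ' hδ0, eventually_ge_atTop 1] with n hn hn1
      obtain ⟨m, m1, m2, m3, m4⟩ := hn
      have hm0 : (0 : ℝ) < m := by exact_mod_cast (show 0 < m by omega)
      have hma := Real.rpow_pos_of_pos hm0 a
      refine ⟨m, m1, ?_, m3, ?_⟩
      · rw [mul_one]
        refine m2.trans ?_
        have : δ' ≤ δ := by rw [hδ']; exact min_le_left _ _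
        gcongr
      · rw [div_le_iff₀ hma] at m4
        have h2 := Real.log_le_log (R.pos m) m4
        rw [Real.log_mul (by positivity) hma.ne', Real.log_rpow hm0] at h2
        have h3 : Real.log (A + δ') ≤ Real.log A + τ' := by
          have e : A + δ' = A * (1 + δ' / A) := by field_simp
          rw [e, Real.log_mul hA.ne' (by positivity)]
          have h4 := Real.log_le_sub_one_of_pos (show 0 < 1 + δ' / A by positivity)
          have h5 : δ' / A ≤ τ' := by
            rw [div_le_iff₀ hA]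
            have : δ' ≤ A * τ' := by rw [hδ']; exact min_le_right _ _
            linarith
          linarith
        linarith) hτ0
  filter_upwards [h1, eventually_ge_atTop 1] with n hn hn1 hnq
  have h2 := hn hnq
  have hn0 : (0 : ℝ) < n := by exact_mod_cast hn1
  have hna := Real.rpow_pos_of_pos hn0 a
  rw [hτ, Real.log_div (by positivity) hA.ne'] at h2
  rw [div_le_iff₀ hna, ← Real.log_le_log_iff (R.pos n) (by positivity),
    Real.log_mul (by positivity) hna.ne', Real.log_rpow hn0]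
  linarith

/-- **windows, lower bounds** -/
theorem Rg.win_ge (R : Rg u D) {q : ℕ} (hq : q ≤ 1) {a A B : ℝ} (hA : 0 < A)
    (hup : ∀ᶠ n : ℕ in atTop, n % 2 = q → u n / (n : ℝ) ^ a ≤ B)
    (h : ∀ δ : ℝ, 0 < δ → ∀ᶠ n : ℕ in atTop, ∃ m : ℕ, n ≤ m ∧ (m : ℝ) ≤ n + δ * √(n : ℝ) ∧
      m % 2 = q ∧ A - δ ≤ u m / (m : ℝ) ^ a) {ε : ℝ} (hε : 0 < ε) :
    ∀ᶠ n : ℕ in atTop, n % 2 = q → A - ε ≤ u n / (n : ℝ) ^ a := by
  have hl : ∀ {τ : ℝ}, 0 < τ → ∀ᶠ n : ℕ in atTop, n % 2 = q →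
      a * Real.log n + Real.log A - τ * 1 ≤ Real.log (u n) := fun {τ} hτ =>
    cls_lowerK (l := fun n => Real.log (u n)) (E := fun _ => 1) (Nc.of_kc (R.kc q hq)) hq
    sc_one a (Real.log A) (K := |Real.log (|B| + 1) - Real.log A|) (abs_nonneg _) (by
      filter_upwards [hup, eventually_ge_atTop 1] with n hn hn1 hnq
      have m4 := (hn hnq).trans (show B ≤ |B| + 1 by linarith [le_abs_self B])
      have hm0 : (0 : ℝ) < n := by exact_mod_cast hn1
      have hma := Real.rpow_pos_of_pos hm0 a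
      rw [div_le_iff₀ hma] at m4
      have h2 := Real.log_le_log (R.pos n) m4
      rw [Real.log_mul (by positivity) hma.ne', Real.log_rpow hm0] at h2
      have h3 := le_abs_self (Real.log (|B| + 1) - Real.log A)
      linarith) (fun δ hδ τ' hτ' => by
      obtain ⟨δ', hδ'⟩ : ∃ δ' : ℝ, δ' = min δ (min (A / 2) (A * τ' / 2)) := ⟨_, rfl⟩
      have hδ0 : 0 < δ' := by rw [hδ']; positivity
      have hδ1 : δ' ≤ δ := by rw [hδ']; exact min_le_left _ _
      have hδ2 : δ' ≤ A / 2 := by rw [hδ']; exact (min_le_right _ _).trans (min_le_left _ _)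
      have hδ3 : δ' ≤ A * τ' / 2 := by rw [hδ']; exact (min_le_right _ _).trans (min_le_right _ _)
      filter_upwards [h δ' hδ0, eventually_ge_atTop 1] with n hn hn1
      obtain ⟨m, m1, m2, m3, m4⟩ := hn
      have hm0 : (0 : ℝ) < m := by exact_mod_cast (show 0 < m by omega)
      have hma := Real.rpow_pos_of_pos hm0 a
      refine ⟨m, m1, ?_, m3, ?_⟩
      · rw [mul_one]
        refine m2.trans ?_
        gcongr
      · rw [le_div_iff₀ hma] at m4
        have hA2 : 0 < A - δ' := by linarith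
        have h2 := Real.log_le_log (by positivity) m4
        rw [Real.log_mul hA2.ne' hma.ne', Real.log_rpow hm0] at h2
        have h3 : Real.log A - τ' ≤ Real.log (A - δ') := by
          have h7 := Real.log_le_sub_one_of_pos (show 0 < A / (A - δ') by positivity)
          rw [Real.log_div hA.ne' hA2.ne'] at h7
          have e : A / (A - δ') - 1 = δ' / (A - δ') := by field_simp; ring
          have h5 : δ' / (A - δ') ≤ τ' := by
            rw [div_le_iff₀ hA2]
            nlinarith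
          linarith
        linarith) hτ
  obtain ⟨ε', hε'⟩ : ∃ ε' : ℝ, ε' = min ε (A / 2) := ⟨_, rfl⟩
  have hε0 : 0 < ε' := by rw [hε']; positivity
  have hε1 : ε' ≤ ε := by rw [hε']; exact min_le_left _ _
  have hε2 : ε' ≤ A / 2 := by rw [hε']; exact min_le_right _ _
  have hA2 : 0 < A - ε' := by linarith
  obtain ⟨τ, hτ⟩ : ∃ τ : ℝ, τ = Real.log (A / (A - ε')) := ⟨_, rfl⟩
  have hτ0 : 0 < τ := by
    rw [hτ]
    apply Real.log_pos
    rw [lt_div_iff₀ hA2]
    linarith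
  filter_upwards [hl hτ0, eventually_ge_atTop 1] with n hn hn1 hnq
  have h2 := hn hnq
  have hn0 : (0 : ℝ) < n := by exact_mod_cast hn1
  have hna := Real.rpow_pos_of_pos hn0 a
  rw [hτ, Real.log_div hA.ne' hA2.ne'] at h2
  have h3 : A - ε' ≤ u n / (n : ℝ) ^ a := by
    rw [le_div_iff₀ hna, ← Real.log_le_log_iff (by positivity) (R.pos n),
      Real.log_mul hA2.ne' hna.ne', Real.log_rpow hn0]
    linarith
  linarith

/-- **windows with points of both kinds** -/
theorem Rg.win_tend (R : Rg u D) {q : ℕ} (hq : q ≤ 1) {a A : ℝ} (hA : 0 < A)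
    (h : ∀ δ : ℝ, 0 < δ → ∀ᶠ n : ℕ in atTop,
      (∃ m : ℕ, n ≤ m ∧ (m : ℝ) ≤ n + δ * √(n : ℝ) ∧ m % 2 = q ∧ u m / (m : ℝ) ^ a ≤ A + δ) ∧
      (∃ m : ℕ, n ≤ m ∧ (m : ℝ) ≤ n + δ * √(n : ℝ) ∧ m % 2 = q ∧ A - δ ≤ u m / (m : ℝ) ^ a)) :
    Tendsto (fun n : ℕ => u n / (n : ℝ) ^ a) (atTop ⊓ 𝓟 {n | n % 2 = q}) (𝓝 A) := by
  have h1 : ∀ ε : ℝ, 0 < ε → ∀ᶠ n : ℕ in atTop, n % 2 = q → u n / (n : ℝ) ^ a ≤ A + ε := fun ε hε =>
    R.win_le hq hA (fun δ hδ => (h δ hδ).mono fun n hn => hn.1) hε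
  have h2 : ∀ ε : ℝ, 0 < ε → ∀ᶠ n : ℕ in atTop, n % 2 = q → A - ε ≤ u n / (n : ℝ) ^ a := fun ε hε =>
    R.win_ge hq hA (h1 1 one_pos) (fun δ hδ => (h δ hδ).mono fun n hn => hn.2) hε
  rw [Metric.tendsto_nhds]
  intro ε hε
  rw [eventually_inf_principal]
  filter_upwards [h1 (ε / 2) (by positivity), h2 (ε / 2) (by positivity)] with n g1 g2 hnq
  have g3 := g1 hnq
  have g4 := g2 hnq
  rw [Real.dist_eq, abs_lt]
  constructor <;> linarith

/-- powers of neighbouring numbers -/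
lemma pow_succ_tend (a : ℝ) : Tendsto (fun n : ℕ => ((n + 1 : ℕ) : ℝ) ^ a / (n : ℝ) ^ a) atTop (𝓝 1) := by
  have h1 : Tendsto (fun n : ℕ => ((n + 1 : ℕ) : ℝ) / n) atTop (𝓝 1) := by
    have h3 : Tendsto (fun n : ℕ => (1 : ℝ) + 1 / (n : ℝ)) atTop (𝓝 (1 + 0)) :=
      (tendsto_const_div_atTop_nhds_zero_nat (1 : ℝ)).const_add 1
    rw [add_zero] at h3
    refine h3.congr' ?_
    filter_upwards [eventually_gt_atTop 0] with n hn
    have : (n : ℝ) ≠ 0 := by exact_mod_cast (show n ≠ 0 by omega)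
    push_cast
    field_simp
  have h2 := h1.rpow_const (p := a) (Or.inl one_ne_zero)
  rw [Real.one_rpow] at h2
  refine h2.congr fun n => ?_
  rw [Real.div_rpow (Nat.cast_nonneg _) (Nat.cast_nonneg n)]

/-- **lengths of both parities**: an asymptotic form along a set of lengths with gaps `o(√n)`
whose parities are arbitrary -/
theorem Rg.both (R : Rg u D) {a A β : ℝ} (hA : 0 < A) (hβ : 1 ≤ β)
    (hst : ∀ ε : ℝ, 0 < ε → ∀ᶠ n in atTop, u (n + 1) ≤ (β + ε) * u n ∧ u n ≤ (β + ε) * u (n + 1))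
    {S : Set ℕ}
    (hS : ∀ δ : ℝ, 0 < δ → ∀ᶠ n : ℕ in atTop, ∃ m ∈ S, n ≤ m ∧ (m : ℝ) ≤ n + δ * √(n : ℝ))
    (h : Tendsto (fun n : ℕ => u n / (n : ℝ) ^ a) (atTop ⊓ 𝓟 S) (𝓝 A)) {ε : ℝ} (hε : 0 < ε) :
    ∀ᶠ n : ℕ in atTop, A / β - ε ≤ u n / (n : ℝ) ^ a ∧ u n / (n : ℝ) ^ a ≤ A * β + ε := by
  have hβ0 : 0 < β := by linarith
  -- windows of a parity class
  have key : ∀ q : ℕ, q ≤ 1 → ∀ δ : ℝ, 0 < δ → ∀ᶠ n : ℕ in atTop, ∃ m : ℕ, n ≤ m ∧
      (m : ℝ) ≤ n + δ * √(n : ℝ) ∧ m % 2 = q ∧ u m / (m : ℝ) ^ a ≤ A * β + δ ∧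
      A / β - δ ≤ u m / (m : ℝ) ^ a := by
    intro q hq δ hδ
    -- the neighbours of the points of `S`
    obtain ⟨η, hη⟩ : ∃ η : ℝ, η = min (1 / 2) (δ / (10 * (A + β + 2) * (A + β + 2))) := ⟨_, rfl⟩
    have hη0 : 0 < η := by rw [hη]; positivity
    have hη1 : η ≤ 1 / 2 := by rw [hη]; exact min_le_left _ _
    have hη2 : η * (10 * (A + β + 2) * (A + β + 2)) ≤ δ := by
      have : η ≤ δ / (10 * (A + β + 2) * (A + β + 2)) := by rw [hη]; exact min_le_right _ _
      rwa [le_div_iff₀ (by positivity)] at this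
    rw [Metric.tendsto_nhds] at h
    have h1 := h η hη0
    rw [eventually_inf_principal] at h1
    have h2 := (pow_succ_tend a)
    rw [Metric.tendsto_nhds] at h2
    obtain ⟨N1, hN1⟩ := eventually_atTop.1 h1
    obtain ⟨N2, hN2⟩ := eventually_atTop.1 (h2 η hη0)
    obtain ⟨N3, hN3⟩ := eventually_atTop.1 (hst η hη0)
    have h5 : ∀ᶠ n : ℕ in atTop, (2 / δ) ^ 2 ≤ (n : ℝ) :=
      tendsto_natCast_atTop_atTop.eventually_ge_atTop _
    filter_upwards [hS (δ / 2) (by positivity), h5, eventually_ge_atTop (N1 + N2 + N3 + 1)]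
      with n hn h5 hn1
    obtain ⟨m, mS, m1, m2⟩ := hn
    have hm0 : (0 : ℝ) < m := by exact_mod_cast (show 0 < m by omega)
    have hma := Real.rpow_pos_of_pos hm0 a
    have g1 := hN1 m (by omega) mS
    rw [Real.dist_eq, abs_lt] at g1
    obtain ⟨x, hx⟩ : ∃ x : ℝ, x = u m / (m : ℝ) ^ a := ⟨_, rfl⟩
    rw [← hx] at g1
    have hx0 : 0 < x := by rw [hx]; exact div_pos (R.pos m) hma
    have hAβ : A ≤ A * β := by nlinarith
    have hAβ' : A / β ≤ A := by rw [div_le_iff₀ hβ0]; nlinarith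
    have hbig : η ≤ δ := by
      have : 1 ≤ 10 * (A + β + 2) * (A + β + 2) := by nlinarith
      nlinarith
    have hsq : 1 ≤ δ / 2 * √(n : ℝ) := by
      have h6 : 2 / δ ≤ √(n : ℝ) := Real.le_sqrt_of_sq_le h5
      rw [div_le_iff₀ hδ] at h6
      linarith
    by_cases hmq : m % 2 = q
    · refine ⟨m, m1, by linarith, hmq, ?_, ?_⟩
      · rw [← hx]; linarith [g1.2]
      · rw [← hx]; linarith [g1.1]
    · have hm1 : (0 : ℝ) < ((m + 1 : ℕ) : ℝ) := by positivity
      have hm1a := Real.rpow_pos_of_pos hm1 a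
      have g2 := hN2 m (by omega)
      rw [Real.dist_eq, abs_lt] at g2
      obtain ⟨t, ht⟩ : ∃ t : ℝ, t = ((m + 1 : ℕ) : ℝ) ^ a / (m : ℝ) ^ a := ⟨_, rfl⟩
      have ht0 : 0 < t := by rw [ht]; positivity
      rw [← ht] at g2
      obtain ⟨y, hy⟩ : ∃ y : ℝ, y = u (m + 1) / ((m + 1 : ℕ) : ℝ) ^ a := ⟨_, rfl⟩
      have hy0 : 0 < y := by rw [hy]; exact div_pos (R.pos _) hm1a
      have g3 := hN3 m (by omega)
      have e1 : u (m + 1) / (m : ℝ) ^ a = y * t := by rw [hy, ht]; field_simp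
      have g4 : y * t ≤ (β + η) * x := by
        rw [← e1, hx, mul_div_assoc']
        exact div_le_div_of_nonneg_right g3.1 hma.le
      have g5 : x ≤ (β + η) * (y * t) := by
        rw [← e1, hx, mul_div_assoc']
        exact div_le_div_of_nonneg_right g3.2 hma.le
      refine ⟨m + 1, by omega, by push_cast; linarith, by omega, ?_, ?_⟩
      · rw [← hy]
        -- `y ≤ (β + η) (A + η) / (1 - η)`
        have h7 : y * (1 - η) ≤ (β + η) * (A + η) := by
          have a1 : y * (1 - η) ≤ y * t := by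
            apply mul_le_mul_of_nonneg_left _ hy0.le
            linarith [g2.1]
          have a2 : (β + η) * x ≤ (β + η) * (A + η) := by
            apply mul_le_mul_of_nonneg_left _ (by positivity)
            linarith [g1.2]
          linarith
        have h8 : (β + η) * (A + η) ≤ (A * β + δ) * (1 - η) := by
          have b1 : η * η ≤ η := by nlinarith
          have b2 : δ * η ≤ δ * (1 / 2) := by gcongr
          have b3 : A * β * η ≤ (A + β + 2) * (A + β + 2) * η := by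
            apply mul_le_mul_of_nonneg_right _ hη0.le
            nlinarith
          have b4 : (β + A) * η ≤ (A + β + 2) * (A + β + 2) * η := by
            apply mul_le_mul_of_nonneg_right _ hη0.le
            nlinarith
          have b5 : 1 * η ≤ (A + β + 2) * (A + β + 2) * η := by
            apply mul_le_mul_of_nonneg_right _ hη0.le
            nlinarith
          nlinarith
        have h9 := h7.trans h8
        exact le_of_mul_le_mul_right h9 (by linarith)
      · rw [← hy]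
        have h7 : A - η ≤ (β + η) * (1 + η) * y := by
          have a1 : y * t ≤ y * (1 + η) := by
            apply mul_le_mul_of_nonneg_left _ hy0.le
            linarith [g2.2]
          have a2 : (β + η) * (y * t) ≤ (β + η) * (y * (1 + η)) := by gcongr
          linarith [g1.1]
        -- `A / β - δ ≤ y`
        by_contra hc
        push Not at hc
        have hc0 : y * β < A - δ * β := by
          have := mul_lt_mul_of_pos_right hc hβ0
          rw [sub_mul, div_mul_cancel₀ _ hβ0.ne'] at this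
          exact this
        have hyA : y ≤ A := by
          have : 0 < δ := hδ
          linarith
        have h8 : (β + η) * (1 + η) * y ≤ y * β + η * (β + 2) * A := by
          have b1 : (β + η) * (1 + η) ≤ β + η * (β + 2) := by nlinarith
          have b2 : (β + η) * (1 + η) * y ≤ (β + η * (β + 2)) * y := by gcongr
          have b3 : η * (β + 2) * y ≤ η * (β + 2) * A := by gcongr
          linarith
        have h9 : η * (β + 2) * A + η ≤ δ := by
          have b4 : (β + 2) * A + 1 ≤ 10 * (A + β + 2) * (A + β + 2) := by nlinarith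
          have b5 := mul_le_mul_of_nonneg_left b4 hη0.le
          linarith
        have h10 : δ ≤ δ * β := by nlinarith
        linarith
  have hAβ0 : 0 < A * β := by positivity
  have hAβ1 : 0 < A / β := by positivity
  have up : ∀ q : ℕ, q ≤ 1 → ∀ ε : ℝ, 0 < ε → ∀ᶠ n : ℕ in atTop, n % 2 = q →
      u n / (n : ℝ) ^ a ≤ A * β + ε := fun q hq ε hε =>
    R.win_le hq hAβ0 (fun δ hδ => (key q hq δ hδ).mono fun n hn => by
      obtain ⟨m, m1, m2, m3, m4, m5⟩ := hn
      exact ⟨m, m1, m2, m3, m4⟩) hε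
  -- lower bounds, from the logarithmic form
  have lo : ∀ q : ℕ, q ≤ 1 → ∀ ε : ℝ, 0 < ε → ∀ᶠ n : ℕ in atTop, n % 2 = q →
      A / β - ε ≤ u n / (n : ℝ) ^ a := by
    intro q hq ε hε
    refine R.win_ge hq hAβ1 (up q hq 1 one_pos) (fun δ hδ => ?_) hε
    exact (key q hq δ hδ).mono fun n hn => by
      obtain ⟨m, m1, m2, m3, m4, m5⟩ := hn
      exact ⟨m, m1, m2, m3, m5⟩
  filter_upwards [up 0 (by norm_num) ε hε, up 1 le_rfl ε hε, lo 0 (by norm_num) ε hε,
    lo 1 le_rfl ε hε] with n g1 g2 g3 g4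
  rcases Nat.mod_two_eq_zero_or_one n with h | h
  · exact ⟨g3 h, g1 h⟩
  · exact ⟨g4 h, g2 h⟩

end Pool.Agent.K3h54.PS
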