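import Pool.Agent.K3h54.PS.Swin

/-!
# Averages over short windows, generating functions, exponents
-/

set_option autoImplicit false
set_option linter.unusedVariables false

namespace Pool.Agent.K3h54.PS

open Filter Topology
open Pool.Agent.R956.K1

variable {u : ℕ → ℝ} {D : ℝ}

lemma r_pow {n : ℕ} (hn : 2 ≤ n) {k : ℕ} (hk : k ≤ 2 * n) : 1 / 16 ≤ (1 - 1 / (n : ℝ)) ^ k := by
  have hn0 : (2 : ℝ) ≤ n := by exact_mod_cast hn
  have h1 : (0 : ℝ) ≤ 1 - 1 / n := by
    have : 1 / (n : ℝ) ≤ 1 := by rw [div_le_one (by linarith)]; linarith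
    linarith
  have h2 : 1 - 1 / (n : ℝ) ≤ 1 := by
    have : 0 < 1 / (n : ℝ) := by positivity
    linarith
  have h3 : (1 - 1 / (n : ℝ)) ^ (2 * n) ≤ (1 - 1 / (n : ℝ)) ^ k := pow_le_pow_of_le_one h1 h2 hk
  refine le_trans ?_ h3
  -- `(1 - 1/n)^n ≥ 1/4`
  have h4 : 1 / 4 ≤ (1 - 1 / (n : ℝ)) ^ n := by
    -- `1 - x ≥ 4^(-x)` for `x ≤ 1/2`, from convexity; here by `(1 + 1/(n-1))^n ≤ 4`
    have h5 : (1 - 1 / (n : ℝ)) * (1 + 1 / ((n : ℝ) - 1)) = 1 := by
      have : (n : ℝ) - 1 ≠ 0 := by linarith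
      have : (n : ℝ) ≠ 0 := by linarith
      field_simp
      ring
    have h6 : (1 + 1 / ((n : ℝ) - 1)) ^ n ≤ 4 := by
      obtain ⟨m, rfl⟩ : ∃ m, n = m + 2 := ⟨n - 2, by omega⟩
      have h7 : ∀ m : ℕ, (1 + 1 / ((m : ℝ) + 1)) ^ (m + 2) ≤ 4 := by
        intro m
        induction m with
        | zero => norm_num
        | succ m ih =>
          -- the sequence decreases
          refine le_trans ?_ ih
          push_cast
          have hm : (0 : ℝ) ≤ m := Nat.cast_nonneg m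
          obtain ⟨a, ha⟩ : ∃ a : ℝ, a = (m : ℝ) + 1 := ⟨_, rfl⟩
          have ha1 : 1 ≤ a := by linarith
          have e1 : 1 + 1 / ((m : ℝ) + 1 + 1) = (a + 2) / (a + 1) := by rw [ha]; field_simp; ring
          have e2 : 1 + 1 / ((m : ℝ) + 1) = (a + 1) / a := by rw [ha]; field_simp
          rw [e1, e2]
          -- Bernoulli: `((a+1)^2/(a(a+2)))^(m+2) ≥ 1 + (m+2)/(a(a+2)) ≥ (a+2)/(a+1)`
          have h8 : (a + 2) / (a + 1) ≤ ((a + 1) ^ 2 / (a * (a + 2))) ^ (m + 2) := by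
            have h9 := one_add_mul_le_pow (show (-2 : ℝ) ≤ 1 / (a * (a + 2)) by
              have : 0 < 1 / (a * (a + 2)) := by positivity
              linarith) (m + 2)
            have e3 : 1 + 1 / (a * (a + 2)) = (a + 1) ^ 2 / (a * (a + 2)) := by field_simp; ring
            rw [e3] at h9
            refine le_trans ?_ h9
            have e4 : ((m + 2 : ℕ) : ℝ) = a + 1 := by rw [ha]; push_cast; ring
            rw [e4]
            rw [div_le_iff₀ (by positivity)]
            have e5 : (1 + (a + 1) * (1 / (a * (a + 2)))) * (a + 1) =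
              a + 1 + (a + 1) ^ 2 / (a * (a + 2)) := by field_simp
            rw [e5]
            have : 1 ≤ (a + 1) ^ 2 / (a * (a + 2)) := by
              rw [le_div_iff₀ (by positivity)]
              nlinarith
            linarith
          have e6 : (a + 1) / a = (a + 2) / (a + 1) * ((a + 1) ^ 2 / (a * (a + 2))) := by field_simp
          rw [e6, mul_pow, show m + 1 + 2 = (m + 2) + 1 by ring, pow_succ]
          have : 0 < ((a + 2) / (a + 1)) ^ (m + 2) := by positivity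
          gcongr
      have h8 := h7 m
      have e : ((m + 2 : ℕ) : ℝ) - 1 = m + 1 := by push_cast; ring
      rw [e]
      exact h8
    have h7 : (1 - 1 / (n : ℝ)) ^ n * (1 + 1 / ((n : ℝ) - 1)) ^ n = 1 := by
      rw [← mul_pow, h5, one_pow]
    have h8 : 0 ≤ (1 - 1 / (n : ℝ)) ^ n := by positivity
    nlinarith
  rw [mul_comm 2 n, pow_mul]
  nlinarith

/-- **an upper bound by the generating function**, with a gain of `√n` -/
theorem Rg.gf (R : Rg u D) (hgr : ∀ r : ℝ, 0 ≤ r → r < 1 → Summable (fun k => u k * r ^ k)) :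
    ∃ K : ℝ, ∀ n : ℕ, 1 ≤ n → u n ≤ K / √(n : ℝ) * ∑' k, u k * (1 - 1 / (n : ℝ)) ^ k := by
  obtain ⟨N0, h3⟩ := R.three'
  have hD := (R.kc 0 (by norm_num)).D0
  obtain ⟨N1, hN1⟩ : ∃ N1 : ℕ, N1 = N0 + 17 := ⟨_, rfl⟩
  have hr0 : ∀ n : ℕ, 1 ≤ n → (0 : ℝ) ≤ 1 - 1 / n := fun n hn => by
    have hn0 : (1 : ℝ) ≤ n := by exact_mod_cast hn
    have : 1 / (n : ℝ) ≤ 1 := by rw [div_le_one (by linarith)]; exact hn0
    linarith
  have hr1 : ∀ n : ℕ, 1 ≤ n → 1 - 1 / (n : ℝ) < 1 := fun n hn => by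
    have hn0 : (0 : ℝ) < n := by exact_mod_cast hn
    have : 0 < 1 / (n : ℝ) := by positivity
    linarith
  have hG1 : ∀ n : ℕ, 1 ≤ n → 1 ≤ ∑' k, u k * (1 - 1 / (n : ℝ)) ^ k := by
    intro n hn
    have hs := hgr _ (hr0 n hn) (hr1 n hn)
    have h1 := hs.le_tsum 0 (fun k _ => mul_nonneg (R.pos k).le (pow_nonneg (hr0 n hn) k))
    rw [pow_zero, mul_one] at h1
    exact (R.one 0).trans h1
  obtain ⟨M, hM⟩ : ∃ M : ℝ, M = ∑ k ∈ Finset.range N1, u k := ⟨_, rfl⟩
  have hM0 : 0 ≤ M := by rw [hM]; exact Finset.sum_nonneg fun k _ => (R.pos k).le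
  refine ⟨32 * Real.exp (4 * D) + M * √(N1 : ℝ), fun n hn => ?_⟩
  have hn0 : (0 : ℝ) < n := by exact_mod_cast hn
  have hs := Real.sqrt_pos.2 hn0
  have hG := hG1 n hn
  obtain ⟨G, hGd⟩ : ∃ G : ℝ, G = ∑' k, u k * (1 - 1 / (n : ℝ)) ^ k := ⟨_, rfl⟩
  rw [← hGd] at hG ⊢
  have he := Real.exp_pos (4 * D)
  rcases Nat.lt_or_ge n N1 with hlt | hge
  · -- small lengths
    have h1 : u n ≤ M := by
      rw [hM]
      exact Finset.single_le_sum (fun k _ => (R.pos k).le) (Finset.mem_range.2 hlt)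
    have h2 : √(n : ℝ) ≤ √(N1 : ℝ) := Real.sqrt_le_sqrt (by exact_mod_cast hlt.le)
    have h4 : M ≤ (32 * Real.exp (4 * D) + M * √(N1 : ℝ)) / √(n : ℝ) := by
      rw [le_div_iff₀ hs]
      have := mul_le_mul_of_nonneg_left h2 hM0
      linarith
    calc u n ≤ M := h1
      _ ≤ (32 * Real.exp (4 * D) + M * √(N1 : ℝ)) / √(n : ℝ) := h4
      _ = (32 * Real.exp (4 * D) + M * √(N1 : ℝ)) / √(n : ℝ) * 1 := (mul_one _).symm
      _ ≤ _ := by gcongr
  · -- large lengths
    obtain ⟨J, hJ⟩ : ∃ J : ℕ, J = Nat.sqrt n := ⟨_, rfl⟩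
    have hJ2 : J * J ≤ n := by rw [hJ]; exact Nat.sqrt_le n
    have hJ3 : n < (J + 1) * (J + 1) := by rw [hJ]; exact Nat.lt_succ_sqrt n
    have hJ4 : 4 ≤ J := by
      by_contra hc
      push Not at hc
      have : (J + 1) * (J + 1) ≤ 4 * 4 := Nat.mul_le_mul (by omega) (by omega)
      omega
    have hJn : 4 * J < n := by
      have h1 : 4 * J ≤ J * J := Nat.mul_le_mul hJ4 le_rfl
      rcases Nat.lt_or_ge 4 J with h | h
      · have : 5 * J ≤ J * J := Nat.mul_le_mul h le_rfl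
        omega
      · have : J = 4 := by omega
        subst this
        omega
    have hG2 : ∀ m : ℕ, m ≤ 2 * n → u m ≤ 16 * (u m * (1 - 1 / (n : ℝ)) ^ m) := by
      intro m hm
      have := r_pow (show 2 ≤ n by omega) hm
      have := mul_le_mul_of_nonneg_left this (R.pos m).le
      linarith
    have hs1 := hgr _ (hr0 n hn) (hr1 n hn)
    have hnn : ∀ m, 0 ≤ u m * (1 - 1 / (n : ℝ)) ^ m := fun m =>
      mul_nonneg (R.pos m).le (pow_nonneg (hr0 n hn) m)
    -- the sum over the window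
    have hsum : ∀ f : ℕ → ℕ, Function.Injective f → ∀ N : ℕ, (∀ i < N, f i ≤ 2 * n) →
        ∑ i ∈ Finset.range N, u (f i) ≤ 16 * G := by
      intro f hf N hN
      calc ∑ i ∈ Finset.range N, u (f i) ≤ ∑ i ∈ Finset.range N,
            16 * (u (f i) * (1 - 1 / (n : ℝ)) ^ (f i)) :=
            Finset.sum_le_sum fun i hi => hG2 _ (hN i (Finset.mem_range.1 hi))
        _ = 16 * ∑ m ∈ (Finset.range N).image f, u m * (1 - 1 / (n : ℝ)) ^ m := by
            rw [Finset.sum_image fun x _ y _ h => hf h, Finset.mul_sum]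
        _ ≤ 16 * G := by
            rw [hGd]
            have := hs1.sum_le_tsum ((Finset.range N).image f) (fun m _ => hnn m)
            linarith
    have key : ∀ i ∈ Finset.range J, u n ≤ Real.exp (4 * D) / 2 *
        (u (n - 2 * (i + 1)) + u (n + 2 * (i + 1))) := by
      intro i hi
      have hi := Finset.mem_range.1 hi
      have h4 := h3 n (by omega) (i + 1) (by omega)
      have p1 := R.pos (n - 2 * (i + 1))
      have p2 := R.pos (n + 2 * (i + 1))
      have p0 := R.pos n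
      have h5 : 8 * D * ((i + 1 : ℕ) : ℝ) ^ 2 / n ≤ 8 * D := by
        rw [div_le_iff₀ hn0]
        have h6 : ((i + 1 : ℕ) : ℝ) ^ 2 ≤ n := by
          have : (i + 1) ^ 2 ≤ n := by
            calc (i + 1) ^ 2 = (i + 1) * (i + 1) := by ring
              _ ≤ J * J := Nat.mul_le_mul (by omega) (by omega)
              _ ≤ n := hJ2
          exact_mod_cast this
        have := mul_le_mul_of_nonneg_left h6 (show 0 ≤ 8 * D by positivity)
        linarith
      have h6 := Real.exp_le_exp.2 h5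
      have h7 : u n ^ 2 ≤ (Real.exp (4 * D) / 2 * (u (n - 2 * (i + 1)) + u (n + 2 * (i + 1)))) ^ 2 := by
        have e8 : Real.exp (8 * D) = Real.exp (4 * D) ^ 2 := by
          rw [← Real.exp_nat_mul]
          congr 1
          push_cast
          ring
        calc u n ^ 2 ≤ Real.exp (8 * D * ((i + 1 : ℕ) : ℝ) ^ 2 / n) *
              (u (n - 2 * (i + 1)) * u (n + 2 * (i + 1))) := h4
          _ ≤ Real.exp (8 * D) * (u (n - 2 * (i + 1)) * u (n + 2 * (i + 1))) := by gcongr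
          _ ≤ Real.exp (4 * D) ^ 2 * ((u (n - 2 * (i + 1)) + u (n + 2 * (i + 1))) / 2) ^ 2 := by
              rw [e8]
              apply mul_le_mul_of_nonneg_left _ (by positivity)
              nlinarith [sq_nonneg (u (n - 2 * (i + 1)) - u (n + 2 * (i + 1)))]
          _ = _ := by ring
      exact le_of_sq_le_sq h7 (by positivity)
    have h8 := Finset.sum_le_sum key
    rw [Finset.sum_const, Finset.card_range, nsmul_eq_mul, ← Finset.mul_sum,
      Finset.sum_add_distrib] at h8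
    have h10 : ∑ i ∈ Finset.range J, u (n + 2 * (i + 1)) ≤ 16 * G :=
      hsum (fun i => n + 2 * (i + 1)) (fun i j h => by simp only at h; omega) J
        (fun i hi => by omega)
    have h9 : ∑ i ∈ Finset.range J, u (n - 2 * (i + 1)) ≤ 16 * G := by
      rw [← Finset.sum_range_reflect]
      have e : ∑ i ∈ Finset.range J, u (n - 2 * (J - 1 - i + 1)) =
          ∑ i ∈ Finset.range J, u (n - 2 * J + 2 * i) := by
        refine Finset.sum_congr rfl fun i hi => ?_
        have hi := Finset.mem_range.1 hi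
        congr 1
        omega
      rw [e]
      exact hsum (fun i => n - 2 * J + 2 * i) (fun i j h => by simp only at h; omega) J
        (fun i hi => by omega)
    have h11 : (J : ℝ) * u n ≤ 16 * Real.exp (4 * D) * G := by
      have : Real.exp (4 * D) / 2 * (∑ i ∈ Finset.range J, u (n - 2 * (i + 1)) +
          ∑ i ∈ Finset.range J, u (n + 2 * (i + 1))) ≤ Real.exp (4 * D) / 2 * (16 * G + 16 * G) := by
        gcongr
      linarith
    have h12 : √(n : ℝ) ≤ 2 * J := by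
      rw [Real.sqrt_le_left (by positivity)]
      have : n ≤ (2 * J) ^ 2 := by
        have h13 : (J + 1) * (J + 1) ≤ (2 * J) ^ 2 := by nlinarith
        omega
      exact_mod_cast this
    have h13 : √(n : ℝ) * u n ≤ 32 * Real.exp (4 * D) * G := by
      have := mul_le_mul_of_nonneg_right h12 (R.pos n).le
      linarith
    rw [div_mul_eq_mul_div, le_div_iff₀ hs]
    have h14 : 0 ≤ M * √(N1 : ℝ) * G := by positivity
    linarith

/-- the sums of two consecutive terms form a regular sequence -/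
lemma Rg.sum (R : Rg u D) : Rg (fun n => u n + u (n + 1)) D :=
  ⟨R.adm.shift_sum, fun n => by
    have := R.one n
    have := R.one (n + 1)
    linarith, fun q hq => R.kc_sum hq⟩

lemma pair_sum (v : ℕ → ℝ) (n P : ℕ) :
    ∑ i ∈ Finset.range P, (v (n + 2 * i) + v (n + 2 * i + 1)) = ∑ m ∈ Finset.Ico n (n + 2 * P), v m := by
  induction P with
  | zero => simp
  | succ P ih =>
    rw [Finset.sum_range_succ, ih, show n + 2 * (P + 1) = n + 2 * P + 1 + 1 by ring,
      Finset.sum_Ico_succ_top (by omega), Finset.sum_Ico_succ_top (by omega)]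
    ring

/-- the average over the lengths `n ≤ m < n + ⌊δ √n⌋`, divided by `n ^ a` -/
noncomputable def avg (u : ℕ → ℝ) (a δ : ℝ) (n : ℕ) : ℝ :=
  (∑ m ∈ Finset.Ico n (n + ⌊δ * √(n : ℝ)⌋₊), u m) / (δ * √(n : ℝ) * (n : ℝ) ^ a)

/-- **averages over short windows** determine the sums of two consecutive terms -/
theorem Rg.avg_tend (R : Rg u D) {a A : ℝ} (ha : 0 ≤ a) (hA : 0 < A)
    (h : ∀ δ : ℝ, 0 < δ → Tendsto (avg u a δ) atTop (𝓝 A)) :
    Tendsto (fun n : ℕ => (u n + u (n + 1)) / (n : ℝ) ^ a) atTop (𝓝 (2 * A)) := by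
  rw [tend_all]
  intro q hq
  refine R.sum.win_tend (u := fun n => u n + u (n + 1)) hq (by positivity) fun δ hδ => ?_
  obtain ⟨τ, hτ⟩ : ∃ τ : ℝ, τ = min δ A := ⟨_, rfl⟩
  have hτ0 : 0 < τ := by rw [hτ]; positivity
  have hτ1 : τ ≤ δ := by rw [hτ]; exact min_le_left _ _
  have hτ2 : τ ≤ A := by rw [hτ]; exact min_le_right _ _
  have hsq : Tendsto (fun n : ℕ => √(n : ℝ)) atTop atTop :=
    Real.tendsto_sqrt_atTop.comp tendsto_natCast_atTop_atTop
  refine Eventually.and ?_ ?_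
  · -- a small value
    have h1 := (h δ hδ).eventually_lt_const (show A < A + τ / 4 by linarith)
    have h2 := hsq.eventually_ge_atTop (12 * (A + τ) / (δ * τ) + 3 / δ)
    filter_upwards [h1, h2, eventually_ge_atTop 1] with n g1 g2 hn
    have hn0 : (0 : ℝ) < n := by exact_mod_cast hn
    have hs := Real.sqrt_pos.2 hn0
    have hna : 0 < (n : ℝ) ^ a := Real.rpow_pos_of_pos hn0 a
    by_contra hcon
    push Not at hcon
    obtain ⟨M, hM⟩ : ∃ M : ℕ, M = ⌊δ * √(n : ℝ)⌋₊ := ⟨_, rfl⟩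
    have hM1 : (M : ℝ) ≤ δ * √(n : ℝ) := by rw [hM]; exact Nat.floor_le (by positivity)
    have hM2 : δ * √(n : ℝ) < M + 1 := by rw [hM]; exact Nat.lt_floor_add_one _
    obtain ⟨n', hn'1, hn'2, hn'3⟩ : ∃ n' : ℕ, n ≤ n' ∧ n' ≤ n + 1 ∧ n' % 2 = q := by
      rcases Nat.mod_two_eq_zero_or_one n with h0 | h0
      · rcases (show q = 0 ∨ q = 1 by omega) with rfl | rfl
        · exact ⟨n, le_rfl, by omega, h0⟩
        · exact ⟨n + 1, by omega, le_rfl, by omega⟩
      · rcases (show q = 0 ∨ q = 1 by omega) with rfl | rfl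
        · exact ⟨n + 1, by omega, le_rfl, by omega⟩
        · exact ⟨n, le_rfl, by omega, h0⟩
    obtain ⟨P, hP⟩ : ∃ P : ℕ, P = (M - 1) / 2 := ⟨_, rfl⟩
    have hM3 : 2 ≤ M := by
      have h3 : 3 / δ ≤ √(n : ℝ) := by
        have : 0 ≤ 12 * (A + τ) / (δ * τ) := by positivity
        linarith
      rw [div_le_iff₀ hδ] at h3
      have : (2 : ℝ) < M + 1 := by linarith
      have : (1 : ℝ) < M := by linarith
      have : 1 < M := by exact_mod_cast this
      omega
    have hval : ∀ i ∈ Finset.range P, (2 * A + τ) * (n : ℝ) ^ a ≤ u (n' + 2 * i) + u (n' + 2 * i + 1) := by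
      intro i hi
      have hi := Finset.mem_range.1 hi
      have hlen : n' + 2 * i ≤ n + M := by omega
      have h4 := hcon (n' + 2 * i) (by omega) (by
        have : ((n' + 2 * i : ℕ) : ℝ) ≤ n + M := by exact_mod_cast hlen
        linarith) (by omega)
      have hm0 : (0 : ℝ) < ((n' + 2 * i : ℕ) : ℝ) := by exact_mod_cast (show 0 < n' + 2 * i by omega)
      have hma := Real.rpow_pos_of_pos hm0 a
      rw [lt_div_iff₀ hma] at h4
      have h5 : (n : ℝ) ^ a ≤ ((n' + 2 * i : ℕ) : ℝ) ^ a := by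
        apply Real.rpow_le_rpow hn0.le _ ha
        exact_mod_cast (show n ≤ n' + 2 * i by omega)
      have h6 : (2 * A + τ) * (n : ℝ) ^ a ≤ (2 * A + δ) * ((n' + 2 * i : ℕ) : ℝ) ^ a := by gcongr
      linarith
    have h5 := Finset.sum_le_sum hval
    rw [Finset.sum_const, Finset.card_range, nsmul_eq_mul, pair_sum] at h5
    have h6 : ∑ m ∈ Finset.Ico n' (n' + 2 * P), u m ≤ ∑ m ∈ Finset.Ico n (n + M), u m := by
      refine Finset.sum_le_sum_of_subset_of_nonneg (Finset.Ico_subset_Ico hn'1 (by omega))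
        fun m _ _ => (R.pos m).le
    unfold avg at g1
    rw [← hM, div_lt_iff₀ (by positivity)] at g1
    have h7 : (δ * √(n : ℝ) - 3) / 2 ≤ P := by
      have h8 : M ≤ 2 * P + 2 := by omega
      have h9 : (M : ℝ) ≤ 2 * P + 2 := by exact_mod_cast h8
      linarith
    have h10 : (δ * √(n : ℝ) - 3) / 2 * ((2 * A + τ) * (n : ℝ) ^ a) ≤ P * ((2 * A + τ) * (n : ℝ) ^ a) := by
      gcongr
    have h11 : (δ * √(n : ℝ) - 3) / 2 * ((2 * A + τ) * (n : ℝ) ^ a) <
        (A + τ / 4) * (δ * √(n : ℝ) * (n : ℝ) ^ a) := by linarith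
    have h12 : ((δ * √(n : ℝ) - 3) / 2 * (2 * A + τ)) * (n : ℝ) ^ a <
        ((A + τ / 4) * (δ * √(n : ℝ))) * (n : ℝ) ^ a := by linarith
    have h13 := lt_of_mul_lt_mul_right h12 hna.le
    have h14 : 12 * (A + τ) / (δ * τ) ≤ √(n : ℝ) := by
      have : 0 ≤ 3 / δ := by positivity
      linarith
    rw [div_le_iff₀ (by positivity)] at h14
    nlinarith
  · -- a large value
    obtain ⟨δ', hδ'⟩ : ∃ δ' : ℝ, δ' = δ / 4 := ⟨_, rfl⟩
    have hδ0 : 0 < δ' := by rw [hδ']; positivity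
    have h1 := ((tendsto_add_atTop_iff_nat 1).2 (h δ' hδ0)).eventually_const_lt
      (show A - τ / 8 < A by linarith)
    have h2 := hsq.eventually_ge_atTop (16 * A / (δ' * τ) + 3 / δ')
    have h3 : ∀ᶠ n : ℕ in atTop, ∀ m : ℕ, (n : ℝ) < m → (m : ℝ) < n + (δ + 1) * √(n : ℝ) →
        |a * Real.log m - a * Real.log n| ≤ Real.log ((2 * A - τ / 2) / (2 * A - τ)) :=
      log_shift a (by positivity) (Real.log_pos (by
        rw [lt_div_iff₀ (by linarith)]
        linarith))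
    filter_upwards [h1, h2, h3, eventually_ge_atTop 9] with n g1 g2 g3 hn
    have hn0 : (0 : ℝ) < n := by exact_mod_cast (show 0 < n by omega)
    have hs := Real.sqrt_pos.2 hn0
    have hna : 0 < (n : ℝ) ^ a := Real.rpow_pos_of_pos hn0 a
    have hn10 : (0 : ℝ) < ((n + 1 : ℕ) : ℝ) := by positivity
    have hs1 := Real.sqrt_pos.2 hn10
    have hn1a : 0 < ((n + 1 : ℕ) : ℝ) ^ a := Real.rpow_pos_of_pos hn10 a
    have hs3 : √(n : ℝ) ≤ √((n + 1 : ℕ) : ℝ) := Real.sqrt_le_sqrt (by exact_mod_cast Nat.le_succ n)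
    have hs2 : √((n + 1 : ℕ) : ℝ) ≤ 2 * √(n : ℝ) := by
      rw [Real.sqrt_le_left (by positivity), mul_pow, Real.sq_sqrt hn0.le]
      push_cast
      have : (9 : ℝ) ≤ n := by exact_mod_cast hn
      linarith
    by_contra hcon
    push Not at hcon
    obtain ⟨M, hM⟩ : ∃ M : ℕ, M = ⌊δ' * √((n + 1 : ℕ) : ℝ)⌋₊ := ⟨_, rfl⟩
    have hM1 : (M : ℝ) ≤ δ' * √((n + 1 : ℕ) : ℝ) := by rw [hM]; exact Nat.floor_le (by positivity)
    obtain ⟨n', hn'1, hn'2, hn'3⟩ : ∃ n' : ℕ, n ≤ n' ∧ n' ≤ n + 1 ∧ n' % 2 = q := by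
      rcases Nat.mod_two_eq_zero_or_one n with h0 | h0
      · rcases (show q = 0 ∨ q = 1 by omega) with rfl | rfl
        · exact ⟨n, le_rfl, by omega, h0⟩
        · exact ⟨n + 1, by omega, le_rfl, by omega⟩
      · rcases (show q = 0 ∨ q = 1 by omega) with rfl | rfl
        · exact ⟨n + 1, by omega, le_rfl, by omega⟩
        · exact ⟨n, le_rfl, by omega, h0⟩
    obtain ⟨P, hP⟩ : ∃ P : ℕ, P = M / 2 + 1 := ⟨_, rfl⟩
    have hδs : 3 ≤ δ' * √(n : ℝ) := by
      have h3 : 3 / δ' ≤ √(n : ℝ) := by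
        have : 0 ≤ 16 * A / (δ' * τ) := by positivity
        linarith
      rw [div_le_iff₀ hδ0] at h3
      linarith
    have h2A : 0 < 2 * A - τ := by linarith
    have hval : ∀ i ∈ Finset.range P, u (n' + 2 * i) + u (n' + 2 * i + 1) ≤
        (2 * A - τ / 2) * (n : ℝ) ^ a := by
      intro i hi
      have hi := Finset.mem_range.1 hi
      have hlen : n' + 2 * i ≤ n + M + 1 := by omega
      have hlen' : ((n' + 2 * i : ℕ) : ℝ) ≤ n + δ * √(n : ℝ) := by
        have h5 : ((n' + 2 * i : ℕ) : ℝ) ≤ n + M + 1 := by exact_mod_cast hlen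
        have h6 : δ' * √((n + 1 : ℕ) : ℝ) ≤ δ' * (2 * √(n : ℝ)) := by gcongr
        have h7 : δ * √(n : ℝ) = 4 * (δ' * √(n : ℝ)) := by rw [hδ']; ring
        linarith
      have h4 := hcon (n' + 2 * i) (by omega) hlen' (by omega)
      have hm0 : (0 : ℝ) < ((n' + 2 * i : ℕ) : ℝ) := by exact_mod_cast (show 0 < n' + 2 * i by omega)
      have hma := Real.rpow_pos_of_pos hm0 a
      rw [div_lt_iff₀ hma] at h4
      have h5 : ((n' + 2 * i : ℕ) : ℝ) ^ a * (2 * A - τ) ≤ (n : ℝ) ^ a * (2 * A - τ / 2) := by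
        rcases Nat.eq_or_lt_of_le (show n ≤ n' + 2 * i by omega) with he | hl
        · rw [← he]
          apply mul_le_mul_of_nonneg_left _ hna.le
          linarith
        · have h6 := (abs_le.1 (g3 (n' + 2 * i) (by exact_mod_cast hl) (by linarith))).2
          rw [Real.log_div (by linarith) (by linarith), ← Real.log_rpow hm0, ← Real.log_rpow hn0] at h6
          have h7 : Real.log (((n' + 2 * i : ℕ) : ℝ) ^ a * (2 * A - τ)) ≤
              Real.log ((n : ℝ) ^ a * (2 * A - τ / 2)) := by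
            rw [Real.log_mul hma.ne' h2A.ne', Real.log_mul hna.ne' (by linarith)]
            linarith
          exact (Real.log_le_log_iff (by positivity) (mul_pos hna (by linarith))).1 h7
      have h6 : (2 * A - δ) * ((n' + 2 * i : ℕ) : ℝ) ^ a ≤ (2 * A - τ) * ((n' + 2 * i : ℕ) : ℝ) ^ a := by
        gcongr
      linarith
    have h5 := Finset.sum_le_sum hval
    rw [Finset.sum_const, Finset.card_range, nsmul_eq_mul, pair_sum] at h5
    have h6 : ∑ m ∈ Finset.Ico (n + 1) (n + 1 + M), u m ≤ ∑ m ∈ Finset.Ico n' (n' + 2 * P), u m := by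
      refine Finset.sum_le_sum_of_subset_of_nonneg (Finset.Ico_subset_Ico hn'2 (by omega))
        fun m _ _ => (R.pos m).le
    unfold avg at g1
    rw [← hM, lt_div_iff₀ (by positivity)] at g1
    have h7 : (P : ℝ) ≤ δ' * √((n + 1 : ℕ) : ℝ) / 2 + 1 := by
      have h8 : 2 * P ≤ M + 2 := by omega
      have h9 : 2 * (P : ℝ) ≤ M + 2 := by exact_mod_cast h8
      linarith
    have h2At : 0 < 2 * A - τ / 2 := by linarith
    have h10 : (P : ℝ) * ((2 * A - τ / 2) * (n : ℝ) ^ a) ≤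
        (δ' * √((n + 1 : ℕ) : ℝ) / 2 + 1) * ((2 * A - τ / 2) * ((n + 1 : ℕ) : ℝ) ^ a) := by
      have h11 : (n : ℝ) ^ a ≤ ((n + 1 : ℕ) : ℝ) ^ a := by
        apply Real.rpow_le_rpow hn0.le _ ha
        exact_mod_cast Nat.le_succ n
      gcongr
    have h12 : (A - τ / 8) * (δ' * √((n + 1 : ℕ) : ℝ)) * ((n + 1 : ℕ) : ℝ) ^ a <
        (δ' * √((n + 1 : ℕ) : ℝ) / 2 + 1) * (2 * A - τ / 2) * ((n + 1 : ℕ) : ℝ) ^ a := by linarith
    have h13 := lt_of_mul_lt_mul_right h12 hn1a.le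
    have h14 : 16 * A / (δ' * τ) ≤ √(n : ℝ) := by
      have : 0 ≤ 3 / δ' := by positivity
      linarith
    rw [div_le_iff₀ (by positivity)] at h14
    have h15 : √(n : ℝ) * (δ' * τ) ≤ √((n + 1 : ℕ) : ℝ) * (δ' * τ) := by gcongr
    nlinarith

end Pool.Agent.K3h54.PS
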