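import Pool.Agent.K3h54.PS.Swin2
import Pool.Agent.R956.K9

/-!
# Exponents from windows; the numbers of self-avoiding walks on `ℤ³`
-/

set_option autoImplicit false
set_option linter.unusedVariables false

namespace Pool.Agent.K3h54.PS

open Filter Topology
open Pool.Agent.R956.K1

variable {u : ℕ → ℝ} {D : ℝ}

/-- **exponents from windows** with points of both kinds, whatever their parities -/
theorem Rg.expo_win (R : Rg u D) {B : ℝ}
    (hpar : ∀ n : ℕ, 1 ≤ n → |Real.log (u (n + 1)) - Real.log (u n)| ≤ B) {a : ℝ}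
    (h : ∀ δ : ℝ, 0 < δ → ∀ᶠ n : ℕ in atTop,
      (∃ m : ℕ, n ≤ m ∧ (m : ℝ) ≤ n + δ * √(n * Real.log n) ∧ Real.log (u m) / Real.log m ≤ a + δ) ∧
      (∃ m : ℕ, n ≤ m ∧ (m : ℝ) ≤ n + δ * √(n * Real.log n) ∧
        a - δ ≤ Real.log (u m) / Real.log m)) :
    Tendsto (fun n : ℕ => Real.log (u n) / Real.log n) atTop (𝓝 a) := by
  have hB : 0 ≤ B := (abs_nonneg _).trans (hpar 1 le_rfl)
  -- a common part: points of a parity class
  have key : ∀ δ : ℝ, 0 < δ → ∀ τ : ℝ, 0 < τ → ∀ᶠ n : ℕ in atTop, ∀ q : ℕ, q ≤ 1 →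
      (∃ m : ℕ, n ≤ m ∧ (m : ℝ) ≤ n + δ * √(n * (1 + Real.log n)) ∧ m % 2 = q ∧
        Real.log (u m) ≤ a * Real.log m + 0 + τ * (1 + Real.log m)) ∧
      (∃ m : ℕ, n ≤ m ∧ (m : ℝ) ≤ n + δ * √(n * (1 + Real.log n)) ∧ m % 2 = q ∧
        a * Real.log m + 0 - τ * (1 + Real.log m) ≤ Real.log (u m)) := by
    intro δ hδ τ hτ
    obtain ⟨η, hη⟩ : ∃ η : ℝ, η = min (δ / 2) (τ / 4) := ⟨_, rfl⟩
    have hη0 : 0 < η := by rw [hη]; positivity
    have hη1 : η ≤ δ / 2 := by rw [hη]; exact min_le_left _ _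
    have hη2 : η ≤ τ / 4 := by rw [hη]; exact min_le_right _ _
    have h5 : ∀ᶠ n : ℕ in atTop, (2 / δ) ^ 2 ≤ (n : ℝ) :=
      tendsto_natCast_atTop_atTop.eventually_ge_atTop _
    filter_upwards [h η hη0, h5, eventually_ge_atTop 3,
      log_atTop.eventually_ge_atTop ((B + |a|) / (τ / 4))] with n hn h5 hn3 hnB q hq
    have hn0 : (0 : ℝ) < n := by exact_mod_cast (show 0 < n by omega)
    have hln := log_scale hn3
    rw [div_le_iff₀ (by positivity)] at hnB
    obtain ⟨⟨m, m1, m2, m3⟩, ⟨j, j1, j2, j3⟩⟩ := hn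
    have hsq1 : 1 ≤ δ / 2 * √(n * (1 + Real.log n)) := by
      have h6 : 2 / δ ≤ √(n * (1 + Real.log n)) := by
        apply Real.le_sqrt_of_sq_le
        refine h5.trans ?_
        nlinarith
      rw [div_le_iff₀ hδ] at h6
      linarith
    have hsq : η * √(n * Real.log n) ≤ δ / 2 * √(n * (1 + Real.log n)) := by
      have : √((n : ℝ) * Real.log n) ≤ √(n * (1 + Real.log n)) := by
        apply Real.sqrt_le_sqrt
        nlinarith
      gcongr
    -- the logarithms at a point and at its neighbour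
    have hlg : ∀ k : ℕ, n ≤ k → 0 < Real.log (k : ℝ) ∧ Real.log n ≤ Real.log k ∧
        Real.log k ≤ Real.log ((k + 1 : ℕ) : ℝ) ∧ Real.log ((k + 1 : ℕ) : ℝ) ≤ Real.log k + 1 := by
      intro k hk
      have hk0 : (0 : ℝ) < k := by exact_mod_cast (show 0 < k by omega)
      have a1 : Real.log n ≤ Real.log k := Real.log_le_log hn0 (by exact_mod_cast hk)
      have a2 : Real.log k ≤ Real.log ((k + 1 : ℕ) : ℝ) :=
        Real.log_le_log hk0 (by push_cast; linarith)
      have a3 : Real.log ((k + 1 : ℕ) : ℝ) ≤ Real.log k + 1 := by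
        have e : ((k + 1 : ℕ) : ℝ) = k * (1 + 1 / k) := by push_cast; field_simp
        rw [e, Real.log_mul hk0.ne' (by positivity)]
        have := Real.log_le_sub_one_of_pos (show (0 : ℝ) < 1 + 1 / k by positivity)
        have h1k : 1 / (k : ℝ) ≤ 1 := by
          rw [div_le_one hk0]
          exact_mod_cast (show 1 ≤ k by omega)
        linarith
      exact ⟨by linarith, a1, a2, a3⟩
    constructor
    · obtain ⟨l0, l1, l2, l3⟩ := hlg m m1
      rw [div_le_iff₀ l0] at m3
      have k1 : η * Real.log m ≤ τ / 4 * Real.log m := by gcongr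
      by_cases hmq : m % 2 = q
      · refine ⟨m, m1, by linarith, hmq, ?_⟩
        have : 0 < τ * Real.log m := by positivity
        nlinarith
      · refine ⟨m + 1, by omega, by push_cast; linarith, by omega, ?_⟩
        have k2 := (abs_le.1 (hpar m (by omega))).2
        have k3 : a * Real.log m ≤ a * Real.log ((m + 1 : ℕ) : ℝ) + |a| := by
          have := abs_mul a (Real.log ((m + 1 : ℕ) : ℝ) - Real.log m)
          have k4 : |Real.log ((m + 1 : ℕ) : ℝ) - Real.log m| ≤ 1 := by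
            rw [abs_le]; constructor <;> linarith
          have k5 : |a * (Real.log ((m + 1 : ℕ) : ℝ) - Real.log m)| ≤ |a| := by
            rw [this]
            have := abs_nonneg a
            nlinarith
          have := (abs_le.1 k5).1
          linarith
        have k6 : Real.log n * (τ / 4) ≤ Real.log m * (τ / 4) := by gcongr
        have k7 : τ * (1 + Real.log m) ≤ τ * (1 + Real.log ((m + 1 : ℕ) : ℝ)) := by gcongr
        nlinarith
    · obtain ⟨l0, l1, l2, l3⟩ := hlg j j1
      rw [le_div_iff₀ l0] at j3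
      have k1 : η * Real.log j ≤ τ / 4 * Real.log j := by gcongr
      by_cases hjq : j % 2 = q
      · refine ⟨j, j1, by linarith, hjq, ?_⟩
        have : 0 < τ * Real.log j := by positivity
        nlinarith
      · refine ⟨j + 1, by omega, by push_cast; linarith, by omega, ?_⟩
        have k2 := (abs_le.1 (hpar j (by omega))).1
        have k3 : a * Real.log ((j + 1 : ℕ) : ℝ) ≤ a * Real.log j + |a| := by
          have := abs_mul a (Real.log ((j + 1 : ℕ) : ℝ) - Real.log j)
          have k4 : |Real.log ((j + 1 : ℕ) : ℝ) - Real.log j| ≤ 1 := by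
            rw [abs_le]; constructor <;> linarith
          have k5 : |a * (Real.log ((j + 1 : ℕ) : ℝ) - Real.log j)| ≤ |a| := by
            rw [this]
            have := abs_nonneg a
            nlinarith
          have := (abs_le.1 k5).2
          linarith
        have k6 : Real.log n * (τ / 4) ≤ Real.log j * (τ / 4) := by gcongr
        have k7 : τ * (1 + Real.log j) ≤ τ * (1 + Real.log ((j + 1 : ℕ) : ℝ)) := by gcongr
        nlinarith
  have hup : ∀ q : ℕ, q ≤ 1 → ∀ τ : ℝ, 0 < τ → ∀ᶠ n : ℕ in atTop, n % 2 = q →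
      Real.log (u n) ≤ a * Real.log n + 0 + τ * (1 + Real.log n) := fun q hq τ hτ =>
    cls_upper (l := fun n => Real.log (u n)) (Nc.of_kc (R.kc q hq)) hq sc_log a 0
      (fun δ hδ τ' hτ' => (key δ hδ τ' hτ').mono fun n hn => (hn q hq).1) hτ
  have hlo : ∀ q : ℕ, q ≤ 1 → ∀ τ : ℝ, 0 < τ → ∀ᶠ n : ℕ in atTop, n % 2 = q →
      a * Real.log n + 0 - τ * (1 + Real.log n) ≤ Real.log (u n) := fun q hq τ hτ =>
    cls_lower (l := fun n => Real.log (u n)) (Nc.of_kc (R.kc q hq)) hq sc_log a 0 (hup q hq)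
      (fun δ hδ τ' hτ' => (key δ hδ τ' hτ').mono fun n hn => (hn q hq).2) hτ
  rw [Metric.tendsto_nhds]
  intro ε hε
  filter_upwards [hup 0 (by norm_num) (ε / 4) (by positivity), hup 1 le_rfl (ε / 4) (by positivity),
    hlo 0 (by norm_num) (ε / 4) (by positivity), hlo 1 le_rfl (ε / 4) (by positivity),
    eventually_ge_atTop 3] with n g1 g2 g3 g4 hn
  have hl := log_scale hn
  have hl0 : 0 < Real.log (n : ℝ) := by linarith
  have h1 : Real.log (u n) ≤ a * Real.log n + 0 + ε / 4 * (1 + Real.log n) := by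
    rcases Nat.mod_two_eq_zero_or_one n with h | h
    · exact g1 h
    · exact g2 h
  have h2 : a * Real.log n + 0 - ε / 4 * (1 + Real.log n) ≤ Real.log (u n) := by
    rcases Nat.mod_two_eq_zero_or_one n with h | h
    · exact g3 h
    · exact g4 h
  rw [Real.dist_eq, abs_lt]
  constructor
  · rw [lt_sub_iff_add_lt, lt_div_iff₀ hl0]
    nlinarith
  · rw [sub_lt_iff_lt_add, div_lt_iff₀ hl0]
    nlinarith

/-- subexponential growth -/
theorem growth3 (r : ℝ) (hr0 : 0 ≤ r) (hr1 : r < 1) : Summable (fun k => u3 k * r ^ k) := by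
  obtain ⟨τ, hτ⟩ : ∃ τ : ℝ, τ = (1 - r) / 2 := ⟨_, rfl⟩
  have hτ0 : 0 < τ := by rw [hτ]; linarith
  obtain ⟨C, hC, h⟩ := TH966.KO.growth τ hτ0
  have hlt : (1 + τ) * r < 1 := by rw [hτ]; nlinarith
  have h1 : Summable (fun k : ℕ => C * ((1 + τ) * r) ^ k) :=
    (summable_geometric_of_lt_one (by positivity) hlt).mul_left C
  refine h1.of_nonneg_of_le (fun k => ?_) (fun k => ?_)
  · exact mul_nonneg (div_nonneg (Nat.cast_nonneg _) (pow_nonneg mu_pos.le k)) (pow_nonneg hr0 k)
  · have h2 : u3 k ≤ C * (1 + τ) ^ k := by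
      unfold u3
      rw [div_le_iff₀ (pow_pos mu_pos k)]
      have := h k
      rwa [mul_pow, ← mul_assoc] at this
    rw [mul_pow, ← mul_assoc]
    exact mul_le_mul_of_nonneg_right h2 (pow_nonneg hr0 k)

end Pool.Agent.K3h54.PS
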