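import Pool.Agent.K3h54.PS.Cls
import Pool.Agent.K3h54.PS.Sum
import Pool.Agent.K3h54.PS.Abel

/-!
# From the exponential generating function to the coefficients
-/

set_option autoImplicit false
set_option linter.unusedVariables false

namespace Pool.Agent.K3h54.PS

open Filter Topology MeasureTheory ProbabilityTheory
open Pool.Agent.R956.K1

lemma Nc.of_kc {y : ℕ → ℝ} {D : ℝ} (K : Kc y D) : Nc (fun k => Real.log (y k)) D := ⟨K.D0, K.conv⟩

lemma kc_add {y z : ℕ → ℝ} {D D' : ℝ} (K : Kc y D) (K' : Kc z D') :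
    Kc (fun k => y k + z k) (max D D') := by
  refine ⟨fun k => add_nonneg (K.nonneg k) (K'.nonneg k), ?_, le_trans K.D0 (le_max_left _ _), ?_⟩
  · filter_upwards [K.pos] with k hk
    have := K'.nonneg k
    linarith
  · filter_upwards [K.kes, K'.kes, eventually_ge_atTop 1] with k h1 h2 hk
    have hk0 : (0 : ℝ) < k := by exact_mod_cast hk
    have hm : 0 ≤ max D D' := le_trans K.D0 (le_max_left _ _)
    obtain ⟨g, hg⟩ : ∃ g : ℝ, g = 1 + max D D' / k := ⟨_, rfl⟩
    have hg1 : 1 + D / k ≤ g := by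
      rw [hg]
      have : D / (k : ℝ) ≤ max D D' / k := by gcongr; exact le_max_left _ _
      linarith
    have hg2 : 1 + D' / k ≤ g := by
      rw [hg]
      have : D' / (k : ℝ) ≤ max D D' / k := by gcongr; exact le_max_right _ _
      linarith
    have hg0 : 0 < g := by rw [hg]; positivity
    rw [← hg]
    have a0 := K.nonneg k
    have a1 := K.nonneg (k + 1)
    have a2 := K.nonneg (k + 2)
    have b0 := K'.nonneg k
    have b1 := K'.nonneg (k + 1)
    have b2 := K'.nonneg (k + 2)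
    have h3 : y (k + 1) ^ 2 ≤ y k * y (k + 2) * g :=
      h1.trans (mul_le_mul_of_nonneg_left hg1 (by positivity))
    have h4 : z (k + 1) ^ 2 ≤ z k * z (k + 2) * g :=
      h2.trans (mul_le_mul_of_nonneg_left hg2 (by positivity))
    -- `2 y₁ z₁ ≤ g (y₀ z₂ + z₀ y₂)`
    have h5 : (y (k + 1) * z (k + 1)) ^ 2 ≤ ((y k * z (k + 2)) * (z k * y (k + 2))) * g ^ 2 := by
      calc (y (k + 1) * z (k + 1)) ^ 2 = y (k + 1) ^ 2 * z (k + 1) ^ 2 := by ring
        _ ≤ (y k * y (k + 2) * g) * (z k * z (k + 2) * g) := by gcongr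
        _ = _ := by ring
    have h6 : y (k + 1) * z (k + 1) ≤ (y k * z (k + 2) + z k * y (k + 2)) / 2 * g := by
      have h7 : ((y k * z (k + 2)) * (z k * y (k + 2))) ≤ ((y k * z (k + 2) + z k * y (k + 2)) / 2) ^ 2 := by
        nlinarith [sq_nonneg (y k * z (k + 2) - z k * y (k + 2))]
      have h8 : (y (k + 1) * z (k + 1)) ^ 2 ≤ ((y k * z (k + 2) + z k * y (k + 2)) / 2 * g) ^ 2 := by
        rw [mul_pow _ g]
        exact h5.trans (mul_le_mul_of_nonneg_right h7 (by positivity))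
      exact le_of_sq_le_sq h8 (by positivity)
    nlinarith

lemma kc_shift {y : ℕ → ℝ} {D : ℝ} (K : Kc y D) : Kc (fun k => y (k + 1)) D := by
  refine ⟨fun k => K.nonneg _, (tendsto_add_atTop_nat 1).eventually K.pos, K.D0, ?_⟩
  filter_upwards [(tendsto_add_atTop_nat 1).eventually K.kes, eventually_ge_atTop 1] with k h1 hk
  refine h1.trans ?_
  have hk0 : (0 : ℝ) < k := by exact_mod_cast hk
  have h2 : D / ((k + 1 : ℕ) : ℝ) ≤ D / k := by
    apply div_le_div_of_nonneg_left K.D0 hk0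
    push_cast
    linarith
  have := mul_nonneg (K.nonneg (k + 1)) (K.nonneg (k + 1 + 2))
  apply mul_le_mul_of_nonneg_left _ this
  linarith

/-- shifting the length inside a window -/
lemma log_shift (a : ℝ) {δ τ : ℝ} (hδ : 0 < δ) (hτ : 0 < τ) : ∀ᶠ n : ℕ in atTop, ∀ m : ℕ,
    (n : ℝ) < m → (m : ℝ) < n + δ * √(n : ℝ) → |a * Real.log m - a * Real.log n| ≤ τ := by
  have h1 : ∀ᶠ n : ℕ in atTop, (|a| * δ / τ) ^ 2 ≤ (n : ℝ) :=
    tendsto_natCast_atTop_atTop.eventually_ge_atTop _
  filter_upwards [h1, eventually_ge_atTop 1] with n h1 hn m hm1 hm2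
  have hn0 : (0 : ℝ) < n := by exact_mod_cast hn
  have h2 := psi_diff a 0 hn (show n ≤ m by exact_mod_cast hm1.le)
  rw [add_zero, add_zero] at h2
  refine h2.trans ?_
  rw [div_le_iff₀ hn0]
  have h3 : |a| * δ / τ ≤ √(n : ℝ) := Real.le_sqrt_of_sq_le h1
  rw [div_le_iff₀ hτ] at h3
  have h4 : |a| * ((m : ℝ) - n) ≤ |a| * (δ * √(n : ℝ)) := by
    apply mul_le_mul_of_nonneg_left _ (abs_nonneg a)
    linarith
  have h5 : √(n : ℝ) * √(n : ℝ) = n := Real.mul_self_sqrt hn0.le
  have h6 := mul_le_mul_of_nonneg_right h3 (Real.sqrt_nonneg (n : ℝ))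
  nlinarith

/-- **Tauberian theorem**: the bump-weighted sums of a parity class determine the coefficients -/
theorem tauber {v : ℕ → ℝ} (hv : ∀ n, 0 < v n) {q : ℕ} (hq : q ≤ 1) (hz : Adm (rs q v)) {D : ℝ}
    (hl : Nc (fun k => Real.log (v (2 * k + q))) D) {a A : ℝ} (hA : 0 < A)
    (H : ∀ δ : ℝ, 0 < δ →
      Tendsto (fun X : ℝ => ws (rs q v) δ X / (Real.exp X * X ^ a)) atTop (𝓝 (A * gi δ))) :
    Tendsto (fun n : ℕ => v n / (n : ℝ) ^ a) (atTop ⊓ 𝓟 {n | n % 2 = q}) (𝓝 (2 * A)) := by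
  have hsupp : ∀ n, n % 2 ≠ q → rs q v n = 0 := by
    intro n hn
    unfold rs ind
    rw [if_neg hn, zero_mul]
  have hval : ∀ n, n % 2 = q → rs q v n = v n := by
    intro n hn
    unfold rs ind
    rw [if_pos hn, one_mul]
  have h2A : 0 < 2 * A := by positivity
  -- the points
  have key : ∀ δ : ℝ, 0 < δ → ∀ τ : ℝ, 0 < τ → ∀ᶠ n : ℕ in atTop,
      (∃ m : ℕ, n ≤ m ∧ (m : ℝ) ≤ n + δ * √((n : ℝ) * 1) ∧ m % 2 = q ∧
        Real.log (v m) ≤ a * Real.log m + Real.log (2 * A) + τ * 1) ∧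
      (∃ m : ℕ, n ≤ m ∧ (m : ℝ) ≤ n + δ * √((n : ℝ) * 1) ∧ m % 2 = q ∧
        a * Real.log m + Real.log (2 * A) - τ * 1 ≤ Real.log (v m)) := by
    intro δ hδ τ hτ
    obtain ⟨η, hη⟩ : ∃ η : ℝ, η = min A (A * (τ / 4)) := ⟨_, rfl⟩
    have hη0 : 0 < η := by rw [hη]; positivity
    have hη1 : η ≤ A := by rw [hη]; exact min_le_left _ _
    have hη2 : η ≤ A * (τ / 4) := by rw [hη]; exact min_le_right _ _
    have h1 := tendsto_natCast_atTop_atTop.eventually (points hz hq hA hδ hsupp (H δ hδ) hη0)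
    filter_upwards [h1, log_shift a hδ (show 0 < τ / 2 by positivity), eventually_ge_atTop 1]
      with n hn hsh hn1
    have hn0 : (0 : ℝ) < n := by exact_mod_cast hn1
    have hna : 0 < (n : ℝ) ^ a := Real.rpow_pos_of_pos hn0 a
    obtain ⟨⟨m, m1, m2, m3, m4⟩, ⟨j, j1, j2, j3, j4⟩⟩ := hn
    rw [hval m m3] at m4
    rw [hval j j3] at j4
    rw [mul_one]
    refine ⟨⟨m, by exact_mod_cast m1.le, m2.le, m3, ?_⟩, ⟨j, by exact_mod_cast j1.le, j2.le, j3, ?_⟩⟩
    · have h2 := Real.log_le_log (hv m) m4.le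
      rw [Real.log_mul (by linarith) hna.ne', Real.log_rpow hn0] at h2
      have h3 : Real.log (2 * A + η) ≤ Real.log (2 * A) + τ / 4 := by
        have e : 2 * A + η = 2 * A * (1 + η / (2 * A)) := by field_simp
        rw [e, Real.log_mul (by positivity) (by positivity)]
        have h4 := Real.log_le_sub_one_of_pos (show 0 < 1 + η / (2 * A) by positivity)
        have h5 : η / (2 * A) ≤ τ / 4 := by
          rw [div_le_iff₀ (by positivity)]
          nlinarith
        linarith
      have h4 := (abs_le.1 (hsh m m1 m2)).1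
      linarith
    · have h6 : 0 < 2 * A - η := by linarith
      have h2 := Real.log_le_log (by positivity) j4.le
      rw [Real.log_mul h6.ne' hna.ne', Real.log_rpow hn0] at h2
      have h3 : Real.log (2 * A) - τ / 4 ≤ Real.log (2 * A - η) := by
        have h7 := Real.log_le_sub_one_of_pos (show 0 < 2 * A / (2 * A - η) by positivity)
        rw [Real.log_div h2A.ne' h6.ne'] at h7
        have e : 2 * A / (2 * A - η) - 1 = η / (2 * A - η) := by field_simp; ring
        have h5 : η / (2 * A - η) ≤ τ / 4 := by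
          rw [div_le_iff₀ h6]
          have : A * (τ / 4) ≤ τ / 4 * (2 * A - η) := by nlinarith
          linarith
        linarith
      have h4 := (abs_le.1 (hsh j j1 j2)).2
      linarith
  have hup : ∀ τ : ℝ, 0 < τ → ∀ᶠ n : ℕ in atTop, n % 2 = q →
      Real.log (v n) ≤ a * Real.log n + Real.log (2 * A) + τ * 1 := fun τ hτ =>
    cls_upper (l := fun n => Real.log (v n)) (E := fun _ => 1) hl hq sc_one a (Real.log (2 * A))
      (fun δ hδ τ' hτ' => (key δ hδ τ' hτ').mono fun n hn => hn.1) hτ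
  have hlo : ∀ τ : ℝ, 0 < τ → ∀ᶠ n : ℕ in atTop, n % 2 = q →
      a * Real.log n + Real.log (2 * A) - τ * 1 ≤ Real.log (v n) := fun τ hτ =>
    cls_lower (l := fun n => Real.log (v n)) (E := fun _ => 1) hl hq sc_one a (Real.log (2 * A)) hup
      (fun δ hδ τ' hτ' => (key δ hδ τ' hτ').mono fun n hn => hn.2) hτ
  have hlim : Tendsto (fun n : ℕ => Real.log (v n) - (a * Real.log n + Real.log (2 * A)))
      (atTop ⊓ 𝓟 {n | n % 2 = q}) (𝓝 0) := by
    rw [Metric.tendsto_nhds]
    intro ε hε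
    rw [eventually_inf_principal]
    filter_upwards [hup (ε / 2) (by positivity), hlo (ε / 2) (by positivity)] with n g1 g2 hnq
    have g3 := g1 hnq
    have g4 := g2 hnq
    rw [dist_zero_right, Real.norm_eq_abs, abs_lt]
    constructor <;> linarith
  have h2 := ((Real.continuous_exp.tendsto 0).comp hlim).mul_const (2 * A)
  rw [Real.exp_zero, one_mul] at h2
  refine h2.congr' ?_
  rw [EventuallyEq, eventually_inf_principal]
  filter_upwards [eventually_ge_atTop 1] with n hn _
  have hn0 : (0 : ℝ) < n := by exact_mod_cast hn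
  have hp : 0 < (n : ℝ) ^ a := Real.rpow_pos_of_pos hn0 _
  simp only [Function.comp_apply]
  rw [Real.exp_sub, Real.exp_add, Real.exp_log (hv n), Real.exp_log h2A, mul_comm a,
    ← Real.rpow_def_of_pos hn0]
  field_simp

/-- regular sequences: bounded below by `1`, Kesten's inequality on both parity classes -/
structure Rg (u : ℕ → ℝ) (D : ℝ) : Prop where
  adm : Adm u
  one : ∀ n, 1 ≤ u n
  kc : ∀ q : ℕ, q ≤ 1 → Kc (fun k => u (2 * k + q)) D

variable {u : ℕ → ℝ} {D : ℝ}

lemma Rg.pos (R : Rg u D) (n : ℕ) : 0 < u n := lt_of_lt_of_le one_pos (R.one n)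

/-- nonnegativity of the exponent -/
lemma nonneg_of_cls (R : Rg u D) {q : ℕ} (hq : q ≤ 1) {a A : ℝ}
    (h : Tendsto (fun n : ℕ => u n / (n : ℝ) ^ a) (atTop ⊓ 𝓟 {n | n % 2 = q}) (𝓝 A)) : 0 ≤ a := by
  by_contra hneg
  push Not at hneg
  have ht : Tendsto (fun k : ℕ => 2 * k + q) atTop (atTop ⊓ 𝓟 {n | n % 2 = q}) := by
    refine tendsto_inf.mpr ⟨tendsto_atTop_mono (fun k => by simp only [id]; omega) tendsto_id, ?_⟩
    rw [tendsto_principal]
    exact Eventually.of_forall fun k => by simp only [Set.mem_setOf_eq]; omega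
  have h1 := h.comp ht
  have h2 : Tendsto (fun k : ℕ => ((2 * k + q : ℕ) : ℝ) ^ (-a)) atTop atTop :=
    (tendsto_rpow_atTop (by linarith)).comp (tendsto_natCast_atTop_atTop.comp
      (ht.mono_right inf_le_left))
  have h3 : Tendsto (fun k : ℕ => u (2 * k + q) / ((2 * k + q : ℕ) : ℝ) ^ a) atTop atTop := by
    refine tendsto_atTop_mono' _ ?_ h2
    filter_upwards [eventually_ge_atTop 1] with k hk
    have hk0 : (0 : ℝ) < ((2 * k + q : ℕ) : ℝ) := by exact_mod_cast (show 0 < 2 * k + q by omega)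
    rw [Real.rpow_neg hk0.le, inv_eq_one_div]
    have := Real.rpow_pos_of_pos hk0 a
    gcongr
    exact R.one _
  exact not_tendsto_atTop_of_tendsto_nhds h1 h3

/-- **a parity class**: equivalence -/
theorem Rg.cls_iff (R : Rg u D) {q : ℕ} (hq : q ≤ 1) {a A : ℝ} (hA : 0 < A) :
    Tendsto (fun n : ℕ => u n / (n : ℝ) ^ a) (atTop ⊓ 𝓟 {n | n % 2 = q}) (𝓝 A) ↔
    Tendsto (fun X : ℝ => egf (rs q u) X / (Real.exp X * X ^ a)) atTop (𝓝 (A / 2)) := by
  constructor
  · intro h
    have ha := nonneg_of_cls R hq h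
    rw [Metric.tendsto_nhds] at h ⊢
    have hp := egf_rs_pw_lim ha hq
    intro ε hε
    obtain ⟨τ, hτ⟩ : ∃ τ : ℝ, τ = min A (ε / 2) := ⟨_, rfl⟩
    have hτ0 : 0 < τ := by rw [hτ]; positivity
    have hτ1 : τ ≤ A := by rw [hτ]; exact min_le_left _ _
    have hτ2 : τ ≤ ε / 2 := by rw [hτ]; exact min_le_right _ _
    have h1 := h τ hτ0
    rw [eventually_inf_principal] at h1
    have h2 : ∀ᶠ n : ℕ in atTop, rs q u n ≤ (A + τ) * rs q (pw a) n := by
      filter_upwards [h1, eventually_ge_atTop 1] with n hn hn1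
      unfold rs ind
      split_ifs with hnq
      · have h3 := hn hnq
        rw [Real.dist_eq, abs_lt] at h3
        have hn0 : (0 : ℝ) < n := by exact_mod_cast hn1
        have hna := Real.rpow_pos_of_pos hn0 a
        unfold pw
        rw [one_mul, one_mul, ← div_le_iff₀ hna]
        linarith
      · simp
    have h3 : ∀ᶠ n : ℕ in atTop, (A - τ) * rs q (pw a) n ≤ rs q u n := by
      filter_upwards [h1, eventually_ge_atTop 1] with n hn hn1
      unfold rs ind
      split_ifs with hnq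
      · have h3 := hn hnq
        rw [Real.dist_eq, abs_lt] at h3
        have hn0 : (0 : ℝ) < n := by exact_mod_cast hn1
        have hna := Real.rpow_pos_of_pos hn0 a
        unfold pw
        rw [one_mul, one_mul, ← le_div_iff₀ hna]
        linarith
      · simp
    filter_upwards [dom_le (R.adm.rs q) ((adm_pw ha).rs q) ha (by linarith) hp h2
        (show 0 < ε / 4 by positivity),
      dom_ge (R.adm.rs q) ((adm_pw ha).rs q) ha (by linarith) hp h3 (show 0 < ε / 4 by positivity)]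
      with X g1 g2
    rw [Real.dist_eq, abs_lt]
    constructor <;> linarith
  · intro h
    have h1 := tauber R.pos hq (R.adm.rs q) (Nc.of_kc (R.kc q hq)) (show 0 < A / 2 by positivity)
      (a := a) (fun δ hδ => (R.adm.rs q).ws_lim (by positivity) h hδ)
    rwa [show 2 * (A / 2) = A by ring] at h1

/-- the sums of two consecutive terms satisfy Kesten's inequality -/
lemma Rg.kc_sum (R : Rg u D) {q : ℕ} (hq : q ≤ 1) :
    Kc (fun k => u (2 * k + q) + u (2 * k + q + 1)) D := by
  rcases (show q = 0 ∨ q = 1 by omega) with rfl | rfl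
  · have := kc_add (R.kc 0 (by norm_num)) (R.kc 1 le_rfl)
    rw [max_self] at this
    exact this
  · have := kc_add (R.kc 1 le_rfl) (kc_shift (R.kc 0 (by norm_num)))
    rw [max_self] at this
    exact this

/-- **sums of two consecutive terms**: from the exponential generating function -/
theorem Rg.sum_of_egf (R : Rg u D) {a A : ℝ} (hA : 0 < A)
    (H : Tendsto (fun X : ℝ => egf u X / (Real.exp X * X ^ a)) atTop (𝓝 A)) :
    Tendsto (fun n : ℕ => (u n + u (n + 1)) / (n : ℝ) ^ a) atTop (𝓝 (2 * A)) := by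
  have key : ∀ q : ℕ, q ≤ 1 → Tendsto (fun n : ℕ => (u n + u (n + 1)) / (n : ℝ) ^ a)
      (atTop ⊓ 𝓟 {n | n % 2 = q}) (𝓝 (2 * A)) := by
    intro q hq
    have e : rs q (fun n => u n + u (n + 1)) = su q u := by
      funext n
      rfl
    refine tauber (v := fun n => u n + u (n + 1)) (fun n => add_pos (R.pos _) (R.pos _)) hq
      (by rw [e]; exact R.adm.su q) (Nc.of_kc (R.kc_sum hq)) hA (fun δ hδ => ?_)
    rw [e]
    exact R.adm.ws_su hq hA H hδ
  have h0 := key 0 (by norm_num)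
  have h1 := key 1 le_rfl
  intro U hU
  have g0 := h0 hU
  have g1 := h1 hU
  rw [mem_map, mem_inf_principal] at g0 g1
  rw [mem_map]
  filter_upwards [g0, g1] with n k0 k1
  rcases Nat.mod_two_eq_zero_or_one n with h | h
  · exact k0 h
  · exact k1 h

end Pool.Agent.K3h54.PS
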