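import Pool.Agent.K3h54.PS.Egf

/-!
# Short windows of the coefficients from the exponential generating function
-/

set_option autoImplicit false
set_option linter.unusedVariables false

namespace Pool.Agent.K3h54.PS

open Filter Topology MeasureTheory ProbabilityTheory

/-- a bump on `(0, δ)` -/
noncomputable def bump (δ : ℝ) (t : ℝ) : ℝ := max 0 (min t (δ - t))

lemma bump_nonneg (δ t : ℝ) : 0 ≤ bump δ t := le_max_left _ _

lemma bump_cont (δ : ℝ) : Continuous (bump δ) := by unfold bump; fun_prop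

lemma bump_le {δ : ℝ} (hδ : 0 < δ) (t : ℝ) : bump δ t ≤ δ := by
  unfold bump
  refine max_le hδ.le ?_
  rcases le_total t 0 with h | h
  · exact (min_le_left _ _).trans (by linarith)
  · exact (min_le_right _ _).trans (by linarith)

lemma bump_pos {δ t : ℝ} (h : 0 < bump δ t) : 0 < t ∧ t < δ := by
  unfold bump at h
  rw [lt_max_iff] at h
  rcases h with h | h
  · exact absurd h (lt_irrefl _)
  · rw [lt_min_iff] at h
    exact ⟨h.1, by linarith [h.2]⟩

lemma bump_lip (δ s t : ℝ) : |bump δ s - bump δ t| ≤ |s - t| := by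
  unfold bump
  refine (abs_max_sub_max_le_max _ _ _ _).trans ?_
  rw [sub_self, abs_zero]
  refine max_le (abs_nonneg _) ((abs_min_sub_min_le_max _ _ _ _).trans ?_)
  rw [show δ - s - (δ - t) = -(s - t) by ring, abs_neg, max_self]

/-- the bump as a bounded continuous function -/
noncomputable def bumpB (δ : ℝ) (hδ : 0 < δ) : BoundedContinuousFunction ℝ ℝ :=
  BoundedContinuousFunction.ofNormedAddCommGroup (bump δ) (bump_cont δ) δ (fun t => by
    rw [Real.norm_of_nonneg (bump_nonneg δ t)]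
    exact bump_le hδ t)

lemma bumpB_apply {δ : ℝ} (hδ : 0 < δ) (t : ℝ) : bumpB δ hδ t = bump δ t := rfl

/-- the normal integral of the bump -/
noncomputable def gi (δ : ℝ) : ℝ := ∫ x, bump δ x ∂(gaussianReal 0 1)

lemma gi_pos {δ : ℝ} (hδ : 0 < δ) : 0 < gi δ := by
  unfold gi
  rw [integral_pos_iff_support_of_nonneg (fun t => bump_nonneg δ t) ((bumpB δ hδ).integrable _)]
  have h1 : Set.Ioo 0 δ ⊆ Function.support (bump δ) := by
    intro t ht
    rw [Function.mem_support]
    have : 0 < bump δ t := by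
      unfold bump
      rw [lt_max_iff, lt_min_iff]
      exact Or.inr ⟨ht.1, by linarith [ht.2]⟩
    exact this.ne'
  refine lt_of_lt_of_le ?_ (measure_mono h1)
  rw [pos_iff_ne_zero]
  intro h0
  have h2 : volume (Set.Ioo (0 : ℝ) δ) = 0 := by
    exact (gaussianReal_absolutelyContinuous' 0 one_ne_zero) h0
  rw [Real.volume_Ioo, sub_zero, ENNReal.ofReal_eq_zero] at h2
  linarith

/-- the sum of the terms weighted with the bump -/
noncomputable def ws (z : ℕ → ℝ) (δ X : ℝ) : ℝ := ∑' n, tm z X n * bump δ (tt X n)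

lemma Adm.summ_bump {z : ℕ → ℝ} (h : Adm z) {δ : ℝ} (hδ : 0 < δ) {X : ℝ} (hX : 0 ≤ X) :
    Summable (fun n => tm z X n * bump δ (tt X n)) := by
  refine Summable.of_nonneg_of_le (fun n => ?_) (fun n => ?_) ((h.summ X).mul_right δ)
  · exact mul_nonneg (tm_nonneg h.nonneg hX n) (bump_nonneg _ _)
  · exact mul_le_mul_of_nonneg_left (bump_le hδ _) (tm_nonneg h.nonneg hX n)

/-- the weighted sums have the expected limit -/
theorem Adm.ws_lim {z : ℕ → ℝ} (h : Adm z) {a A : ℝ} (hA : 0 < A)
    (H : Tendsto (fun X : ℝ => egf z X / (Real.exp X * X ^ a)) atTop (𝓝 A)) {δ : ℝ} (hδ : 0 < δ) :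
    Tendsto (fun X : ℝ => ws z δ X / (Real.exp X * X ^ a)) atTop (𝓝 (A * gi δ)) := by
  have h1 := h.weak hA H (bumpB δ hδ)
  have h2 := H.mul h1
  refine h2.congr' ?_
  have hpos : ∀ᶠ X : ℝ in atTop, 0 < egf z X := by
    filter_upwards [eventually_gt_atTop 0, H.eventually_const_lt hA] with X hX hp
    have hXa : 0 < X ^ a := Real.rpow_pos_of_pos hX a
    have := mul_pos hp (show 0 < Real.exp X * X ^ a by positivity)
    rwa [div_mul_cancel₀ _ (by positivity)] at this
  filter_upwards [hpos] with X hX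
  simp only [bumpB_apply]
  unfold ws
  field_simp

/-- a point of the window with a small coefficient -/
lemma point_lt {z z' : ℕ → ℝ} (hz : Adm z) (hz' : Adm z') {δ X c : ℝ} (hδ : 0 < δ) (hX : 0 < X)
    (h : ws z δ X < c * ws z' δ X) :
    ∃ m : ℕ, X < m ∧ (m : ℝ) < X + δ * √X ∧ z m < c * z' m := by
  by_contra hcon
  push Not at hcon
  have h1 : c * ws z' δ X ≤ ws z δ X := by
    unfold ws
    rw [← tsum_mul_left]
    refine ((hz'.summ_bump hδ hX.le).mul_left c).tsum_le_tsum (fun n => ?_) (hz.summ_bump hδ hX.le)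
    rcases (bump_nonneg δ (tt X n)).eq_or_lt with h0 | h0
    · rw [← h0]; simp
    · obtain ⟨h2, h3⟩ := bump_pos h0
      unfold tt at h2 h3
      have hs := Real.sqrt_pos.2 hX
      have h4 : X < n := by
        by_contra hc
        push Not at hc
        have : ((n : ℝ) - X) / √X ≤ 0 := div_nonpos_of_nonpos_of_nonneg (by linarith) hs.le
        linarith
      have h5 : (n : ℝ) < X + δ * √X := by
        rw [div_lt_iff₀ hs] at h3
        linarith
      have h6 := hcon n h4 h5
      have h7 : c * (tm z' X n) ≤ tm z X n := by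
        unfold tm
        have : 0 ≤ X ^ n / (n.factorial : ℝ) := by positivity
        calc c * (z' n * X ^ n / (n.factorial : ℝ)) = c * z' n * (X ^ n / (n.factorial : ℝ)) := by ring
          _ ≤ z n * (X ^ n / (n.factorial : ℝ)) := by gcongr
          _ = _ := by ring
      calc c * (tm z' X n * bump δ (tt X n)) = c * tm z' X n * bump δ (tt X n) := by ring
        _ ≤ _ := mul_le_mul_of_nonneg_right h7 h0.le
  linarith

/-- a point of the window with a large coefficient -/
lemma point_gt {z z' : ℕ → ℝ} (hz : Adm z) (hz' : Adm z') {δ X c : ℝ} (hδ : 0 < δ) (hX : 0 < X)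
    (h : c * ws z' δ X < ws z δ X) :
    ∃ m : ℕ, X < m ∧ (m : ℝ) < X + δ * √X ∧ c * z' m < z m := by
  by_contra hcon
  push Not at hcon
  have h1 : ws z δ X ≤ c * ws z' δ X := by
    unfold ws
    rw [← tsum_mul_left]
    refine (hz.summ_bump hδ hX.le).tsum_le_tsum (fun n => ?_) ((hz'.summ_bump hδ hX.le).mul_left c)
    rcases (bump_nonneg δ (tt X n)).eq_or_lt with h0 | h0
    · rw [← h0]; simp
    · obtain ⟨h2, h3⟩ := bump_pos h0
      unfold tt at h2 h3
      have hs := Real.sqrt_pos.2 hX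
      have h4 : X < n := by
        by_contra hc
        push Not at hc
        have : ((n : ℝ) - X) / √X ≤ 0 := div_nonpos_of_nonpos_of_nonneg (by linarith) hs.le
        linarith
      have h5 : (n : ℝ) < X + δ * √X := by
        rw [div_lt_iff₀ hs] at h3
        linarith
      have h6 := hcon n h4 h5
      have h7 : tm z X n ≤ c * (tm z' X n) := by
        unfold tm
        have : 0 ≤ X ^ n / (n.factorial : ℝ) := by positivity
        calc z n * X ^ n / (n.factorial : ℝ) = z n * (X ^ n / (n.factorial : ℝ)) := by ring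
          _ ≤ c * z' n * (X ^ n / (n.factorial : ℝ)) := by gcongr
          _ = _ := by ring
      calc tm z X n * bump δ (tt X n) ≤ c * tm z' X n * bump δ (tt X n) :=
            mul_le_mul_of_nonneg_right h7 h0.le
        _ = _ := by ring
  linarith

/-- the indicator of a parity class -/
noncomputable def ind (q : ℕ) (n : ℕ) : ℝ := if n % 2 = q then 1 else 0

/-- the restriction to a parity class -/
noncomputable def rs (q : ℕ) (z : ℕ → ℝ) (n : ℕ) : ℝ := ind q n * z n

lemma ind_nonneg (q n : ℕ) : 0 ≤ ind q n := by unfold ind; split_ifs <;> norm_num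

lemma ind_le (q n : ℕ) : ind q n ≤ 1 := by unfold ind; split_ifs <;> norm_num

lemma Adm.rs {z : ℕ → ℝ} (h : Adm z) (q : ℕ) : Adm (rs q z) := by
  refine ⟨fun n => mul_nonneg (ind_nonneg q n) (h.nonneg n), fun X => ?_⟩
  refine Summable.of_norm_bounded (g := fun n => ‖tm z X n‖) (h.summ X).norm (fun n => ?_)
  unfold tm PS.rs
  rw [show ind q n * z n * X ^ n / (n.factorial : ℝ) = ind q n * (z n * X ^ n / (n.factorial : ℝ)) by ring,
    norm_mul]
  have h1 : ‖ind q n‖ ≤ 1 := by
    rw [Real.norm_of_nonneg (ind_nonneg q n)]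
    exact ind_le q n
  have h2 := norm_nonneg (z n * X ^ n / (n.factorial : ℝ))
  nlinarith

lemma ind_eq {q : ℕ} (hq : q ≤ 1) (n : ℕ) : ind q n = (1 + (-1) ^ q * (-1) ^ n) / 2 := by
  unfold ind
  have h2 : q = 0 ∨ q = 1 := by omega
  rcases Nat.even_or_odd n with h | h
  · have h3 : n % 2 = 0 := Nat.even_iff.1 h
    rw [h.neg_one_pow]
    rcases h2 with rfl | rfl <;> simp [h3]
  · have h3 : n % 2 = 1 := Nat.odd_iff.1 h
    rw [h.neg_one_pow]
    rcases h2 with rfl | rfl <;> simp [h3]

/-- the exponential generating function of a parity class -/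
lemma egf_rs {z : ℕ → ℝ} (h : Adm z) {q : ℕ} (hq : q ≤ 1) (X : ℝ) :
    egf (rs q z) X = (egf z X + (-1) ^ q * egf z (-X)) / 2 := by
  unfold egf
  have e : ∀ n, tm (rs q z) X n = (tm z X n + (-1) ^ q * tm z (-X) n) / 2 := by
    intro n
    unfold tm rs
    rw [ind_eq hq, neg_pow X n]
    ring
  simp_rw [e]
  rw [tsum_div_const, ((h.summ X).tsum_add ((h.summ (-X)).mul_left _)), tsum_mul_left]

/-- the constant sequence `1` -/
lemma adm_one : Adm (fun _ => 1) := by
  refine ⟨fun _ => zero_le_one, fun X => ?_⟩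
  unfold tm
  simpa using Real.summable_pow_div_factorial X

lemma egf_one (X : ℝ) : egf (fun _ => 1) X = Real.exp X := by
  unfold egf tm
  rw [Real.exp_eq_exp_ℝ, NormedSpace.exp_eq_tsum_div]
  simp

lemma ind_rs (q : ℕ) : rs q (fun _ => 1) = ind q := by
  funext n
  unfold rs
  rw [mul_one]

lemma adm_ind (q : ℕ) : Adm (ind q) := by rw [← ind_rs]; exact adm_one.rs q

lemma egf_ind_lim {q : ℕ} (hq : q ≤ 1) :
    Tendsto (fun X : ℝ => egf (ind q) X / (Real.exp X * X ^ (0 : ℝ))) atTop (𝓝 (1 / 2)) := by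
  have h1 : Tendsto (fun X : ℝ => Real.exp (-X) * Real.exp (-X)) atTop (𝓝 (0 * 0)) :=
    (Real.tendsto_exp_neg_atTop_nhds_zero).mul Real.tendsto_exp_neg_atTop_nhds_zero
  have h2 := ((h1.const_mul ((-1 : ℝ) ^ q)).const_add 1).div_const 2
  rw [mul_zero, mul_zero, add_zero] at h2
  refine h2.congr' ?_
  filter_upwards [eventually_gt_atTop 0] with X hX
  rw [← ind_rs, egf_rs adm_one hq, egf_one, egf_one, Real.rpow_zero, mul_one]
  have h3 : Real.exp (-X) = (Real.exp X)⁻¹ := Real.exp_neg X
  have h4 := Real.exp_pos X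
  rw [h3]
  field_simp

lemma ws_ind_lim {q : ℕ} (hq : q ≤ 1) {δ : ℝ} (hδ : 0 < δ) :
    Tendsto (fun X : ℝ => ws (ind q) δ X / Real.exp X) atTop (𝓝 (1 / 2 * gi δ)) := by
  have := (adm_ind q).ws_lim (by norm_num) (egf_ind_lim hq) hδ
  refine this.congr fun X => ?_
  rw [Real.rpow_zero, mul_one]

/-- **windows**: if the weighted sums of `z` behave like those of `X ^ a` on the class `q`, then the
windows `(X, X + δ √X)` contain points of the class with small and with large values of `z` -/
theorem points {z : ℕ → ℝ} (hz : Adm z) {q : ℕ} (hq : q ≤ 1) {a A δ : ℝ} (hA : 0 < A)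
    (hδ : 0 < δ) (hsupp : ∀ n, n % 2 ≠ q → z n = 0)
    (H : Tendsto (fun X : ℝ => ws z δ X / (Real.exp X * X ^ a)) atTop (𝓝 (A * gi δ)))
    {τ : ℝ} (hτ : 0 < τ) : ∀ᶠ X : ℝ in atTop,
      (∃ m : ℕ, X < m ∧ (m : ℝ) < X + δ * √X ∧ m % 2 = q ∧ z m < (2 * A + τ) * X ^ a) ∧
      (∃ m : ℕ, X < m ∧ (m : ℝ) < X + δ * √X ∧ m % 2 = q ∧ (2 * A - τ) * X ^ a < z m) := by
  have h1 := ws_ind_lim hq hδ
  have hg := gi_pos hδ
  have h2 : Tendsto (fun X : ℝ => ws z δ X / (Real.exp X * X ^ a) -
      (2 * A + τ) * (ws (ind q) δ X / Real.exp X)) atTop (𝓝 (A * gi δ - (2 * A + τ) * (1 / 2 * gi δ))) :=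
    H.sub (h1.const_mul _)
  have h3 : Tendsto (fun X : ℝ => ws z δ X / (Real.exp X * X ^ a) -
      (2 * A - τ) * (ws (ind q) δ X / Real.exp X)) atTop (𝓝 (A * gi δ - (2 * A - τ) * (1 / 2 * gi δ))) :=
    H.sub (h1.const_mul _)
  have e2 : A * gi δ - (2 * A + τ) * (1 / 2 * gi δ) < 0 := by nlinarith
  have e3 : 0 < A * gi δ - (2 * A - τ) * (1 / 2 * gi δ) := by nlinarith
  filter_upwards [h2.eventually_lt_const e2, h3.eventually_const_lt e3, eventually_gt_atTop 0]
    with X g2 g3 hX
  have he := Real.exp_pos X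
  have hXa : 0 < X ^ a := Real.rpow_pos_of_pos hX a
  constructor
  · have g4 : ws z δ X < (2 * A + τ) * X ^ a * ws (ind q) δ X := by
      have h4 := mul_lt_mul_of_pos_right g2 (show 0 < Real.exp X * X ^ a by positivity)
      have e : (ws z δ X / (Real.exp X * X ^ a) - (2 * A + τ) * (ws (ind q) δ X / Real.exp X)) *
          (Real.exp X * X ^ a) = ws z δ X - (2 * A + τ) * X ^ a * ws (ind q) δ X := by
        field_simp
      rw [e, zero_mul] at h4
      linarith
    obtain ⟨m, m1, m2, m3⟩ := point_lt hz (adm_ind q) hδ hX g4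
    have hm : m % 2 = q := by
      by_contra hc
      have : ind q m = 0 := by unfold ind; rw [if_neg hc]
      rw [this, mul_zero, hsupp m hc] at m3
      exact lt_irrefl _ m3
    refine ⟨m, m1, m2, hm, ?_⟩
    have : ind q m = 1 := by unfold ind; rw [if_pos hm]
    rwa [this, mul_one] at m3
  · have g4 : (2 * A - τ) * X ^ a * ws (ind q) δ X < ws z δ X := by
      have h4 := mul_lt_mul_of_pos_right g3 (show 0 < Real.exp X * X ^ a by positivity)
      have e : (ws z δ X / (Real.exp X * X ^ a) - (2 * A - τ) * (ws (ind q) δ X / Real.exp X)) *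
          (Real.exp X * X ^ a) = ws z δ X - (2 * A - τ) * X ^ a * ws (ind q) δ X := by
        field_simp
      rw [e, zero_mul] at h4
      linarith
    obtain ⟨m, m1, m2, m3⟩ := point_gt hz (adm_ind q) hδ hX g4
    have hm : m % 2 = q := by
      by_contra hc
      have : ind q m = 0 := by unfold ind; rw [if_neg hc]
      rw [this, mul_zero, hsupp m hc] at m3
      exact lt_irrefl _ m3
    refine ⟨m, m1, m2, hm, ?_⟩
    have : ind q m = 1 := by unfold ind; rw [if_pos hm]
    rwa [this, mul_one] at m3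

end Pool.Agent.K3h54.PS
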