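import Pool.Agent.K3h54.PS.Exp2
import Pool.Agent.K3h54.PS.Sum2
import Pool.Agent.R956.K5

/-!
# The exponential generating function of the numbers of self-avoiding walks on `ℤ³`
-/

set_option autoImplicit false
set_option linter.unusedVariables false

namespace Pool.Agent.K3h54.PS

open Filter Topology
open Pool.Agent.R956.K1

lemma kc_mono {y : ℕ → ℝ} {D D' : ℝ} (K : Kc y D) (h : D ≤ D') : Kc y D' := by
  refine ⟨K.nonneg, K.pos, K.D0.trans h, ?_⟩
  filter_upwards [K.kes] with k hk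
  refine hk.trans ?_
  have := mul_nonneg (K.nonneg k) (K.nonneg (k + 2))
  have h2 : D / (k : ℝ) ≤ D' / k := by gcongr
  apply mul_le_mul_of_nonneg_left _ this
  linarith

/-- the normalised numbers of self-avoiding walks on `ℤ³` -/
noncomputable def u3 (n : ℕ) : ℝ := (TH966.KO.c n : ℝ) / TH966.KO.μ ^ n

lemma mu_pos : 0 < TH966.KO.μ := by linarith [TH966.KO.mu_one]

theorem rg3 : ∃ D : ℝ, Rg u3 D := by
  obtain ⟨D0, K0⟩ := Pool.Agent.R956.K3.kc Pool.Agent.R956.K5.wk3 (p := 0) (by norm_num)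
  obtain ⟨D1, K1⟩ := Pool.Agent.R956.K3.kc Pool.Agent.R956.K5.wk3 (p := 1) le_rfl
  refine ⟨max D0 D1, ⟨⟨fun n => ?_, fun X => ?_⟩, fun n => ?_, fun q hq => ?_⟩⟩
  · unfold u3
    exact div_nonneg (Nat.cast_nonneg _) (pow_nonneg mu_pos.le n)
  · have h1 : Summable (fun n => 6 * tm (fun _ => 1) (5 * |X|) n) := (adm_one.summ _).mul_left 6
    refine Summable.of_norm_bounded h1 (fun n => ?_)
    unfold tm u3
    have hμ := TH966.KO.mu_one
    have hc : (TH966.KO.c n : ℝ) ≤ 6 * 5 ^ n := by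
      rcases Nat.eq_zero_or_pos n with h0 | h0
      · subst h0
        have h1 := TH966.KO.c_add 0 0
        have h2 := TH966.KO.c_five 0
        have h4 : TH966.KO.c 1 ≤ 6 := by simpa using h2
        have h5 : TH966.KO.c 0 ≤ 6 := by
          -- `c 0 ≤ c 0 * c 1`-type bounds are not needed: `c 0 = 1`
          have h6 := Pool.Agent.R956.Z1.c_step 0
          have h7 : TH966.KO.c 0 = 1 := by
            have := Pool.Agent.H46R2.K3.P.card_eq 0
            unfold TH966.KO.c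
            rw [← this, Nat.card_eq_one_iff_unique]
            constructor
            · refine ⟨fun f g => ?_⟩
              ext i j
              have hi : i = 0 := Fin.ext (by have := i.2; simp at this ⊢)
              rw [hi, f.2.1, g.2.1]
            · exact ⟨⟨fun _ => 0, rfl, fun i j _ => Fin.ext (by have := i.2; have := j.2; omega), fun i => i.elim0⟩⟩
          omega
        have : (TH966.KO.c 0 : ℝ) ≤ 6 := by exact_mod_cast h5
        simpa using this
      · obtain ⟨k, rfl⟩ : ∃ k, n = k + 1 := ⟨n - 1, by omega⟩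
        have h2 := TH966.KO.c_five k
        have h3 : (TH966.KO.c (k + 1) : ℝ) ≤ 6 * 5 ^ k := by exact_mod_cast h2
        refine h3.trans ?_
        rw [pow_succ]
        have : (0 : ℝ) < 5 ^ k := by positivity
        linarith
    have hp : 1 ≤ TH966.KO.μ ^ n := one_le_pow₀ hμ
    have hc0 : (0 : ℝ) ≤ TH966.KO.c n := Nat.cast_nonneg _
    have h2 : (TH966.KO.c n : ℝ) / TH966.KO.μ ^ n ≤ 6 * 5 ^ n := by
      rw [div_le_iff₀ (by linarith)]
      nlinarith
    rw [Real.norm_eq_abs, abs_div, abs_mul, abs_pow,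
      abs_of_nonneg (div_nonneg hc0 (by linarith : 0 ≤ TH966.KO.μ ^ n)),
      abs_of_pos (show (0 : ℝ) < n.factorial by positivity)]
    have h3 : (TH966.KO.c n : ℝ) / TH966.KO.μ ^ n * |X| ^ n ≤ 6 * 5 ^ n * |X| ^ n := by gcongr
    calc (TH966.KO.c n : ℝ) / TH966.KO.μ ^ n * |X| ^ n / (n.factorial : ℝ) ≤
        6 * 5 ^ n * |X| ^ n / (n.factorial : ℝ) := by gcongr
      _ = _ := by rw [mul_pow]; ring
  · unfold u3
    rw [one_le_div (pow_pos mu_pos n)]
    exact TH966.KO.mu_pow n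
  · rcases (show q = 0 ∨ q = 1 by omega) with rfl | rfl
    · exact kc_mono K0 (le_max_left _ _)
    · exact kc_mono K1 (le_max_right _ _)

theorem par3 : ∃ B : ℝ, ∀ n : ℕ, 1 ≤ n → |Real.log (u3 (n + 1)) - Real.log (u3 n)| ≤ B :=
  Pool.Agent.R956.K5.wk3.par

theorem step3 {ε : ℝ} (hε : 0 < ε) : ∀ᶠ n in atTop,
    u3 (n + 1) ≤ (5 / TH966.KO.μ + ε) * u3 n ∧ u3 n ≤ (5 / TH966.KO.μ + ε) * u3 (n + 1) :=
  Pool.Agent.R956.K5.step Pool.Agent.R956.Z3.hy hε

/-- a change of the variable -/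
lemma tend_scale {μ : ℝ} (hμ : 0 < μ) {F : ℝ → ℝ} {l : Filter ℝ} :
    Tendsto (fun x : ℝ => F (μ * x)) atTop l ↔ Tendsto F atTop l := by
  constructor
  · intro h
    have h1 : Tendsto (fun X : ℝ => X / μ) atTop atTop := tendsto_id.atTop_div_const hμ
    refine (h.comp h1).congr fun X => ?_
    simp only [Function.comp_apply]
    rw [mul_div_cancel₀ _ hμ.ne']
  · intro h
    exact h.comp (tendsto_id.const_mul_atTop hμ)

lemma log_scale_tend {μ : ℝ} (hμ : 0 < μ) :
    Tendsto (fun x : ℝ => Real.log (μ * x) / Real.log x) atTop (𝓝 1) := by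
  have h1 : Tendsto (fun x : ℝ => Real.log μ / Real.log x + 1) atTop (𝓝 (0 + 1)) :=
    (tendsto_const_nhds.div_atTop Real.tendsto_log_atTop).add_const 1
  rw [zero_add] at h1
  refine h1.congr' ?_
  filter_upwards [eventually_gt_atTop 1] with x hx
  have hx0 : 0 < x := by linarith
  have hl := Real.log_pos hx
  rw [Real.log_mul hμ.ne' hx0.ne']
  field_simp

/-- the whole sequence from the two parity classes -/
lemma tend_all {f : ℕ → ℝ} {l : Filter ℝ} :
    Tendsto f atTop l ↔ ∀ q : ℕ, q ≤ 1 → Tendsto f (atTop ⊓ 𝓟 {n | n % 2 = q}) l := by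
  constructor
  · intro h q _
    exact h.mono_left inf_le_left
  · intro h U hU
    have g0 := h 0 (by norm_num) hU
    have g1 := h 1 le_rfl hU
    rw [mem_map, mem_inf_principal] at g0 g1
    rw [mem_map]
    filter_upwards [g0, g1] with n k0 k1
    rcases Nat.mod_two_eq_zero_or_one n with h | h
    · exact k0 h
    · exact k1 h

variable {u : ℕ → ℝ} {D : ℝ}

/-- **both parity classes** -/
theorem Rg.all_iff (R : Rg u D) {a A : ℝ} (hA : 0 < A) :
    Tendsto (fun n : ℕ => u n / (n : ℝ) ^ a) atTop (𝓝 A) ↔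
    Tendsto (fun X : ℝ => egf u X / (Real.exp X * X ^ a)) atTop (𝓝 A) ∧
      Tendsto (fun X : ℝ => egf u (-X) / (Real.exp X * X ^ a)) atTop (𝓝 0) := by
  rw [tend_all]
  have e0 : ∀ X, egf u X = egf (rs 0 u) X + egf (rs 1 u) X := by
    intro X
    rw [egf_rs R.adm (by norm_num), egf_rs R.adm le_rfl]
    ring
  have e1 : ∀ X, egf u (-X) = egf (rs 0 u) X - egf (rs 1 u) X := by
    intro X
    rw [egf_rs R.adm (by norm_num), egf_rs R.adm le_rfl]
    ring
  constructor
  · intro h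
    have h0 := (R.cls_iff (by norm_num) hA).1 (h 0 (by norm_num))
    have h1 := (R.cls_iff le_rfl hA).1 (h 1 le_rfl)
    constructor
    · have := h0.add h1
      rw [add_halves] at this
      refine this.congr fun X => ?_
      rw [e0, add_div]
    · have := h0.sub h1
      rw [sub_self] at this
      refine this.congr fun X => ?_
      rw [e1, sub_div]
  · rintro ⟨h0, h1⟩ q hq
    rw [R.cls_iff hq hA]
    have := (h0.add (h1.const_mul ((-1 : ℝ) ^ q))).div_const 2
    rw [mul_zero, add_zero] at this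
    refine this.congr fun X => ?_
    rw [egf_rs R.adm hq]
    ring

/-- bounds of the amplitude -/
theorem Rg.amp (R : Rg u D) {a A β : ℝ} (hA : 0 < A) (hβ : 0 < β)
    (hst : ∀ ε : ℝ, 0 < ε → ∀ᶠ n in atTop, u (n + 1) ≤ (β + ε) * u n ∧ u n ≤ (β + ε) * u (n + 1))
    (H : Tendsto (fun n : ℕ => (u n + u (n + 1)) / (n : ℝ) ^ a) atTop (𝓝 (2 * A)))
    {ε : ℝ} (hε : 0 < ε) : ∀ᶠ n : ℕ in atTop,
      2 / (1 + β) * A - ε ≤ u n / (n : ℝ) ^ a ∧ u n / (n : ℝ) ^ a ≤ 2 * β / (1 + β) * A + ε := by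
  obtain ⟨η, hη⟩ : ∃ η : ℝ, η = ε / (4 * A) := ⟨_, rfl⟩
  have hη0 : 0 < η := by rw [hη]; positivity
  have h4 : 4 * A * η = ε := by rw [hη]; field_simp
  have h1 := H.eventually_lt_const (show 2 * A < 2 * A + ε / 4 by linarith)
  have h2 := H.eventually_const_lt (show 2 * A - ε / 4 < 2 * A by linarith)
  filter_upwards [hst η hη0, h1, h2, eventually_ge_atTop 1] with n g1 g2 g3 hn
  have hn0 : (0 : ℝ) < n := by exact_mod_cast hn
  have hna := Real.rpow_pos_of_pos hn0 a
  obtain ⟨x, hx⟩ : ∃ x : ℝ, x = u n / (n : ℝ) ^ a := ⟨_, rfl⟩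
  obtain ⟨y, hy⟩ : ∃ y : ℝ, y = u (n + 1) / (n : ℝ) ^ a := ⟨_, rfl⟩
  have hx0 : 0 < x := by rw [hx]; exact div_pos (R.pos n) hna
  have hy0 : 0 < y := by rw [hy]; exact div_pos (R.pos _) hna
  rw [add_div, ← hx, ← hy] at g2 g3
  have k1 : y ≤ (β + η) * x := by
    rw [hx, hy, mul_div_assoc']
    exact div_le_div_of_nonneg_right g1.1 hna.le
  have k2 : x ≤ (β + η) * y := by
    rw [hx, hy, mul_div_assoc']
    exact div_le_div_of_nonneg_right g1.2 hna.le
  rw [← hx]
  obtain ⟨B, hB⟩ : ∃ B : ℝ, B = β + η := ⟨_, rfl⟩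
  rw [← hB] at k1 k2
  have hB0 : 0 < B := by rw [hB]; positivity
  have hD1 : 0 < 1 + β := by positivity
  have hD2 : 0 < 1 + B := by positivity
  have l1 : (2 * A - ε / 4) / (1 + B) ≤ x := by
    rw [div_le_iff₀ hD2]
    nlinarith
  have l2 : x ≤ (2 * A + ε / 4) * B / (1 + B) := by
    rw [le_div_iff₀ hD2]
    nlinarith
  have m1 : 2 / (1 + β) * A - 2 / (1 + B) * A ≤ ε / 2 := by
    have e : 2 / (1 + β) * A - 2 / (1 + B) * A = 2 * A * η / ((1 + β) * (1 + B)) := by
      rw [hB] at hD2 ⊢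
      field_simp
      ring
    rw [e, div_le_iff₀ (by positivity)]
    have : 1 ≤ (1 + β) * (1 + B) := by nlinarith
    nlinarith
  have m2 : 2 * B / (1 + B) * A - 2 * β / (1 + β) * A ≤ ε / 2 := by
    have e : 2 * B / (1 + B) * A - 2 * β / (1 + β) * A = 2 * A * η / ((1 + β) * (1 + B)) := by
      rw [hB] at hD2 ⊢
      field_simp
      ring
    rw [e, div_le_iff₀ (by positivity)]
    have : 1 ≤ (1 + β) * (1 + B) := by nlinarith
    nlinarith
  have m3 : ε / 4 / (1 + B) ≤ ε / 4 := by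
    rw [div_le_iff₀ hD2]
    nlinarith
  have m4 : ε / 4 * B / (1 + B) ≤ ε / 4 := by
    rw [div_le_iff₀ hD2]
    nlinarith
  have e3 : (2 * A - ε / 4) / (1 + B) = 2 / (1 + B) * A - ε / 4 / (1 + B) := by ring
  have e4 : (2 * A + ε / 4) * B / (1 + B) = 2 * B / (1 + B) * A + ε / 4 * B / (1 + B) := by ring
  rw [e3] at l1
  rw [e4] at l2
  constructor <;> linarith

end Pool.Agent.K3h54.PS
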